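import Pool.Agent.H49.FR.Defs

/-!
# Module Ball: balls

`v ∈ ball o (r+1) ↔ v ∈ ball o r ∨ ∃ u ∈ ball o r, u ~ v`. Monotone in `r`. Triangle inequality by induction on the second radius.
Symmetry: by induction, using the triangle inequality (`v ~ u ∈ ball o r`: `o ∈ ball u r`, `u ∈ ball v 1`, so `o ∈ ball v (r+1)`).
Cardinality: `|ball (r+1)| ≤ |ball r| + d |ball r|`.
-/

set_option autoImplicit false

open Finset

namespace Pool.Agent.H49.FR

variable {V : Type} [Fintype V] [DecidableEq V] (G : SimpleGraph V) [DecidableRel G.Adj]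

lemma mem_ball_succ (o v : V) (r : ℕ) :
    v ∈ ball G o (r + 1) ↔ v ∈ ball G o r ∨ ∃ u ∈ ball G o r, G.Adj u v := by
  simp only [ball, Finset.mem_union, Finset.mem_biUnion, SimpleGraph.mem_neighborFinset]

lemma self_mem_ball (o : V) (r : ℕ) : o ∈ ball G o r := by
  induction r with
  | zero => simp [ball]
  | succ r ih => exact (mem_ball_succ G o o r).2 (Or.inl ih)

lemma ball_mono (o : V) {r s : ℕ} (h : r ≤ s) : ball G o r ⊆ ball G o s := by
  induction s, h using Nat.le_induction with
  | base => exact fun _ h => h
  | succ s _ ih => exact fun v hv => (mem_ball_succ G o v s).2 (Or.inl (ih hv))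

lemma ball_nbr {o v w : V} {r : ℕ} (hv : v ∈ ball G o r) (h : G.Adj v w) : w ∈ ball G o (r + 1) :=
  (mem_ball_succ G o w r).2 (Or.inr ⟨v, hv, h⟩)

lemma ball_trans {o v w : V} {r s : ℕ} (hv : v ∈ ball G o r) (hw : w ∈ ball G v s) :
    w ∈ ball G o (r + s) := by
  induction s generalizing w with
  | zero =>
    have : w = v := by simpa [ball] using hw
    rw [this]
    exact hv
  | succ s ih =>
    rcases (mem_ball_succ G v w s).1 hw with h | ⟨u, hu, huw⟩
    · exact ball_mono G o (by omega) (ih h)
    · exact ball_nbr G (ih hu) huw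

lemma ball_symm {o v : V} {r : ℕ} (hv : v ∈ ball G o r) : o ∈ ball G v r := by
  induction r generalizing v with
  | zero =>
    have : v = o := by simpa [ball] using hv
    rw [this]
    exact self_mem_ball G o 0
  | succ r ih =>
    rcases (mem_ball_succ G o v r).1 hv with h | ⟨u, hu, huv⟩
    · exact ball_mono G v (by omega) (ih h)
    · have h1 : u ∈ ball G v 1 := ball_nbr G (self_mem_ball G v 0) huv.symm
      have h2 := ball_trans G h1 (ih hu)
      rwa [Nat.add_comm] at h2

lemma ball_card {d : ℕ} (hreg : G.IsRegularOfDegree d) (o : V) (r : ℕ) : (ball G o r).card ≤ (d + 1) ^ r := by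
  induction r with
  | zero => simp [ball]
  | succ r ih =>
    have h1 : (ball G o (r + 1)).card ≤ (ball G o r).card +
        ((ball G o r).biUnion fun v => G.neighborFinset v).card := Finset.card_union_le _ _
    have h2 : ((ball G o r).biUnion fun v => G.neighborFinset v).card ≤ (ball G o r).card * d := by
      refine Finset.card_biUnion_le_card_mul _ _ _ fun v _ => ?_
      rw [SimpleGraph.card_neighborFinset_eq_degree]
      exact (hreg v).le
    calc (ball G o (r + 1)).card ≤ (ball G o r).card + (ball G o r).card * d := by omega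
      _ = (ball G o r).card * (d + 1) := by ring
      _ ≤ (d + 1) ^ r * (d + 1) := Nat.mul_le_mul_right _ ih
      _ = (d + 1) ^ (r + 1) := by ring

end Pool.Agent.H49.FR
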