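import Pool.Agent.H49.FR.Defs

/-!
# Module Blocks: independence

* `indep_blocks`: `HasGaussianLaw.indepFun_of_covariance_eval` for the restriction to the coordinates in `P` and in `Q` (jointly Gaussian as the
  image of the Gaussian measure under a continuous linear map), `covariance_eval_multivariateGaussian`.
* `indep_res`: the same with `X = ω v` (index type `Unit`) and `Y_u = ω u - S u v ω v`, `u ∈ N`: `cov(ω v, Y_u) = S v u - S u v = 0`.
* `res_symm`: the law of the centered Gaussian vector `Y` is symmetric: `multivariateGaussian 0 S` is invariant under `ω ↦ -ω`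
  (e.g. `IsGaussian.ext`, or the definition as an image of `stdGaussian`, which is invariant under the linear isometry `-1`:
  `stdGaussian_map`), and `Y(-ω) = -Y(ω)`.
-/

set_option autoImplicit false

open Finset MeasureTheory ProbabilityTheory

namespace Pool.Agent.H49.FR

variable {V : Type} [Fintype V] [DecidableEq V]

private theorem bl_law {E : Type} [NormedAddCommGroup E] [NormedSpace ℝ E] [MeasurableSpace E] [BorelSpace E]
    (S : Matrix V V ℝ) (L : EuclideanSpace ℝ V →L[ℝ] E) :
    HasGaussianLaw (fun ω : EuclideanSpace ℝ V => L ω) (multivariateGaussian 0 S) := by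
  have h := (IsGaussian.hasGaussianLaw_id (μ := multivariateGaussian (0 : EuclideanSpace ℝ V) S)).map_fun L
  exact h

private theorem bl_memLp (S : Matrix V V ℝ) (v : V) :
    MemLp (fun ω : EuclideanSpace ℝ V => ω v) 2 (multivariateGaussian 0 S) :=
  (bl_law S (EuclideanSpace.proj v : EuclideanSpace ℝ V →L[ℝ] ℝ)).memLp_two

theorem indep_blocks {S : Matrix V V ℝ} (hS : S.PosSemidef) (P Q : Finset V)
    (h : ∀ a ∈ P, ∀ b ∈ Q, S a b = 0) :
    IndepFun (fun (ω : EuclideanSpace ℝ V) (a : P) => ω a) (fun (ω : EuclideanSpace ℝ V) (b : Q) => ω b)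
      (multivariateGaussian 0 S) := by
  refine HasGaussianLaw.indepFun_of_covariance_eval (ι := P) (κ := Q) (X := fun a (ω : EuclideanSpace ℝ V) => ω (a : V))
    (Y := fun b (ω : EuclideanSpace ℝ V) => ω (b : V)) ?_ ?_
  · exact bl_law S ((ContinuousLinearMap.pi fun a : P => (EuclideanSpace.proj (a : V) :
      EuclideanSpace ℝ V →L[ℝ] ℝ)).prod (ContinuousLinearMap.pi fun b : Q => (EuclideanSpace.proj (b : V) :
      EuclideanSpace ℝ V →L[ℝ] ℝ)))
  · intro a b
    rw [covariance_eval_multivariateGaussian hS]
    exact h a a.2 b b.2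

theorem indep_res {S : Matrix V V ℝ} (hS : S.PosSemidef) {v : V} (hv : S v v = 1) (N : Finset V) :
    IndepFun (fun ω : EuclideanSpace ℝ V => ω v)
      (fun (ω : EuclideanSpace ℝ V) (u : N) => ω u - S u v * ω v) (multivariateGaussian 0 S) := by
  have h1 : IndepFun (fun (ω : EuclideanSpace ℝ V) (_ : Unit) => ω v)
      (fun (ω : EuclideanSpace ℝ V) (u : N) => ω u - S u v * ω v) (multivariateGaussian 0 S) := by
    refine HasGaussianLaw.indepFun_of_covariance_eval (ι := Unit) (κ := N) (X := fun _ (ω : EuclideanSpace ℝ V) => ω v)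
      (Y := fun u (ω : EuclideanSpace ℝ V) => ω (u : V) - S u v * ω v) ?_ ?_
    · exact bl_law S ((ContinuousLinearMap.pi fun _ : Unit => (EuclideanSpace.proj v :
        EuclideanSpace ℝ V →L[ℝ] ℝ)).prod (ContinuousLinearMap.pi fun u : N => (EuclideanSpace.proj (u : V) :
        EuclideanSpace ℝ V →L[ℝ] ℝ) - S u v • (EuclideanSpace.proj v : EuclideanSpace ℝ V →L[ℝ] ℝ)))
    · intro _ u
      have m1 := bl_memLp S v
      have m2 := bl_memLp S (u : V)
      rw [show (fun ω : EuclideanSpace ℝ V => ω (u : V) - S u v * ω v) =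
        (fun ω : EuclideanSpace ℝ V => ω (u : V)) - fun ω : EuclideanSpace ℝ V => S u v * ω v from rfl,
        covariance_sub_right m1 m2 (m1.const_mul _), covariance_const_mul_right,
        covariance_eval_multivariateGaussian hS, covariance_eval_multivariateGaussian hS, hv, mul_one]
      have h2 := hS.isHermitian.apply v u
      simp only [star_trivial] at h2
      rw [h2, sub_self]
  exact h1.comp (measurable_pi_apply ()) measurable_id

theorem map_neg_gauss (S : Matrix V V ℝ) (hS : S.PosSemidef) :
    (multivariateGaussian 0 S).map (fun ω : EuclideanSpace ℝ V => -ω) = multivariateGaussian 0 S := by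
  have h1 : (stdGaussian (EuclideanSpace ℝ V)).map (LinearIsometryEquiv.neg ℝ : EuclideanSpace ℝ V ≃ₗᵢ[ℝ] EuclideanSpace ℝ V) =
      stdGaussian (EuclideanSpace ℝ V) := stdGaussian_map _
  unfold multivariateGaussian
  rw [Measure.map_map (by fun_prop) (by fun_prop)]
  conv_rhs => rw [← h1]
  rw [Measure.map_map (by fun_prop) (by fun_prop)]
  congr 1
  funext x
  simp

end Pool.Agent.H49.FR
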