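import Mathlib

/-!
# Module CSch: the Cauchy-Schwarz step

`c k` stands for the weight `φ²` of the length `k + 1`, `α k = nb k u v w`, `β k = nb k v u w`. The vector of `v` has the squared components
`c k α (k+1)`, `c k β k` (`k < r`), the vector of `u` has `c k β (k+1)`, `c k α k`. Match `c k α (k+1)` (in `v`) with `c (k+1) α (k+1)` (in `u`)
and `c k β (k+1)` (in `u`) with `c (k+1) β (k+1)` (in `v`), for `k + 1 < r`; every component is used at most once.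
Proof: `Real.sum_sqrt_mul_sqrt_le` on the index set `range (r-1) ⊕ range (r-1)` (or twice: once over `k`, and
`√a √b + √a' √b' ≤ √(a+a') √(b+b')`), and monotonicity of the square root (drop the unused components, all are `≥ 0`).
With `A = ∑_{k<r-1} c k α(k+1)`, `A' = ∑_{k<r-1} c (k+1) α (k+1)`, `B = ∑_{k<r-1} c k β (k+1)`, `B' = ∑_{k<r-1} c (k+1) β (k+1)`:
left ≤ `√A √A' + √B √B' ≤ √(A + B') √(A' + B)` and `A + B' ≤ ∑_{k<r} c k (α (k+1) + β k)`, `A' + B ≤ ∑_{k<r} c k (β (k+1) + α k)`.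
-/

set_option autoImplicit false

open Finset

namespace Pool.Agent.H49.FR

private theorem two (a b a' b' : ℝ) (ha : 0 ≤ a) (hb : 0 ≤ b) (ha' : 0 ≤ a') (hb' : 0 ≤ b') :
    Real.sqrt a * Real.sqrt b + Real.sqrt a' * Real.sqrt b' ≤ Real.sqrt (a + a') * Real.sqrt (b + b') := by
  have hf : ∀ i : Fin 2, 0 ≤ (![a, a'] : Fin 2 → ℝ) i := by
    intro i
    fin_cases i <;> simpa
  have hg : ∀ i : Fin 2, 0 ≤ (![b, b'] : Fin 2 → ℝ) i := by
    intro i
    fin_cases i <;> simpa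
  have h := Real.sum_sqrt_mul_sqrt_le (Finset.univ : Finset (Fin 2)) hf hg
  simpa [Fin.sum_univ_two] using h

private theorem shift (r : ℕ) (f : ℕ → ℝ) (hf : ∀ k, 0 ≤ f k) :
    ∑ k ∈ range (r - 1), f (k + 1) ≤ ∑ k ∈ range r, f k := by
  rcases r with _ | r
  · simp
  · rw [Finset.sum_range_succ']
    have := hf 0
    simp only [Nat.add_sub_cancel]
    linarith

private theorem sub (r : ℕ) (f : ℕ → ℝ) (hf : ∀ k, 0 ≤ f k) :
    ∑ k ∈ range (r - 1), f k ≤ ∑ k ∈ range r, f k :=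
  Finset.sum_le_sum_of_subset_of_nonneg (Finset.range_mono (Nat.sub_le r 1)) fun k _ _ => hf k

private theorem half (r : ℕ) (c α β : ℕ → ℝ) (hc : ∀ k, 0 ≤ c k) (hα : ∀ k, 0 ≤ α k) (hβ : ∀ k, 0 ≤ β k) :
    ∑ k ∈ range (r - 1), c k * α (k + 1) + ∑ k ∈ range (r - 1), c (k + 1) * β (k + 1) ≤
      ∑ k ∈ range r, c k * (α (k + 1) + β k) := by
  have h1 := sub r (fun k => c k * α (k + 1)) fun k => mul_nonneg (hc k) (hα _)
  have h2 := shift r (fun k => c k * β k) fun k => mul_nonneg (hc k) (hβ k)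
  have h3 : ∑ k ∈ range r, c k * (α (k + 1) + β k) =
      ∑ k ∈ range r, c k * α (k + 1) + ∑ k ∈ range r, c k * β k := by
    rw [← Finset.sum_add_distrib]
    exact Finset.sum_congr rfl fun k _ => by ring
  rw [h3]
  exact add_le_add h1 h2

theorem csch (r : ℕ) (c α β : ℕ → ℝ) (hc : ∀ k, 0 ≤ c k) (hα : ∀ k, 0 ≤ α k) (hβ : ∀ k, 0 ≤ β k) :
    ∑ k ∈ range (r - 1), Real.sqrt (c k * c (k + 1)) * (α (k + 1) + β (k + 1)) ≤
      Real.sqrt (∑ k ∈ range r, c k * (α (k + 1) + β k)) *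
        Real.sqrt (∑ k ∈ range r, c k * (β (k + 1) + α k)) := by
  have hterm : ∀ (γ : ℕ → ℝ), (∀ k, 0 ≤ γ k) → ∀ k,
      Real.sqrt (c k * c (k + 1)) * γ (k + 1) =
        Real.sqrt (c k * γ (k + 1)) * Real.sqrt (c (k + 1) * γ (k + 1)) := by
    intro γ hγ k
    rw [← Real.sqrt_mul (mul_nonneg (hc k) (hγ _)),
      show c k * γ (k + 1) * (c (k + 1) * γ (k + 1)) = (c k * c (k + 1)) * (γ (k + 1)) ^ 2 by ring,
      Real.sqrt_mul (mul_nonneg (hc k) (hc _)), Real.sqrt_sq (hγ _)]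
  have hcs : ∀ (γ : ℕ → ℝ), (∀ k, 0 ≤ γ k) →
      ∑ k ∈ range (r - 1), Real.sqrt (c k * c (k + 1)) * γ (k + 1) ≤
        Real.sqrt (∑ k ∈ range (r - 1), c k * γ (k + 1)) *
          Real.sqrt (∑ k ∈ range (r - 1), c (k + 1) * γ (k + 1)) := by
    intro γ hγ
    rw [Finset.sum_congr rfl fun k _ => hterm γ hγ k]
    exact Real.sum_sqrt_mul_sqrt_le _ (fun k => mul_nonneg (hc k) (hγ _))
      (fun k => mul_nonneg (hc _) (hγ _))
  have hsplit : ∑ k ∈ range (r - 1), Real.sqrt (c k * c (k + 1)) * (α (k + 1) + β (k + 1)) =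
      ∑ k ∈ range (r - 1), Real.sqrt (c k * c (k + 1)) * α (k + 1) +
        ∑ k ∈ range (r - 1), Real.sqrt (c k * c (k + 1)) * β (k + 1) := by
    rw [← Finset.sum_add_distrib]
    exact Finset.sum_congr rfl fun k _ => by ring
  rw [hsplit]
  have hnn : ∀ (γ : ℕ → ℝ), (∀ k, 0 ≤ γ k) → 0 ≤ ∑ k ∈ range (r - 1), c k * γ (k + 1) :=
    fun γ hγ => Finset.sum_nonneg fun k _ => mul_nonneg (hc k) (hγ _)
  have hnn' : ∀ (γ : ℕ → ℝ), (∀ k, 0 ≤ γ k) → 0 ≤ ∑ k ∈ range (r - 1), c (k + 1) * γ (k + 1) :=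
    fun γ hγ => Finset.sum_nonneg fun k _ => mul_nonneg (hc _) (hγ _)
  have h1 := hcs α hα
  have h2 := hcs β hβ
  rw [mul_comm (Real.sqrt (∑ k ∈ range (r - 1), c k * β (k + 1)))] at h2
  have h3 := two _ _ _ _ (hnn α hα) (hnn' α hα) (hnn' β hβ) (hnn β hβ)
  have h4 := half r c α β hc hα hβ
  have h5 := half r c β α hc hβ hα
  have h6 : Real.sqrt (∑ k ∈ range (r - 1), c k * α (k + 1) + ∑ k ∈ range (r - 1), c (k + 1) * β (k + 1)) ≤
      Real.sqrt (∑ k ∈ range r, c k * (α (k + 1) + β k)) := Real.sqrt_le_sqrt h4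
  have h7 : Real.sqrt (∑ k ∈ range (r - 1), c (k + 1) * α (k + 1) + ∑ k ∈ range (r - 1), c k * β (k + 1)) ≤
      Real.sqrt (∑ k ∈ range r, c k * (β (k + 1) + α k)) := by
    apply Real.sqrt_le_sqrt
    rw [add_comm]
    exact h5
  have h8 := mul_le_mul h6 h7 (Real.sqrt_nonneg _) (Real.sqrt_nonneg _)
  linarith

end Pool.Agent.H49.FR
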