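import Pool.Agent.H49.FR.Defs
import Pool.Agent.H49.FR.Blocks

/-!
# Module Conc: concentration of sums of local events

`E_v` depends only on the coordinates in `P v`. For `w ∉ T v` the covariances between `P v` and `P w` vanish, so `E_v, E_w` are independent
(`indep_blocks`; `E_v` is the preimage under the restriction `ω ↦ (ω a)_{a ∈ P v}` of the set of the `x` whose extension by zero lies in `E_v`;
the extension map is measurable). `∫ (∑ 1_{E_v} - ∑ μ E_v)² = ∑_{v,w} (μ(E_v ∩ E_w) - μ E_v μ E_w) ≤ ∑_v |T v| ≤ D n`, and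
`∫ |f| ≤ √(∫ f²)` for a probability measure (`f` bounded).
-/

set_option autoImplicit false

open Finset MeasureTheory ProbabilityTheory

namespace Pool.Agent.H49.FR

variable {V : Type} [Fintype V] [DecidableEq V]

/-- extension by zero -/
private noncomputable def cgExt (P : Finset V) (x : P → ℝ) : EuclideanSpace ℝ V :=
  WithLp.toLp 2 fun a => if h : a ∈ P then x ⟨a, h⟩ else 0

private lemma cgExt_meas (P : Finset V) : Measurable (cgExt P) := by
  have h : Continuous (cgExt P) := by
    unfold cgExt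
    refine (PiLp.continuous_toLp 2 _).comp ?_
    refine continuous_pi fun a => ?_
    by_cases h : a ∈ P
    · simp only [dif_pos h]
      exact continuous_apply _
    · simp only [dif_neg h]
      exact continuous_const
  exact h.measurable

omit [Fintype V] in
private lemma cg_pre (E : Set (EuclideanSpace ℝ V)) (P : Finset V)
    (hP : ∀ ω ω' : EuclideanSpace ℝ V, (∀ a ∈ P, ω a = ω' a) → ω ∈ E → ω' ∈ E) :
    E = (fun (ω : EuclideanSpace ℝ V) (a : P) => ω a) ⁻¹' ((cgExt P) ⁻¹' E) := by
  have h : ∀ ω : EuclideanSpace ℝ V, ∀ a ∈ P, ω a = cgExt P (fun a : P => ω a) a := by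
    intro ω a ha
    unfold cgExt
    show ω a = if h : a ∈ P then ω a else 0
    rw [dif_pos ha]
  ext ω
  constructor
  · intro hω
    exact hP ω _ (h ω) hω
  · intro hω
    exact hP _ ω (fun a ha => (h ω a ha).symm) hω

private lemma cg_ind {S : Matrix V V ℝ} (hS : S.PosSemidef) {E E' : Set (EuclideanSpace ℝ V)}
    (hE : MeasurableSet E) (hE' : MeasurableSet E') {P P' : Finset V}
    (hP : ∀ ω ω' : EuclideanSpace ℝ V, (∀ a ∈ P, ω a = ω' a) → ω ∈ E → ω' ∈ E)
    (hP' : ∀ ω ω' : EuclideanSpace ℝ V, (∀ a ∈ P', ω a = ω' a) → ω ∈ E' → ω' ∈ E')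
    (h : ∀ a ∈ P, ∀ b ∈ P', S a b = 0) :
    (multivariateGaussian 0 S).real (E ∩ E') =
      (multivariateGaussian 0 S).real E * (multivariateGaussian 0 S).real E' := by
  have h1 := indep_blocks hS P P' h
  have h2 := h1.measure_inter_preimage_eq_mul ((cgExt P) ⁻¹' E) ((cgExt P') ⁻¹' E')
    (cgExt_meas P hE) (cgExt_meas P' hE')
  rw [← cg_pre E P hP, ← cg_pre E' P' hP'] at h2
  unfold Measure.real
  rw [h2, ENNReal.toReal_mul]

private lemma cg_cov (μ : Measure (EuclideanSpace ℝ V)) [IsProbabilityMeasure μ]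
    {E E' : Set (EuclideanSpace ℝ V)} (hE : MeasurableSet E) (hE' : MeasurableSet E') :
    ∫ ω, (E.indicator (fun _ => (1 : ℝ)) ω - μ.real E) * (E'.indicator (fun _ => (1 : ℝ)) ω - μ.real E') ∂μ =
      μ.real (E ∩ E') - μ.real E * μ.real E' := by
  have i1 : Integrable (E.indicator (fun _ => (1 : ℝ))) μ := (integrable_const 1).indicator hE
  have i2 : Integrable (E'.indicator (fun _ => (1 : ℝ))) μ := (integrable_const 1).indicator hE'
  have i3 : Integrable ((E ∩ E').indicator (fun _ => (1 : ℝ))) μ :=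
    (integrable_const 1).indicator (hE.inter hE')
  have e : ∀ ω, (E.indicator (fun _ => (1 : ℝ)) ω - μ.real E) *
      (E'.indicator (fun _ => (1 : ℝ)) ω - μ.real E') =
      (E ∩ E').indicator (fun _ => (1 : ℝ)) ω - μ.real E' * E.indicator (fun _ => (1 : ℝ)) ω -
        μ.real E * E'.indicator (fun _ => (1 : ℝ)) ω + μ.real E * μ.real E' := by
    intro ω
    have h1 : (E ∩ E').indicator (fun _ => (1 : ℝ)) ω =
        E.indicator (fun _ => (1 : ℝ)) ω * E'.indicator (fun _ => (1 : ℝ)) ω := by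
      by_cases h : ω ∈ E
      · by_cases h' : ω ∈ E'
        · rw [Set.indicator_of_mem (Set.mem_inter h h'), Set.indicator_of_mem h,
            Set.indicator_of_mem h', one_mul]
        · rw [Set.indicator_of_notMem (fun h2 => h' h2.2), Set.indicator_of_notMem h', mul_zero]
      · rw [Set.indicator_of_notMem (fun h2 => h h2.1), Set.indicator_of_notMem h, zero_mul]
    rw [h1]
    ring
  rw [integral_congr_ae (Filter.Eventually.of_forall e)]
  have j0 : Integrable (fun ω => μ.real E' * E.indicator (fun _ => (1 : ℝ)) ω) μ := i1.const_mul _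
  have j0' : Integrable (fun ω => μ.real E * E'.indicator (fun _ => (1 : ℝ)) ω) μ := i2.const_mul _
  have j1 : Integrable (fun ω => (E ∩ E').indicator (fun _ => (1 : ℝ)) ω -
      μ.real E' * E.indicator (fun _ => (1 : ℝ)) ω) μ := i3.sub j0
  have j2 : Integrable (fun ω => (E ∩ E').indicator (fun _ => (1 : ℝ)) ω -
      μ.real E' * E.indicator (fun _ => (1 : ℝ)) ω - μ.real E * E'.indicator (fun _ => (1 : ℝ)) ω) μ :=
    j1.sub j0'
  rw [integral_add j2 (integrable_const _), integral_sub j1 j0', integral_sub i3 j0,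
    integral_const_mul, integral_const_mul, integral_indicator_const _ hE,
    integral_indicator_const _ hE', integral_indicator_const _ (hE.inter hE'), integral_const]
  simp only [smul_eq_mul, mul_one, probReal_univ, one_mul]
  ring

theorem conc_gen {S : Matrix V V ℝ} (hS : S.PosSemidef) (E : V → Set (EuclideanSpace ℝ V))
    (hE : ∀ v, MeasurableSet (E v)) (P : V → Finset V)
    (hP : ∀ v, ∀ ω ω' : EuclideanSpace ℝ V, (∀ a ∈ P v, ω a = ω' a) → ω ∈ E v → ω' ∈ E v)
    (D : ℕ) (T : V → Finset V) (hT : ∀ v, (T v).card ≤ D)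
    (hD : ∀ v, ∀ w ∉ T v, ∀ a ∈ P v, ∀ b ∈ P w, S a b = 0) :
    ∫ ω, |(∑ v, (E v).indicator (fun _ => (1 : ℝ)) ω) - ∑ v, (multivariateGaussian 0 S).real (E v)|
        ∂(multivariateGaussian 0 S) ≤ Real.sqrt (D * Fintype.card V) := by
  set μ := multivariateGaussian (0 : EuclideanSpace ℝ V) S with hμ
  set g : V → EuclideanSpace ℝ V → ℝ := fun v ω => (E v).indicator (fun _ => (1 : ℝ)) ω - μ.real (E v)
    with hg
  have i1 : ∀ v, Integrable ((E v).indicator (fun _ => (1 : ℝ))) μ := fun v =>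
    (integrable_const 1).indicator (hE v)
  have gm : ∀ v, Measurable (g v) := fun v =>
    (measurable_const.indicator (hE v)).sub measurable_const
  have gb : ∀ v ω, |g v ω| ≤ 1 := by
    intro v ω
    have h0 : 0 ≤ μ.real (E v) := measureReal_nonneg
    have h1 : μ.real (E v) ≤ 1 := measureReal_le_one
    rw [hg]
    show |(E v).indicator (fun _ => (1 : ℝ)) ω - μ.real (E v)| ≤ 1
    by_cases h : ω ∈ E v
    · rw [Set.indicator_of_mem h, abs_le]
      constructor <;> linarith
    · rw [Set.indicator_of_notMem h, abs_le]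
      constructor <;> linarith
  have e1 : ∀ ω, (∑ v, (E v).indicator (fun _ => (1 : ℝ)) ω) - ∑ v, μ.real (E v) = ∑ v, g v ω := by
    intro ω
    rw [← Finset.sum_sub_distrib]
  have hXm : Measurable fun ω => ∑ v, g v ω := Finset.measurable_fun_sum _ fun v _ => gm v
  have hXb : ∀ ω, |∑ v, g v ω| ≤ (Fintype.card V : ℝ) := by
    intro ω
    refine (Finset.abs_sum_le_sum_abs _ _).trans ?_
    refine (Finset.sum_le_sum fun v _ => gb v ω).trans ?_
    rw [Finset.sum_const, nsmul_eq_mul, mul_one, Finset.card_univ]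
  have hgi : ∀ v w, Integrable (fun ω => g v ω * g w ω) μ := by
    intro v w
    refine Integrable.of_bound ((gm v).mul (gm w)).aestronglyMeasurable 1
      (Filter.Eventually.of_forall fun ω => ?_)
    rw [Real.norm_eq_abs, abs_mul]
    calc |g v ω| * |g w ω| ≤ 1 * 1 := mul_le_mul (gb v ω) (gb w ω) (abs_nonneg _) zero_le_one
      _ = 1 := one_mul 1
  have hsq : ∫ ω, (∑ v, g v ω) ^ 2 ∂μ ≤ D * Fintype.card V := by
    have e2 : ∀ ω, (∑ v, g v ω) ^ 2 = ∑ v, ∑ w, g v ω * g w ω := by
      intro ω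
      rw [sq, Finset.sum_mul_sum]
    rw [integral_congr_ae (Filter.Eventually.of_forall e2),
      integral_finsetSum _ fun v _ => integrable_finsetSum _ fun w _ => hgi v w]
    have e3 : ∀ v, ∫ ω, ∑ w, g v ω * g w ω ∂μ ≤ D := by
      intro v
      rw [integral_finsetSum _ fun w _ => hgi v w]
      have e4 : ∀ w, ∫ ω, g v ω * g w ω ∂μ ≤ if w ∈ T v then 1 else 0 := by
        intro w
        rw [hg, cg_cov μ (hE v) (hE w)]
        by_cases hw : w ∈ T v
        · rw [if_pos hw]
          have h0 : 0 ≤ μ.real (E v) * μ.real (E w) := mul_nonneg measureReal_nonneg measureReal_nonneg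
          have h1 : μ.real (E v ∩ E w) ≤ 1 := measureReal_le_one
          linarith
        · rw [if_neg hw, hμ, cg_ind hS (hE v) (hE w) (hP v) (hP w) (hD v w hw), sub_self]
      refine (Finset.sum_le_sum fun w _ => e4 w).trans ?_
      rw [Finset.sum_ite_mem, Finset.univ_inter, Finset.sum_const, nsmul_eq_mul, mul_one]
      exact_mod_cast hT v
    refine (Finset.sum_le_sum fun v _ => e3 v).trans ?_
    rw [Finset.sum_const, nsmul_eq_mul, Finset.card_univ, mul_comm]
  have hX2 : MemLp (fun ω => |∑ v, g v ω|) 2 μ := by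
    refine MemLp.of_bound (hXm.abs).aestronglyMeasurable (Fintype.card V : ℝ)
      (Filter.Eventually.of_forall fun ω => ?_)
    rw [Real.norm_eq_abs, abs_abs]
    exact hXb ω
  have hv := variance_nonneg (fun ω => |∑ v, g v ω|) μ
  rw [variance_eq_sub hX2] at hv
  have hsq2 : (∫ ω, |∑ v, g v ω| ∂μ) ^ 2 ≤ ∫ ω, (∑ v, g v ω) ^ 2 ∂μ := by
    have e5 : ∫ ω, ((fun ω => |∑ v, g v ω|) ^ 2) ω ∂μ = ∫ ω, (∑ v, g v ω) ^ 2 ∂μ := by
      refine integral_congr_ae (Filter.Eventually.of_forall fun ω => ?_)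
      show |∑ v, g v ω| ^ 2 = (∑ v, g v ω) ^ 2
      exact sq_abs _
    rw [e5] at hv
    linarith
  rw [integral_congr_ae (Filter.Eventually.of_forall fun ω => congrArg abs (e1 ω))]
  exact Real.le_sqrt_of_sq_le (hsq2.trans hsq)

end Pool.Agent.H49.FR
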