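import Pool.Agent.H49.FR.Ball
import Pool.Agent.H49.FR.Conc

/-!
# Module ConcF: concentration of the sizes of the side and of the corrected side

`conc_gen` with `E v = {ω | v ∈ Fx G t ω}`, `P v = insert v (neighborFinset v)`, `T v = ball v (2 r + 2)`: if `S a b ≠ 0` with `a ∈ P v`,
`b ∈ P w`, then `a ∈ ball v 1`, some `x ∈ ball a r ∩ ball b r`, `w ∈ ball b 1`, so `w ∈ ball v (2 r + 2)` (`ball_trans`, `ball_symm`).
`|Fx| = ∑_v 1_{E_v}` (`Finset.card_eq_sum_ones`, `Finset.sum_filter` or `Finset.card_filter`). For `Sd`: `P v = {v}`, `T v = ball v (2 r)`.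
Measurability: `v ∈ Us` is a finite Boolean combination of `{ω | ω u ≤ -t}` (`Finset.card_filter` is a measurable function of `ω`).
-/

set_option autoImplicit false

open Finset MeasureTheory ProbabilityTheory

namespace Pool.Agent.H49.FR

variable {V : Type} [Fintype V] [DecidableEq V] (G : SimpleGraph V) [DecidableRel G.Adj]

private lemma meas_coord (v : V) : Measurable fun ω : EuclideanSpace ℝ V => ω v :=
  (EuclideanSpace.proj v : EuclideanSpace ℝ V →L[ℝ] ℝ).continuous.measurable

lemma measurableSet_Sd (t : ℝ) (v : V) : MeasurableSet {ω : EuclideanSpace ℝ V | v ∈ Sd t ω} := by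
  have h : {ω : EuclideanSpace ℝ V | v ∈ Sd t ω} = {ω : EuclideanSpace ℝ V | -t < ω v} := by
    ext ω
    simp [Sd]
  rw [h]
  exact measurableSet_lt measurable_const (meas_coord v)

lemma measurableSet_Us (t : ℝ) (v : V) : MeasurableSet {ω : EuclideanSpace ℝ V | v ∈ Us G t ω} := by
  have h : {ω : EuclideanSpace ℝ V | v ∈ Us G t ω} = {ω : EuclideanSpace ℝ V | -t < ω v} ∩
      {ω : EuclideanSpace ℝ V | 3 ≤ ((G.neighborFinset v).filter fun u => ω u ≤ -t).card} := by
    ext ω
    simp [Us]
  rw [h]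
  refine (measurableSet_lt measurable_const (meas_coord v)).inter
    (measurableSet_le measurable_const ?_)
  have h2 : (fun ω : EuclideanSpace ℝ V => ((G.neighborFinset v).filter fun u => ω u ≤ -t).card) =
      fun ω : EuclideanSpace ℝ V => ∑ u ∈ G.neighborFinset v, if ω u ≤ -t then 1 else 0 := by
    funext ω
    rw [Finset.card_filter]
  rw [h2]
  refine Finset.measurable_sum _ fun u _ => ?_
  exact Measurable.ite (measurableSet_le (meas_coord u) measurable_const) measurable_const
    measurable_const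

lemma measurableSet_Fx (t : ℝ) (v : V) : MeasurableSet {ω : EuclideanSpace ℝ V | v ∈ Fx G t ω} := by
  have h : {ω : EuclideanSpace ℝ V | v ∈ Fx G t ω} = {ω : EuclideanSpace ℝ V | v ∈ Sd t ω} \
      {ω : EuclideanSpace ℝ V | v ∈ Us G t ω} := by
    ext ω
    simp [Fx]
  rw [h]
  exact (measurableSet_Sd t v).diff (measurableSet_Us G t v)

private lemma card_ind (A : EuclideanSpace ℝ V → Finset V) (ω : EuclideanSpace ℝ V) :
    ((A ω).card : ℝ) = ∑ v, ({ω | v ∈ A ω} : Set (EuclideanSpace ℝ V)).indicator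
      (fun _ => (1 : ℝ)) ω := by
  simp [Set.indicator_apply]

theorem conc_Sd {d : ℕ} (hreg : G.IsRegularOfDegree d) {ρ : ℝ} {r : ℕ} {S : Matrix V V ℝ}
    (hS : Cv G ρ r S) (t : ℝ) :
    ∫ ω, |((Sd t ω).card : ℝ) - ∑ v, (multivariateGaussian 0 S).real {ω | v ∈ Sd t ω}|
        ∂(multivariateGaussian 0 S) ≤
      Real.sqrt ((d + 1) ^ (2 * r) * Fintype.card V) := by
  have h := conc_gen hS.psd (fun v => {ω : EuclideanSpace ℝ V | v ∈ Sd t ω})
    (fun v => measurableSet_Sd t v) (fun v => {v})
    (fun v ω ω' hω hv => by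
      have h1 : ω v = ω' v := hω v (Finset.mem_singleton_self v)
      have h2 : -t < ω v := by simpa [Sd] using hv
      rw [h1] at h2
      simpa [Sd] using h2)
    ((d + 1) ^ (2 * r)) (fun v => ball G v (2 * r)) (fun v => ball_card G hreg v (2 * r))
    (fun v w hw a ha b hb => by
      rw [Finset.mem_singleton] at ha hb
      subst ha
      subst hb
      by_contra hne
      obtain ⟨x, hx1, hx2⟩ := hS.loc _ _ hne
      have h3 := ball_trans G hx1 (ball_symm G hx2)
      rw [← two_mul] at h3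
      exact hw h3)
  have h4 : (((d + 1) ^ (2 * r) : ℕ) : ℝ) = ((d : ℝ) + 1) ^ (2 * r) := by push_cast; ring
  rw [h4] at h
  refine le_trans (le_of_eq ?_) h
  refine integral_congr_ae (Filter.Eventually.of_forall fun ω => ?_)
  show |((Sd t ω).card : ℝ) - _| = |_ - _|
  rw [card_ind (fun ω => Sd t ω) ω]

theorem conc_Fx {d : ℕ} (hreg : G.IsRegularOfDegree d) {ρ : ℝ} {r : ℕ} {S : Matrix V V ℝ}
    (hS : Cv G ρ r S) (t : ℝ) :
    ∫ ω, |((Fx G t ω).card : ℝ) - ∑ v, (multivariateGaussian 0 S).real {ω | v ∈ Fx G t ω}|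
        ∂(multivariateGaussian 0 S) ≤
      Real.sqrt ((d + 1) ^ (2 * r + 2) * Fintype.card V) := by
  have hP1 : ∀ v a : V, a ∈ insert v (G.neighborFinset v) → a ∈ ball G v 1 := by
    intro v a ha
    rw [Finset.mem_insert] at ha
    rcases ha with rfl | ha
    · exact self_mem_ball G a 1
    · exact ball_nbr G (self_mem_ball G v 0) ((G.mem_neighborFinset v a).mp ha)
  have h := conc_gen hS.psd (fun v => {ω : EuclideanSpace ℝ V | v ∈ Fx G t ω})
    (fun v => measurableSet_Fx G t v) (fun v => insert v (G.neighborFinset v))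
    (fun v ω ω' hω hv => by
      have h1 : ω v = ω' v := hω v (Finset.mem_insert_self v _)
      have h2 : ((G.neighborFinset v).filter fun u => ω u ≤ -t) =
          (G.neighborFinset v).filter fun u => ω' u ≤ -t := by
        refine Finset.filter_congr fun u hu => ?_
        rw [hω u (Finset.mem_insert_of_mem hu)]
      have h3 : v ∈ Fx G t ω := hv
      show v ∈ Fx G t ω'
      unfold Fx Us Sd at h3 ⊢
      rw [Finset.mem_sdiff, Finset.mem_filter, Finset.mem_filter] at h3 ⊢
      rw [← h1, ← h2]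
      exact h3)
    ((d + 1) ^ (2 * r + 2)) (fun v => ball G v (2 * r + 2))
    (fun v => ball_card G hreg v (2 * r + 2))
    (fun v w hw a ha b hb => by
      by_contra hne
      obtain ⟨x, hx1, hx2⟩ := hS.loc _ _ hne
      have h3 := ball_trans G (ball_trans G (ball_trans G (hP1 v a ha) hx1) (ball_symm G hx2))
        (ball_symm G (hP1 w b hb))
      have h5 : 1 + r + r + 1 = 2 * r + 2 := by ring
      rw [h5] at h3
      exact hw h3)
  have h4 : (((d + 1) ^ (2 * r + 2) : ℕ) : ℝ) = ((d : ℝ) + 1) ^ (2 * r + 2) := by push_cast; ring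
  rw [h4] at h
  refine le_trans (le_of_eq ?_) h
  refine integral_congr_ae (Filter.Eventually.of_forall fun ω => ?_)
  show |((Fx G t ω).card : ℝ) - _| = |_ - _|
  rw [card_ind (fun ω => Fx G t ω) ω]

end Pool.Agent.H49.FR
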