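import Pool.Agent.H49.FR.NW
import Pool.Agent.H49.FR.CSch

/-!
# Module Cov: the covariance matrix

`c k = 1/(r d (d-1)^k)`, `xv v w = √(∑_{k<r} c k nw k v w)`, `d ≥ 2`, `r ≥ 1`.
* `xv_norm`: `∑_w xv² = ∑_k c k d (d-1)^k = 1` (`nw_sum`).
* `xv_adj`: for adjacent `u, v`: with `nw_split` for both sides (`nw k v w = nb (k+1) u v w + nb k v u w`, `nw k u w = nb (k+1) v u w + nb k u v w`)
  and `csch` (`α k = nb k u v w`, `β k = nb k v u w`), summed over `w` with `nb_sum`: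
  `∑_w xv u w xv v w ≥ ∑_{k<r-1} √(c k c (k+1)) · 2 (d-1)^(k+1)` and `√(c k c(k+1)) = 1/(r d (d-1)^k √(d-1))`, so each term is
  `2 √(d-1)/(r d)`; the sum is `(r-1)/r · 2 √(d-1)/d`.
* `exists_cov`: `S = (1-κ) X Xᵀ + κ 1` with `X = xv` (`Matrix.posSemidef_self_mul_conjTranspose` or `Matrix.PosSemidef` from a Gram form), `0 < κ < 1`.
  Diagonal `1`; `0 ≤ (X Xᵀ) u v ≤ 1` (Cauchy-Schwarz, `xv_norm`) so `|S u v| ≤ 1 - κ` for `u ≠ v`; `S u v ≠ 0`: either `u = v` or some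
  `xv u w xv v w ≠ 0`, and `xv v w ≠ 0` gives `w ∈ ball v r` (`nw_ball`, `ball_mono`). Choose `r` large and `κ` small such that
  `(1-κ)(1-1/r) 2√(d-1)/d ≥ ρ` (for `ρ ≤ 0` anything works).
-/

set_option autoImplicit false

open Finset

namespace Pool.Agent.H49.FR

variable {V : Type} [Fintype V] [DecidableEq V] (G : SimpleGraph V) [DecidableRel G.Adj]

private lemma wt_pos {d r : ℕ} (hd : 2 ≤ d) (hr : 1 ≤ r) (k : ℕ) :
    (0 : ℝ) < r * (d * ((d : ℝ) - 1) ^ k) := by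
  have h1 : (0 : ℝ) < r := by exact_mod_cast hr
  have h2 : (2 : ℝ) ≤ d := by exact_mod_cast hd
  have h3 : (0 : ℝ) < (d : ℝ) - 1 := by linarith
  positivity

private lemma xv_sq {d r : ℕ} (hd : 2 ≤ d) (hr : 1 ≤ r) (v w : V) :
    xv G d r v w ^ 2 = ∑ k ∈ range r, (nw G k v w : ℝ) / (r * (d * ((d : ℝ) - 1) ^ k)) := by
  unfold xv
  rw [Real.sq_sqrt]
  exact Finset.sum_nonneg fun k _ => div_nonneg (Nat.cast_nonneg _) (wt_pos hd hr k).le

theorem xv_norm {d r : ℕ} (hd : 2 ≤ d) (hr : 1 ≤ r) (hreg : G.IsRegularOfDegree d) (v : V) :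
    ∑ w, xv G d r v w ^ 2 = 1 := by
  have hr' : (0 : ℝ) < r := by exact_mod_cast hr
  have hd' : (2 : ℝ) ≤ d := by exact_mod_cast hd
  have hd1 : (0 : ℝ) < (d : ℝ) - 1 := by linarith
  have h1 : ∀ w, xv G d r v w ^ 2 =
      ∑ k ∈ range r, (nw G k v w : ℝ) / (r * (d * ((d : ℝ) - 1) ^ k)) :=
    fun w => xv_sq G hd hr v w
  rw [Finset.sum_congr rfl fun w _ => h1 w, Finset.sum_comm]
  have h2 : ∀ k ∈ range r, ∑ w, (nw G k v w : ℝ) / (r * (d * ((d : ℝ) - 1) ^ k)) = 1 / r := by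
    intro k _
    rw [← Finset.sum_div]
    have h3 : (∑ w, (nw G k v w : ℝ)) = d * ((d : ℝ) - 1) ^ k := by
      have h4 := nw_sum G hreg v k
      have h5 : ((∑ w, nw G k v w : ℕ) : ℝ) = ((d * (d - 1) ^ k : ℕ) : ℝ) := by rw [h4]
      push_cast at h5
      rw [Nat.cast_sub (by omega : 1 ≤ d)] at h5
      simpa using h5
    rw [h3]
    have h6 : (d : ℝ) * ((d : ℝ) - 1) ^ k ≠ 0 := by positivity
    field_simp
  rw [Finset.sum_congr rfl h2]
  simp
  field_simp

theorem xv_ball {d r : ℕ} {v w : V} (h : xv G d r v w ≠ 0) : w ∈ ball G v r := by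
  have h1 : (∑ k ∈ range r, (nw G k v w : ℝ) / (r * (d * ((d : ℝ) - 1) ^ k))) ≠ 0 := by
    intro h0
    apply h
    unfold xv
    rw [h0, Real.sqrt_zero]
  obtain ⟨k, hk, hne⟩ := Finset.exists_ne_zero_of_sum_ne_zero h1
  have h2 : nw G k v w ≠ 0 := by
    intro h0
    apply hne
    rw [h0]
    simp
  have h3 := nw_ball G h2
  exact ball_mono G v (by have := Finset.mem_range.1 hk; omega) h3

theorem xv_adj {d r : ℕ} (hd : 2 ≤ d) (hr : 1 ≤ r) (hreg : G.IsRegularOfDegree d) {u v : V}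
    (h : G.Adj u v) :
    (1 - 1 / (r : ℝ)) * (2 * Real.sqrt ((d : ℝ) - 1) / d) ≤ ∑ w, xv G d r u w * xv G d r v w := by
  have hr' : (0 : ℝ) < r := by exact_mod_cast hr
  have hd' : (2 : ℝ) ≤ d := by exact_mod_cast hd
  have hd1 : (0 : ℝ) < (d : ℝ) - 1 := by linarith
  set c : ℕ → ℝ := fun k => 1 / (r * (d * ((d : ℝ) - 1) ^ k)) with hc
  have hc0 : ∀ k, 0 ≤ c k := fun k => by
    have := wt_pos hd hr k
    simp only [hc]
    positivity
  set s : ℝ := Real.sqrt ((d : ℝ) - 1) with hs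
  have hs0 : 0 < s := Real.sqrt_pos.2 hd1
  have hs2 : s ^ 2 = (d : ℝ) - 1 := Real.sq_sqrt hd1.le
  have hv : ∀ w, xv G d r v w = Real.sqrt (∑ k ∈ range r, c k *
      ((nb G (k + 1) u v w : ℝ) + (nb G k v u w : ℝ))) := by
    intro w
    unfold xv
    congr 1
    refine Finset.sum_congr rfl fun k _ => ?_
    rw [nw_split G h k w]
    simp only [hc]
    push_cast
    ring
  have hu : ∀ w, xv G d r u w = Real.sqrt (∑ k ∈ range r, c k *
      ((nb G (k + 1) v u w : ℝ) + (nb G k u v w : ℝ))) := by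
    intro w
    unfold xv
    congr 1
    refine Finset.sum_congr rfl fun k _ => ?_
    rw [nw_split G h.symm k w]
    simp only [hc]
    push_cast
    ring
  have hw : ∀ w, ∑ k ∈ range (r - 1), Real.sqrt (c k * c (k + 1)) *
      ((nb G (k + 1) u v w : ℝ) + (nb G (k + 1) v u w : ℝ)) ≤ xv G d r u w * xv G d r v w := by
    intro w
    have := csch r c (fun k => (nb G k u v w : ℝ)) (fun k => (nb G k v u w : ℝ)) hc0
      (fun k => Nat.cast_nonneg _) (fun k => Nat.cast_nonneg _)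
    rw [hu, hv, mul_comm (Real.sqrt _) (Real.sqrt _)]
    exact this
  refine le_trans ?_ (Finset.sum_le_sum fun w _ => hw w)
  rw [Finset.sum_comm]
  have hsum : ∀ k ∈ range (r - 1), ∑ w, Real.sqrt (c k * c (k + 1)) *
      ((nb G (k + 1) u v w : ℝ) + (nb G (k + 1) v u w : ℝ)) = 2 * s / (r * d) := by
    intro k _
    rw [← Finset.mul_sum, Finset.sum_add_distrib]
    have e1 : ∑ w, (nb G (k + 1) u v w : ℝ) = ((d : ℝ) - 1) ^ (k + 1) := by
      have h4 := nb_sum G hreg h.symm (k + 1)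
      have h5 : ((∑ w, nb G (k + 1) u v w : ℕ) : ℝ) = (((d - 1) ^ (k + 1) : ℕ) : ℝ) := by rw [h4]
      push_cast at h5
      rw [Nat.cast_sub (by omega : 1 ≤ d)] at h5
      simpa using h5
    have e2 : ∑ w, (nb G (k + 1) v u w : ℝ) = ((d : ℝ) - 1) ^ (k + 1) := by
      have h4 := nb_sum G hreg h (k + 1)
      have h5 : ((∑ w, nb G (k + 1) v u w : ℕ) : ℝ) = (((d - 1) ^ (k + 1) : ℕ) : ℝ) := by rw [h4]
      push_cast at h5
      rw [Nat.cast_sub (by omega : 1 ≤ d)] at h5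
      simpa using h5
    rw [e1, e2]
    have e3 : Real.sqrt (c k * c (k + 1)) = 1 / (r * (d * s ^ (2 * k + 1))) := by
      have : c k * c (k + 1) = (1 / (r * (d * s ^ (2 * k + 1)))) ^ 2 := by
        simp only [hc]
        rw [← hs2]
        field_simp
        ring
      rw [this, Real.sqrt_sq (by positivity)]
    rw [e3, ← hs2]
    have hd0 : (d : ℝ) ≠ 0 := by linarith
    field_simp
    ring
  rw [Finset.sum_congr rfl hsum, Finset.sum_const, Finset.card_range, nsmul_eq_mul,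
    Nat.cast_sub hr]
  have hd0 : (d : ℝ) ≠ 0 := by linarith
  apply le_of_eq
  push_cast
  field_simp

theorem exists_cov {d : ℕ} (hd : 2 ≤ d) {ρ : ℝ} (hρ : ρ < 2 * Real.sqrt ((d : ℝ) - 1) / d) :
    ∃ r : ℕ, ∀ (V : Type) [Fintype V] [DecidableEq V] (G : SimpleGraph V) [DecidableRel G.Adj],
      G.IsRegularOfDegree d → ∃ S : Matrix V V ℝ, Cv G ρ r S := by
  have hd' : (2 : ℝ) ≤ d := by exact_mod_cast hd
  have hd1 : (0 : ℝ) < (d : ℝ) - 1 := by linarith
  set M : ℝ := 2 * Real.sqrt ((d : ℝ) - 1) / d with hM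
  have hM0 : 0 < M := by
    have : 0 < Real.sqrt ((d : ℝ) - 1) := Real.sqrt_pos.2 hd1
    positivity
  obtain ⟨κ, hκ0, hκ1, hκ2⟩ : ∃ κ : ℝ, 0 < κ ∧ κ < 1 ∧ ρ ≤ (1 - κ) * ((1 - κ) * M) := by
    refine ⟨min (1 / 2) ((1 - ρ / M) / 2), ?_, ?_, ?_⟩
    · have : ρ / M < 1 := (div_lt_one hM0).2 hρ
      exact lt_min (by norm_num) (by linarith)
    · exact lt_of_le_of_lt (min_le_left _ _) (by norm_num)
    · set κ := min (1 / 2 : ℝ) ((1 - ρ / M) / 2) with hκ
      have h1 : κ ≤ (1 - ρ / M) / 2 := min_le_right _ _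
      have h2 : ρ / M ≤ 1 - 2 * κ := by linarith
      have h3 : ρ ≤ (1 - 2 * κ) * M := (div_le_iff₀ hM0).1 h2
      nlinarith [mul_nonneg (sq_nonneg κ) hM0.le]
  obtain ⟨n, hn⟩ := exists_nat_gt (1 / κ)
  have hn0 : (0 : ℝ) < n := lt_trans (by positivity) hn
  have hn1 : 1 ≤ n := by
    have : 0 < n := by exact_mod_cast hn0
    omega
  refine ⟨n, fun V _ _ G _ hreg => ?_⟩
  have hnκ : 1 - κ ≤ 1 - 1 / (n : ℝ) := by
    have : 1 / (n : ℝ) ≤ κ := by
      rw [div_le_iff₀ hn0]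
      have := (div_lt_iff₀ hκ0).1 hn
      linarith
    linarith
  set X : Matrix V V ℝ := fun v w => xv G d n v w with hX
  have hXX : ∀ u v, (X * X.conjTranspose) u v = ∑ w, xv G d n u w * xv G d n v w := by
    intro u v
    rw [Matrix.mul_apply]
    refine Finset.sum_congr rfl fun w _ => ?_
    rw [Matrix.conjTranspose_apply, star_trivial]
  have hdiag : ∀ v, ∑ w, xv G d n v w * xv G d n v w = 1 := by
    intro v
    have := xv_norm G hd hn1 hreg v
    simpa [pow_two] using this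
  set S : Matrix V V ℝ := (1 - κ) • (X * X.conjTranspose) + κ • (1 : Matrix V V ℝ) with hS
  have hSuv : ∀ u v, S u v = (1 - κ) * (∑ w, xv G d n u w * xv G d n v w) +
      κ * (1 : Matrix V V ℝ) u v := by
    intro u v
    rw [hS, Matrix.add_apply, Matrix.smul_apply, Matrix.smul_apply, hXX]
    simp
  have hne : ∀ u v, u ≠ v → S u v = (1 - κ) * (∑ w, xv G d n u w * xv G d n v w) := by
    intro u v huv
    rw [hSuv, Matrix.one_apply_ne huv]
    ring
  refine ⟨S, ?_, ?_, ?_, ?_, ?_⟩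
  · apply Matrix.PosSemidef.add
    · exact (Matrix.posSemidef_self_mul_conjTranspose X).smul (by linarith)
    · exact Matrix.PosSemidef.one.smul hκ0.le
  · intro v
    rw [hSuv, hdiag, Matrix.one_apply_eq]
    ring
  · intro u v huv
    rw [hne u v huv, abs_mul, abs_of_pos (by linarith : 0 < 1 - κ)]
    have h1 : |∑ w, xv G d n u w * xv G d n v w| ≤ 1 := by
      rw [← sq_le_one_iff_abs_le_one]
      have h2 := Finset.sum_mul_sq_le_sq_mul_sq Finset.univ (fun w => xv G d n u w)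
        (fun w => xv G d n v w)
      rw [xv_norm G hd hn1 hreg u, xv_norm G hd hn1 hreg v] at h2
      linarith
    nlinarith [abs_nonneg (∑ w, xv G d n u w * xv G d n v w)]
  · intro u v huv
    by_cases h : u = v
    · subst h
      exact ⟨u, self_mem_ball G u n, self_mem_ball G u n⟩
    · rw [hne u v h] at huv
      have h1 : (∑ w, xv G d n u w * xv G d n v w) ≠ 0 := right_ne_zero_of_mul huv
      obtain ⟨w, _, hw⟩ := Finset.exists_ne_zero_of_sum_ne_zero h1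
      exact ⟨w, xv_ball G (left_ne_zero_of_mul hw), xv_ball G (right_ne_zero_of_mul hw)⟩
  · intro u v huv
    rw [hne u v huv.ne]
    have h1 := xv_adj G hd hn1 hreg huv
    have h2 : (1 - κ) * M ≤ ∑ w, xv G d n u w * xv G d n v w :=
      le_trans (mul_le_mul_of_nonneg_right hnκ hM0.le) h1
    exact hκ2.trans (mul_le_mul_of_nonneg_left h2 (by linarith))

end Pool.Agent.H49.FR
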