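import Pool.Agent.H49.FR.Defs

/-!
# Module CutU: removing the bad vertices

`cut (A \ U) = cut A - e(U, Aᶜ) + e(U, A \ U)` with `e(X, Y) = ∑_{u ∈ X} nin u Y`, for `U ⊆ A`, and for `v ∈ U`:
`nin v (A \ U) ≤ nin v A ≤ 2 ≤ nin v Aᶜ - 1`. So `cut (A \ U) + |U| ≤ cut A`.
(Split `∑_{v ∈ A} nin v Aᶜ = ∑_{v ∈ A \ U} + ∑_{v ∈ U}`; `(A \ U)ᶜ = Aᶜ ∪ U` disjoint; `∑_{v ∈ A \ U} nin v U = ∑_{v ∈ U} nin v (A \ U)`.)
`cut_fix`: `A = Sd t ω`, `U = Us G t ω`; `nin v (Sd)ᶜ = card of the filter of the neighbours with ω u ≤ -t`, degree 5.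
-/

set_option autoImplicit false

open Finset

namespace Pool.Agent.H49.FR

variable {V : Type} [Fintype V] [DecidableEq V] (G : SimpleGraph V) [DecidableRel G.Adj]

private lemma nin_sum (v : V) (Y : Finset V) :
    nin G v Y = ∑ u ∈ Y, if G.Adj v u then 1 else 0 := by
  unfold nin
  rw [← Finset.card_filter]
  congr 1
  ext u
  simp only [mem_inter, SimpleGraph.mem_neighborFinset, mem_filter]
  exact and_comm

private lemma sum_nin_comm (X Y : Finset V) :
    ∑ v ∈ X, nin G v Y = ∑ u ∈ Y, nin G u X := by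
  simp_rw [nin_sum]
  rw [Finset.sum_comm]
  refine Finset.sum_congr rfl fun u _ => Finset.sum_congr rfl fun v _ => ?_
  simp only [G.adj_comm u v]

private lemma nin_union (v : V) {Y Z : Finset V} (h : Disjoint Y Z) :
    nin G v (Y ∪ Z) = nin G v Y + nin G v Z := by
  simp_rw [nin_sum]
  exact Finset.sum_union h

private lemma nin_mono (v : V) {Y Z : Finset V} (h : Y ⊆ Z) : nin G v Y ≤ nin G v Z :=
  Finset.card_le_card (Finset.inter_subset_inter_left h)

theorem cut_sdiff (A U : Finset V) (hU : U ⊆ A) (h : ∀ v ∈ U, nin G v A + 1 ≤ nin G v Aᶜ) :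
    cut G (A \ U) + U.card ≤ cut G A := by
  have hd : Disjoint Aᶜ U := by
    rw [Finset.disjoint_left]
    intro x hx hxU
    exact (Finset.mem_compl.1 hx) (hU hxU)
  have hc : (A \ U)ᶜ = Aᶜ ∪ U := by
    ext x
    simp only [mem_compl, mem_sdiff, mem_union]
    tauto
  have e1 : cut G (A \ U) = ∑ v ∈ A \ U, nin G v Aᶜ + ∑ v ∈ A \ U, nin G v U := by
    unfold cut
    rw [hc, ← Finset.sum_add_distrib]
    exact Finset.sum_congr rfl fun v _ => nin_union G v hd
  have e2 : ∑ v ∈ A \ U, nin G v U = ∑ v ∈ U, nin G v (A \ U) := sum_nin_comm G _ _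
  have e3 : cut G A = ∑ v ∈ A \ U, nin G v Aᶜ + ∑ v ∈ U, nin G v Aᶜ := by
    unfold cut
    exact (Finset.sum_sdiff hU).symm
  have e4 : ∑ v ∈ U, nin G v (A \ U) + U.card ≤ ∑ v ∈ U, nin G v Aᶜ := by
    have e5 : ∑ v ∈ U, (nin G v (A \ U) + 1) = ∑ v ∈ U, nin G v (A \ U) + U.card := by
      rw [Finset.sum_add_distrib]
      simp
    rw [← e5]
    exact Finset.sum_le_sum fun v hv =>
      (Nat.add_le_add_right (nin_mono G v Finset.sdiff_subset) 1).trans (h v hv)
  rw [e1, e2, e3]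
  omega

lemma Us_subset (t : ℝ) (ω : EuclideanSpace ℝ V) : Us G t ω ⊆ Sd t ω := by
  intro v hv
  unfold Us at hv
  unfold Sd
  simp only [mem_filter, mem_univ, true_and] at hv ⊢
  exact hv.1

lemma card_Fx (t : ℝ) (ω : EuclideanSpace ℝ V) :
    (Fx G t ω).card + (Us G t ω).card = (Sd t ω).card := by
  unfold Fx
  exact Finset.card_sdiff_add_card_eq_card (Us_subset G t ω)

private lemma nin_Sdc (t : ℝ) (ω : EuclideanSpace ℝ V) (v : V) :
    nin G v (Sd t ω)ᶜ = ((G.neighborFinset v).filter fun u => ω u ≤ -t).card := by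
  unfold nin
  congr 1
  ext u
  unfold Sd
  simp only [mem_inter, mem_compl, mem_filter, mem_univ, true_and, not_lt]

theorem cut_fix (hreg : G.IsRegularOfDegree 5) (t : ℝ) (ω : EuclideanSpace ℝ V) :
    cut G (Fx G t ω) + (Us G t ω).card ≤ cut G (Sd t ω) := by
  unfold Fx
  refine cut_sdiff G _ _ (Us_subset G t ω) fun v hv => ?_
  have h3 : 3 ≤ nin G v (Sd t ω)ᶜ := by
    rw [nin_Sdc]
    unfold Us at hv
    simp only [mem_filter, mem_univ, true_and] at hv
    exact hv.2
  have h5 : nin G v (Sd t ω) + nin G v (Sd t ω)ᶜ = 5 := by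
    have hd : Disjoint (Sd t ω) (Sd t ω)ᶜ := disjoint_compl_right
    rw [← nin_union G v hd, Finset.union_compl]
    unfold nin
    rw [Finset.inter_univ, SimpleGraph.card_neighborFinset_eq_degree]
    exact hreg v
  omega

/-- the cut of the side as a double sum -/
theorem cut_Sd (t : ℝ) (ω : EuclideanSpace ℝ V) :
    (cut G (Sd t ω) : ℝ) =
      ∑ u, ∑ v ∈ G.neighborFinset u, if -t < ω u ∧ ω v ≤ -t then (1 : ℝ) else 0 := by
  unfold cut
  push_cast
  have e : ∀ u : V, (∑ v ∈ G.neighborFinset u, if -t < ω u ∧ ω v ≤ -t then (1 : ℝ) else 0) =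
      if u ∈ Sd t ω then (nin G u (Sd t ω)ᶜ : ℝ) else 0 := by
    intro u
    by_cases hu : -t < ω u
    · have hm : u ∈ Sd t ω := by
        unfold Sd
        simp only [mem_filter, mem_univ, true_and]
        exact hu
      rw [if_pos hm, nin_Sdc, Finset.card_filter]
      push_cast
      refine Finset.sum_congr rfl fun v _ => ?_
      simp only [hu, true_and]
    · have hm : u ∉ Sd t ω := by
        unfold Sd
        simp only [mem_filter, mem_univ, true_and]
        exact hu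
      rw [if_neg hm]
      refine Finset.sum_eq_zero fun v _ => ?_
      rw [if_neg]
      exact fun h => hu h.1
  simp_rw [e]
  rw [← Finset.sum_filter]
  congr 1
  ext u
  simp

end Pool.Agent.H49.FR
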