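import Mathlib

/-!
# Internal partitions of regular graphs of degree 5, 6, 7 (MP_363a78_co): definitions

THEOREM: for `(d, a, b) = (5, 3, 3), (6, 3, 3), (7, 3, 4)` every `d`-regular graph on `n > n₀` vertices has an `(a, b)`-internal partition with both
parts of size at least `c n`. (Authors of the proof: helper49, helper41, helper45.)

PLAN. (1) `Pot`: if `cut A < λ min(p |A|, q (n-|A|)) - γ n`, `λ < 1`, `p = d+2-2a`, `q = d+2-2b`, then a minimiser of
`cut - λ min(p |A|, q (n-|A|))` is `(a, b)`-internal.
(2) `Ball`, `NW`, `CSch`, `Cov` (idea of helper41): there is a positive semidefinite matrix `S` with diagonal one, `S u v = 0` at distance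
`> 2 r`, and `S u v ≥ ρ` for EVERY edge, for any `ρ < 2 √(d-1) / d`.
(3) `Pair`, `Polar`, `Edge`, `GInt`, `Blocks`, `SymHalf`, `Star`, `Conc`, `ConcF`: the Gaussian vector `X` with covariance `S`; the side
`A = {X > -t}`; for `d = 5` also `U = {v ∈ A with at least three neighbours outside A}`, `A' = A \ U`.
(4) `Trig`, `NumG`, `NumC`, `NumV`, `NumW`: numerical inequalities (`d = 5`: `t = 0.039`, `δ = 0.15`).
(5) `ExpA`, `ExpB`, `Main5` (`d = 5`), `Wave` (`d = 6, 7`), `Fin`.
-/

set_option autoImplicit false

open Finset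

namespace Pool.Agent.H49.FR

variable {V : Type} [Fintype V] [DecidableEq V]

/-- number of neighbours of `v` in `A` -/
def nin (G : SimpleGraph V) [DecidableRel G.Adj] (v : V) (A : Finset V) : ℕ :=
  (G.neighborFinset v ∩ A).card

/-- number of edges between `A` and its complement -/
def cut (G : SimpleGraph V) [DecidableRel G.Adj] (A : Finset V) : ℕ := ∑ v ∈ A, nin G v Aᶜ

/-- `(a, b)`-internal: every vertex of `A` has at least `a` neighbours in `A`, every other vertex has at least `b` outside -/
def Part (G : SimpleGraph V) [DecidableRel G.Adj] (a b : ℕ) (A : Finset V) : Prop :=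
  ∀ v, (v ∈ A → a ≤ nin G v A) ∧ (v ∉ A → b ≤ nin G v Aᶜ)

/-- the ball of radius `r` around `o` -/
def ball (G : SimpleGraph V) [DecidableRel G.Adj] (o : V) : ℕ → Finset V
  | 0 => {o}
  | r + 1 => ball G o r ∪ (ball G o r).biUnion fun v => G.neighborFinset v

/-- `nb k v u w`: number of non-backtracking walks of length `k` from `u` to `w` whose first step does not go to `v` -/
def nb (G : SimpleGraph V) [DecidableRel G.Adj] : ℕ → V → V → V → ℕ
  | 0 => fun _ u w => if w = u then 1 else 0
  | k + 1 => fun v u w => ∑ x ∈ (G.neighborFinset u).erase v, nb G k u x w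

/-- `nw k v w`: number of non-backtracking walks of length `k + 1` from `v` to `w` -/
def nw (G : SimpleGraph V) [DecidableRel G.Adj] (k : ℕ) (v w : V) : ℕ :=
  ∑ u ∈ G.neighborFinset v, nb G k v u w

/-- the vector attached to the vertex `v` -/
noncomputable def xv (G : SimpleGraph V) [DecidableRel G.Adj] (d r : ℕ) (v w : V) : ℝ :=
  Real.sqrt (∑ k ∈ range r, (nw G k v w : ℝ) / (r * (d * ((d : ℝ) - 1) ^ k)))

/-- the covariance matrices used in the proof -/
structure Cv (G : SimpleGraph V) [DecidableRel G.Adj] (ρ : ℝ) (r : ℕ) (S : Matrix V V ℝ) : Prop where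
  psd : S.PosSemidef
  diag : ∀ v, S v v = 1
  lt : ∀ u v, u ≠ v → |S u v| < 1
  loc : ∀ u v, S u v ≠ 0 → ∃ w, w ∈ ball G u r ∧ w ∈ ball G v r
  adj : ∀ u v, G.Adj u v → ρ ≤ S u v

/-- the side `{v : ω v > -t}` -/
noncomputable def Sd (t : ℝ) (ω : EuclideanSpace ℝ V) : Finset V := univ.filter fun v => -t < ω v

/-- the vertices of the side with at least three neighbours outside -/
noncomputable def Us (G : SimpleGraph V) [DecidableRel G.Adj] (t : ℝ) (ω : EuclideanSpace ℝ V) :
    Finset V :=
  univ.filter fun v => -t < ω v ∧ 3 ≤ ((G.neighborFinset v).filter fun u => ω u ≤ -t).card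

/-- the corrected side -/
noncomputable def Fx (G : SimpleGraph V) [DecidableRel G.Adj] (t : ℝ) (ω : EuclideanSpace ℝ V) :
    Finset V := Sd t ω \ Us G t ω

end Pool.Agent.H49.FR
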