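import Pool.Agent.H49.FR.Defs

/-!
# Module Polar: the probability that a level separates two coordinates

The measure `γ × γ` has the density `(1/(2π)) exp(-(x²+y²)/2)`; in polar coordinates (`integral_comp_polarCoord_symm` or
`lintegral_comp_polarCoord_symm`, `x = r cos φ`, `y = r sin φ`, `r > 0`, `φ ∈ (-π, π)`) the measure of the set is
`∫_{r>0} (1/(2π)) r exp(-r²/2) |M_r| dr`, `M_r = {φ ∈ (-π, π) : -t < r cos φ, r cos (φ - θ) ≤ -t}`
(`cos θ cos φ + sin θ sin φ = cos (φ - θ)`).
* `r ≤ |t|`: `|M_r| = 0` (if `t < 0` the first condition fails; if `t ≥ 0` the second one forces `cos (φ-θ) = -1` or `r = ..`, at most one or two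
  points).
* `r > |t|`: `c = -t/r ∈ (-1, 1)`, `β = arccos c ∈ (0, π)`: `cos φ > c ⟺ |φ| < β`. If `φ ∈ M_r` and `φ > θ - β` then `φ - θ ∈ (-β, β)` (as
  `φ < β`, `θ ≥ 0`), so `cos (φ - θ) > c`, contradiction. So `M_r ⊆ (-β, θ - β]`, `|M_r| ≤ θ`.
So the measure is at most `(θ/(2π)) ∫_{r > |t|} r exp(-r²/2) dr = (θ/(2π)) exp(-t²/2)`.
-/

set_option autoImplicit false

open Finset MeasureTheory ProbabilityTheory

namespace Pool.Agent.H49.FR

private lemma ang_vol {θ t r : ℝ} (h0 : 0 ≤ θ) (h1 : θ ≤ Real.pi) (hr : 0 < r) :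
    volume {φ : ℝ | φ ∈ Set.Ioo (-Real.pi) Real.pi ∧ -t < r * Real.cos φ ∧
      r * Real.cos (φ - θ) ≤ -t} ≤ if |t| < r then ENNReal.ofReal θ else 0 := by
  split_ifs with h
  · obtain ⟨ha, hb⟩ := abs_lt.1 h
    set c : ℝ := -t / r with hc
    have hc1 : -1 ≤ c := by rw [hc, le_div_iff₀ hr]; linarith
    have hc2 : c ≤ 1 := by rw [hc, div_le_iff₀ hr]; linarith
    have hcr : r * c = -t := by rw [hc]; field_simp
    set β := Real.arccos c with hβ
    have hcos : Real.cos β = c := Real.cos_arccos hc1 hc2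
    have hβ0 : 0 ≤ β := Real.arccos_nonneg c
    have hβ1 : β ≤ Real.pi := Real.arccos_le_pi c
    have hsub : {φ : ℝ | φ ∈ Set.Ioo (-Real.pi) Real.pi ∧ -t < r * Real.cos φ ∧
        r * Real.cos (φ - θ) ≤ -t} ⊆ Set.Icc (-β) (θ - β) := by
      rintro φ ⟨⟨hp1, hp2⟩, h3, h4⟩
      have h5 : c < Real.cos φ := by
        rw [← hcr] at h3
        exact lt_of_mul_lt_mul_left h3 hr.le
      have h6 : Real.cos (φ - θ) ≤ c := by
        rw [← hcr] at h4
        exact le_of_mul_le_mul_left h4 hr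
      have h7 : |φ| < β := by
        by_contra hcon
        push Not at hcon
        have h8 : |φ| ≤ Real.pi := abs_le.2 ⟨hp1.le, hp2.le⟩
        have h9 := Real.cos_le_cos_of_nonneg_of_le_pi hβ0 h8 hcon
        rw [Real.cos_abs, hcos] at h9
        linarith
      obtain ⟨h8, h9⟩ := abs_lt.1 h7
      refine ⟨h8.le, ?_⟩
      by_contra hcon
      push Not at hcon
      have h10 : |φ - θ| < β := abs_lt.2 ⟨by linarith, by linarith⟩
      have h11 := Real.cos_lt_cos_of_nonneg_of_le_pi (abs_nonneg (φ - θ)) hβ1 h10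
      rw [Real.cos_abs, hcos] at h11
      linarith
    refine (measure_mono hsub).trans ?_
    rw [Real.volume_Icc]
    refine le_of_eq ?_
    congr 1
    ring
  · push Not at h
    have hsub : {φ : ℝ | φ ∈ Set.Ioo (-Real.pi) Real.pi ∧ -t < r * Real.cos φ ∧
        r * Real.cos (φ - θ) ≤ -t} ⊆ {θ - Real.pi} := by
      rintro φ ⟨⟨hp1, hp2⟩, h3, h4⟩
      rcases le_or_gt 0 t with ht | ht
      · rw [abs_of_nonneg ht] at h
        have h5 : r * Real.cos (φ - θ) ≤ r * (-1) := by linarith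
        have h6 : Real.cos (φ - θ) ≤ -1 := le_of_mul_le_mul_left h5 hr
        have h7 : Real.cos (φ - θ + Real.pi) = 1 := by
          rw [Real.cos_add_pi]
          have := Real.neg_one_le_cos (φ - θ)
          linarith
        have h8 : φ - θ + Real.pi = 0 := by
          refine (Real.cos_eq_one_iff_of_lt_of_lt ?_ ?_).1 h7
          · linarith
          · linarith
        rw [Set.mem_singleton_iff]
        linarith
      · rw [abs_of_neg ht] at h
        have h5 : r * Real.cos φ ≤ r * 1 := mul_le_mul_of_nonneg_left (Real.cos_le_one φ) hr.le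
        linarith
    refine (measure_mono hsub).trans ?_
    rw [Real.volume_singleton]

private lemma rad_int (a : ℝ) (ha : 0 ≤ a) :
    ∫⁻ r in Set.Ioi a, ENNReal.ofReal (r * Real.exp (-r ^ 2 / 2)) =
      ENNReal.ofReal (Real.exp (-a ^ 2 / 2)) := by
  have hd : ∀ x ∈ Set.Ici a, HasDerivAt (fun r : ℝ => -Real.exp (-r ^ 2 / 2))
      (x * Real.exp (-x ^ 2 / 2)) x := by
    intro x _
    have h1 : HasDerivAt (fun r : ℝ => -r ^ 2 / 2) (-(2 * x) / 2) x := by
      have h2 := ((hasDerivAt_pow 2 x).neg.div_const 2)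
      refine h2.congr_deriv ?_
      norm_num
    refine h1.exp.neg.congr_deriv ?_
    ring
  have hlim : Filter.Tendsto (fun r : ℝ => -Real.exp (-r ^ 2 / 2)) Filter.atTop (nhds 0) := by
    have h1 : Filter.Tendsto (fun r : ℝ => r ^ 2 / 2) Filter.atTop Filter.atTop :=
      (Filter.tendsto_pow_atTop (by norm_num)).atTop_div_const (by norm_num)
    have h2 := Real.tendsto_exp_neg_atTop_nhds_zero.comp h1
    have h3 := h2.neg
    rw [neg_zero] at h3
    refine h3.congr fun r => ?_
    simp only [Function.comp]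
    congr 2
    ring
  have hpos : ∀ x ∈ Set.Ioi a, 0 ≤ x * Real.exp (-x ^ 2 / 2) := by
    intro x hx
    have hx' : a < x := hx
    exact mul_nonneg (by linarith) (Real.exp_pos _).le
  have hint : IntegrableOn (fun x : ℝ => x * Real.exp (-x ^ 2 / 2)) (Set.Ioi a) :=
    integrableOn_Ioi_deriv_of_nonneg' hd hpos hlim
  have hval : ∫ x in Set.Ioi a, x * Real.exp (-x ^ 2 / 2) = Real.exp (-a ^ 2 / 2) := by
    rw [integral_Ioi_of_hasDerivAt_of_tendsto' hd hint hlim]
    ring
  rw [← ofReal_integral_eq_lintegral_ofReal hint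
    ((ae_restrict_iff' measurableSet_Ioi).2 (Filter.Eventually.of_forall hpos)), hval]

theorem polar_bound {θ : ℝ} (h0 : 0 ≤ θ) (h1 : θ ≤ Real.pi) (t : ℝ) :
    ((gaussianReal 0 1).prod (gaussianReal 0 1)).real
        {p : ℝ × ℝ | -t < p.1 ∧ Real.cos θ * p.1 + Real.sin θ * p.2 ≤ -t} ≤
      θ / (2 * Real.pi) * Real.exp (-t ^ 2 / 2) := by
  have hπ := Real.pi_pos
  set S : Set (ℝ × ℝ) := {p : ℝ × ℝ | -t < p.1 ∧ Real.cos θ * p.1 + Real.sin θ * p.2 ≤ -t} with hS
  have hSm : MeasurableSet S := by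
    refine MeasurableSet.inter ?_ ?_
    · exact measurableSet_lt measurable_const measurable_fst
    · exact measurableSet_le ((measurable_const.mul measurable_fst).add
        (measurable_const.mul measurable_snd)) measurable_const
  have hd : ∀ x y : ℝ, gaussianPDF 0 1 x * gaussianPDF 0 1 y =
      ENNReal.ofReal ((2 * Real.pi)⁻¹ * Real.exp (-(x ^ 2 + y ^ 2) / 2)) := by
    intro x y
    unfold gaussianPDF
    rw [← ENNReal.ofReal_mul (gaussianPDFReal_nonneg _ _ _), gaussianPDFReal_def]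
    congr 1
    have e1 : (√(2 * Real.pi * ((1 : NNReal) : ℝ)))⁻¹ * (√(2 * Real.pi * ((1 : NNReal) : ℝ)))⁻¹ =
        (2 * Real.pi)⁻¹ := by
      rw [← mul_inv, Real.mul_self_sqrt (by positivity)]
      simp
    calc (√(2 * Real.pi * ((1 : NNReal) : ℝ)))⁻¹ * Real.exp (-(x - 0) ^ 2 / (2 * ((1 : NNReal) : ℝ))) *
          ((√(2 * Real.pi * ((1 : NNReal) : ℝ)))⁻¹ *
            Real.exp (-(y - 0) ^ 2 / (2 * ((1 : NNReal) : ℝ))))
        = ((√(2 * Real.pi * ((1 : NNReal) : ℝ)))⁻¹ * (√(2 * Real.pi * ((1 : NNReal) : ℝ)))⁻¹) *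
          (Real.exp (-(x - 0) ^ 2 / (2 * ((1 : NNReal) : ℝ))) *
            Real.exp (-(y - 0) ^ 2 / (2 * ((1 : NNReal) : ℝ)))) := by ring
      _ = _ := by
          rw [e1, ← Real.exp_add]
          congr 2
          push_cast
          ring
  set g : ℝ × ℝ → ENNReal := fun p => ENNReal.ofReal
    ((2 * Real.pi)⁻¹ * Real.exp (-(p.1 ^ 2 + p.2 ^ 2) / 2)) with hg
  have hgm : Measurable g := by
    rw [hg]
    fun_prop
  have hmeas : ((gaussianReal 0 1).prod (gaussianReal 0 1)) S = ∫⁻ p, S.indicator g p := by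
    rw [gaussianReal_of_var_ne_zero 0 one_ne_zero,
      prod_withDensity (measurable_gaussianPDF _ _) (measurable_gaussianPDF _ _),
      withDensity_apply _ hSm, lintegral_indicator hSm, ← Measure.volume_eq_prod]
    refine lintegral_congr fun p => ?_
    exact hd p.1 p.2
  have hpol : ∫⁻ p, S.indicator g p = ∫⁻ q : ℝ × ℝ in polarCoord.target,
      ENNReal.ofReal q.1 • S.indicator g (polarCoord.symm q) :=
    (lintegral_comp_polarCoord_symm _).symm
  have htar : (volume : Measure (ℝ × ℝ)).restrict polarCoord.target =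
      (volume.restrict (Set.Ioi (0 : ℝ))).prod (volume.restrict (Set.Ioo (-Real.pi) Real.pi)) := by
    rw [Measure.prod_restrict, ← Measure.volume_eq_prod]
    rfl
  have hsymm : Measurable fun q : ℝ × ℝ => (q.1 * Real.cos q.2, q.1 * Real.sin q.2) := by fun_prop
  have hFm : Measurable fun q : ℝ × ℝ => ENNReal.ofReal q.1 •
      S.indicator g (polarCoord.symm q) := by
    have h2 : Measurable fun q : ℝ × ℝ => S.indicator g (q.1 * Real.cos q.2, q.1 * Real.sin q.2) :=
      (hgm.indicator hSm).comp hsymm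
    exact (measurable_fst.ennreal_ofReal).smul h2
  have hin : ∀ r ∈ Set.Ioi (0 : ℝ), ∫⁻ φ in Set.Ioo (-Real.pi) Real.pi, ENNReal.ofReal (r, φ).1 •
      S.indicator g (polarCoord.symm (r, φ)) ≤
      (Set.Ioi |t|).indicator (fun r => ENNReal.ofReal (θ / (2 * Real.pi)) *
        ENNReal.ofReal (r * Real.exp (-r ^ 2 / 2))) r := by
    intro r hr
    have hr0 : 0 < r := hr
    have hM : MeasurableSet {φ : ℝ | -t < r * Real.cos φ ∧ r * Real.cos (φ - θ) ≤ -t} := by
      refine MeasurableSet.inter ?_ ?_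
      · exact measurableSet_lt measurable_const
          (by fun_prop : Measurable fun φ : ℝ => r * Real.cos φ)
      · exact measurableSet_le (by fun_prop : Measurable fun φ : ℝ => r * Real.cos (φ - θ))
          measurable_const
    have e1 : ∀ φ : ℝ, ENNReal.ofReal (r, φ).1 • S.indicator g (polarCoord.symm (r, φ)) =
        {φ : ℝ | -t < r * Real.cos φ ∧ r * Real.cos (φ - θ) ≤ -t}.indicator
          (fun _ => ENNReal.ofReal r * ENNReal.ofReal
            ((2 * Real.pi)⁻¹ * Real.exp (-r ^ 2 / 2))) φ := by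
      intro φ
      have hps : polarCoord.symm (r, φ) = (r * Real.cos φ, r * Real.sin φ) := rfl
      have hiff : (r * Real.cos φ, r * Real.sin φ) ∈ S ↔
          φ ∈ {φ : ℝ | -t < r * Real.cos φ ∧ r * Real.cos (φ - θ) ≤ -t} := by
        rw [hS]
        show (-t < r * Real.cos φ ∧ Real.cos θ * (r * Real.cos φ) + Real.sin θ * (r * Real.sin φ) ≤ -t) ↔
          (-t < r * Real.cos φ ∧ r * Real.cos (φ - θ) ≤ -t)
        have : Real.cos θ * (r * Real.cos φ) + Real.sin θ * (r * Real.sin φ) =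
            r * Real.cos (φ - θ) := by
          rw [Real.cos_sub]
          ring
        rw [this]
      rw [hps]
      by_cases hφ : φ ∈ {φ : ℝ | -t < r * Real.cos φ ∧ r * Real.cos (φ - θ) ≤ -t}
      · rw [Set.indicator_of_mem hφ, Set.indicator_of_mem (hiff.2 hφ), smul_eq_mul, hg]
        have := Real.sin_sq_add_cos_sq φ
        have e2 : (r * Real.cos φ) ^ 2 + (r * Real.sin φ) ^ 2 = r ^ 2 := by
          calc _ = r ^ 2 * (Real.sin φ ^ 2 + Real.cos φ ^ 2) := by ring
            _ = r ^ 2 := by rw [this, mul_one]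
        show ENNReal.ofReal r * ENNReal.ofReal ((2 * Real.pi)⁻¹ *
          Real.exp (-((r * Real.cos φ) ^ 2 + (r * Real.sin φ) ^ 2) / 2)) = _
        rw [e2]
      · rw [Set.indicator_of_notMem hφ, Set.indicator_of_notMem (fun hc => hφ (hiff.1 hc)),
          smul_zero]
    simp_rw [e1]
    rw [lintegral_indicator_const hM, Measure.restrict_apply hM]
    have hset : {φ : ℝ | -t < r * Real.cos φ ∧ r * Real.cos (φ - θ) ≤ -t} ∩
        Set.Ioo (-Real.pi) Real.pi = {φ : ℝ | φ ∈ Set.Ioo (-Real.pi) Real.pi ∧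
          -t < r * Real.cos φ ∧ r * Real.cos (φ - θ) ≤ -t} := by
      ext φ
      exact ⟨fun hh => ⟨hh.2, hh.1⟩, fun hh => ⟨hh.2, hh.1⟩⟩
    rw [hset]
    refine (mul_le_mul_right (ang_vol (t := t) h0 h1 hr0) _).trans ?_
    by_cases h : |t| < r
    · rw [if_pos h, Set.indicator_of_mem (show r ∈ Set.Ioi |t| from h),
        ← ENNReal.ofReal_mul hr0.le, ← ENNReal.ofReal_mul (by positivity),
        ← ENNReal.ofReal_mul (by positivity)]
      refine ENNReal.ofReal_le_ofReal (le_of_eq ?_)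
      field_simp
    · rw [if_neg h, mul_zero]
      exact zero_le
  have hfin : ((gaussianReal 0 1).prod (gaussianReal 0 1)) S ≤
      ENNReal.ofReal (θ / (2 * Real.pi) * Real.exp (-t ^ 2 / 2)) := by
    rw [hmeas, hpol, htar, lintegral_prod _ hFm.aemeasurable]
    refine (setLIntegral_mono' measurableSet_Ioi hin).trans ?_
    refine (setLIntegral_le_lintegral _ _).trans ?_
    rw [lintegral_indicator measurableSet_Ioi,
      lintegral_const_mul _ (by fun_prop), rad_int _ (abs_nonneg t), sq_abs,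
      ← ENNReal.ofReal_mul (by positivity)]
  rw [Measure.real]
  exact ENNReal.toReal_le_of_le_ofReal (by positivity) hfin

end Pool.Agent.H49.FR
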