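import Pool.Agent.H49.FR.Pair
import Pool.Agent.H49.FR.Polar

/-!
# Module Edge: the probability that an edge is cut

`law_pair` for the pair with first coordinate `ω u`: `(ω u, (ω v - ρ ω u)/√(1-ρ²))` has law `γ × γ`, `ρ = S v u = S u v`. With `θ = arccos ρ`,
`cos θ = ρ`, `sin θ = √(1-ρ²)` (`Real.sin_arccos`): `ω v = cos θ a + sin θ b`. The event is the preimage of the set of `polar_bound`.
-/

set_option autoImplicit false

open Finset MeasureTheory ProbabilityTheory

namespace Pool.Agent.H49.FR

variable {V : Type} [Fintype V] [DecidableEq V]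

theorem edge_prob {S : Matrix V V ℝ} (hS : S.PosSemidef) {u v : V} (hu : S u u = 1) (hv : S v v = 1)
    (h : |S u v| < 1) (t : ℝ) :
    (multivariateGaussian 0 S).real {ω : EuclideanSpace ℝ V | -t < ω u ∧ ω v ≤ -t} ≤
      Real.arccos (S u v) / (2 * Real.pi) * Real.exp (-t ^ 2 / 2) := by
  have hsym : S v u = S u v := by
    have h1 := hS.1.apply u v
    simpa using h1
  obtain ⟨hl, hr⟩ := abs_lt.mp h
  have hlaw := law_pair hS hv hu (by rw [hsym]; exact h)
  rw [hsym] at hlaw
  set ρ := S u v with hρ
  have hcos : Real.cos (Real.arccos ρ) = ρ := Real.cos_arccos hl.le hr.le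
  have hsin : Real.sin (Real.arccos ρ) = Real.sqrt (1 - ρ ^ 2) := Real.sin_arccos ρ
  have hpos : 0 < Real.sqrt (1 - ρ ^ 2) := by
    apply Real.sqrt_pos.mpr
    nlinarith
  set T : EuclideanSpace ℝ V → ℝ × ℝ := fun ω => (ω u, (ω v - ρ * ω u) / Real.sqrt (1 - ρ ^ 2)) with hT
  have hTm : Measurable T := by
    have h1 : Continuous T := by
      rw [hT]
      fun_prop
    exact h1.measurable
  have hA : MeasurableSet {p : ℝ × ℝ | -t < p.1 ∧
      Real.cos (Real.arccos ρ) * p.1 + Real.sin (Real.arccos ρ) * p.2 ≤ -t} := by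
    refine MeasurableSet.inter ?_ ?_
    · exact measurableSet_lt measurable_const measurable_fst
    · exact measurableSet_le ((measurable_const.mul measurable_fst).add
        (measurable_const.mul measurable_snd)) measurable_const
  have hb := polar_bound (Real.arccos_nonneg ρ) (Real.arccos_le_pi ρ) t
  rw [← hlaw, map_measureReal_apply hTm hA] at hb
  refine le_trans (le_of_eq ?_) hb
  congr 1
  ext ω
  have h2 : Real.cos (Real.arccos ρ) * (T ω).1 + Real.sin (Real.arccos ρ) * (T ω).2 = ω v := by
    rw [hcos, hsin, hT]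
    field_simp
    ring
  simp only [Set.mem_preimage, Set.mem_ofPred_eq]
  rw [h2]

end Pool.Agent.H49.FR
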