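import Pool.Agent.H49.FR.Defs

/-!
# Module Pair: laws of coordinates and pairs

`μ = multivariateGaussian 0 S` is a centered Gaussian measure (`isGaussian_multivariateGaussian`), covariances
`covariance_eval_multivariateGaussian`, laws of the coordinates `measurePreserving_eval_multivariateGaussian`.
* `law_eval`: variance `S v v = 1`.
* `law_pair`: `ω v` and `(ω u - ρ ω v)/√(1-ρ²)`, `ρ = S u v`, are jointly Gaussian (image under a continuous linear map), centered, with variances
  `1` and `(1 - 2ρ² + ρ²)/(1-ρ²) = 1` and covariance `(ρ - ρ)/√.. = 0` (`S v u = S u v` since `S` is Hermitian), so independent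
  (`HasGaussianLaw.indepFun_of_covariance_eq_zero`), and the law of the pair is the product (`indepFun_iff_map_prod_eq_prod_map_map`).
Tools: `IsGaussian.map_eq_gaussianReal` for continuous linear functionals, `HasGaussianLaw.map`, bilinearity of `covariance`
(`covariance_add_left`, `covariance_const_mul_left`, ..., all coordinates are `MemLp 2`).
-/

set_option autoImplicit false

open Finset MeasureTheory ProbabilityTheory

namespace Pool.Agent.H49.FR

variable {V : Type} [Fintype V] [DecidableEq V]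

theorem law_eval {S : Matrix V V ℝ} (hS : S.PosSemidef) {v : V} (hv : S v v = 1) :
    (multivariateGaussian 0 S).map (fun ω : EuclideanSpace ℝ V => ω v) = gaussianReal 0 1 := by
  rw [(measurePreserving_eval_multivariateGaussian (μ := (0 : EuclideanSpace ℝ V)) hS
    (i := v)).map_eq, hv, Real.toNNReal_one]
  rfl

theorem law_pair {S : Matrix V V ℝ} (hS : S.PosSemidef) {u v : V} (hu : S u u = 1) (hv : S v v = 1)
    (h : |S u v| < 1) :
    (multivariateGaussian 0 S).map (fun ω : EuclideanSpace ℝ V =>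
        (ω v, (ω u - S u v * ω v) / Real.sqrt (1 - S u v ^ 2))) =
      (gaussianReal 0 1).prod (gaussianReal 0 1) := by
  set μ : Measure (EuclideanSpace ℝ V) := multivariateGaussian 0 S with hμ
  set ρ : ℝ := S u v with hρ
  have hpos : 0 < 1 - ρ ^ 2 := by
    have h1 : ρ ^ 2 < 1 := by
      rw [← sq_abs]
      nlinarith [abs_nonneg ρ]
    linarith
  have hsq : Real.sqrt (1 - ρ ^ 2) ^ 2 = 1 - ρ ^ 2 := Real.sq_sqrt hpos.le
  have hs0 : Real.sqrt (1 - ρ ^ 2) ≠ 0 := (Real.sqrt_pos.2 hpos).ne'
  set s : ℝ := Real.sqrt (1 - ρ ^ 2) with hs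
  have hsym : S v u = ρ := by
    have h1 := hS.1.apply u v
    simpa using h1
  have hid : HasGaussianLaw (id : EuclideanSpace ℝ V → EuclideanSpace ℝ V) μ :=
    IsGaussian.hasGaussianLaw_id
  -- coordinates
  let eu : EuclideanSpace ℝ V →L[ℝ] ℝ := EuclideanSpace.proj u
  let ev : EuclideanSpace ℝ V →L[ℝ] ℝ := EuclideanSpace.proj v
  let Y : EuclideanSpace ℝ V →L[ℝ] ℝ := s⁻¹ • (eu - ρ • ev)
  have hYa : ∀ ω, Y ω = (ω u - ρ * ω v) / s := by
    intro ω
    change s⁻¹ • (ω u - ρ • ω v) = _
    rw [smul_eq_mul, smul_eq_mul]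
    field_simp
  have hpair : HasGaussianLaw (fun ω : EuclideanSpace ℝ V => (ev ω, Y ω)) μ :=
    hid.map_fun (ev.prod Y)
  have hgu : HasGaussianLaw (fun ω : EuclideanSpace ℝ V => ω u) μ := hid.map_fun eu
  have hgv : HasGaussianLaw (fun ω : EuclideanSpace ℝ V => ω v) μ := hid.map_fun ev
  have hgY : HasGaussianLaw (fun ω : EuclideanSpace ℝ V => Y ω) μ := hid.map_fun Y
  have mu2 := hgu.memLp_two
  have mv2 := hgv.memLp_two
  have mY2 := hgY.memLp_two
  have mρv : MemLp (fun ω : EuclideanSpace ℝ V => ρ * ω v) 2 μ := mv2.const_mul ρ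
  have cvv : cov[fun ω : EuclideanSpace ℝ V => ω v, fun ω => ω v; μ] = 1 := by
    rw [hμ, covariance_eval_multivariateGaussian hS, hv]
  have cuu : cov[fun ω : EuclideanSpace ℝ V => ω u, fun ω => ω u; μ] = 1 := by
    rw [hμ, covariance_eval_multivariateGaussian hS, hu]
  have cuv : cov[fun ω : EuclideanSpace ℝ V => ω u, fun ω => ω v; μ] = ρ := by
    rw [hμ, covariance_eval_multivariateGaussian hS]
  have cvu : cov[fun ω : EuclideanSpace ℝ V => ω v, fun ω => ω u; μ] = ρ := by
    rw [hμ, covariance_eval_multivariateGaussian hS, hsym]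
  have hYf : (fun ω : EuclideanSpace ℝ V => Y ω) = fun ω => (ω u - ρ * ω v) / s := funext hYa
  have cvY : cov[fun ω : EuclideanSpace ℝ V => ω v, fun ω => Y ω; μ] = 0 := by
    rw [hYf, covariance_fun_div_right, covariance_fun_sub_right mv2 mu2 mρv,
      covariance_const_mul_right, cvu, cvv, mul_one, sub_self, zero_div]
  have cYY : cov[fun ω : EuclideanSpace ℝ V => Y ω, fun ω => Y ω; μ] = 1 := by
    have e1 : cov[fun ω : EuclideanSpace ℝ V => ω u, fun ω => ω u - ρ * ω v; μ] = 1 - ρ * ρ := by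
      rw [covariance_fun_sub_right mu2 mu2 mρv, covariance_const_mul_right, cuu, cuv]
    have e2 : cov[fun ω : EuclideanSpace ℝ V => ρ * ω v, fun ω => ω u - ρ * ω v; μ] = 0 := by
      rw [covariance_const_mul_left, covariance_fun_sub_right mv2 mu2 mρv,
        covariance_const_mul_right, cvu, cvv, mul_one, sub_self, mul_zero]
    have m3 : MemLp (fun ω : EuclideanSpace ℝ V => ω u - ρ * ω v) 2 μ := mu2.sub mρv
    rw [hYf, covariance_fun_div_right, covariance_fun_div_left,
      covariance_fun_sub_left mu2 mρv m3, e1, e2, sub_zero, div_div, ← pow_two ρ, ← pow_two s, hsq]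
    exact div_self hpos.ne'
  have hint : ∀ L : EuclideanSpace ℝ V →L[ℝ] ℝ, ∫ ω, L ω ∂μ = 0 := by
    intro L
    have h1 := L.integral_comp_id_comm (μ := μ) IsGaussian.integrable_id
    rw [h1, hμ, integral_id_multivariateGaussian, map_zero]
  have hind : IndepFun (fun ω : EuclideanSpace ℝ V => ev ω) (fun ω => Y ω) μ :=
    hpair.indepFun_of_covariance_eq_zero cvY
  have hlv : μ.map (fun ω : EuclideanSpace ℝ V => ev ω) = gaussianReal 0 1 := law_eval hS hv
  have hlY : μ.map (fun ω : EuclideanSpace ℝ V => Y ω) = gaussianReal 0 1 := by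
    rw [hgY.map_eq_gaussianReal, hint Y]
    have hvar : Var[fun ω : EuclideanSpace ℝ V => Y ω; μ] = 1 := by
      rw [← covariance_self hgY.aemeasurable, cYY]
    rw [hvar, Real.toNNReal_one]
  have hfin := (indepFun_iff_map_prod_eq_prod_map_map hgv.aemeasurable hgY.aemeasurable).1 hind
  have hfun : (fun ω : EuclideanSpace ℝ V => (ω v, (ω u - ρ * ω v) / s)) =
      fun ω => (ω v, Y ω) := by
    funext ω
    rw [hYa]
  have hlv' : μ.map (fun ω : EuclideanSpace ℝ V => ω v) = gaussianReal 0 1 := hlv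
  have h2 : μ.map (fun ω : EuclideanSpace ℝ V => (ω v, Y ω)) =
      (μ.map (fun ω : EuclideanSpace ℝ V => ω v)).prod (μ.map fun ω => Y ω) := hfin
  rw [hfun, h2, hlv', hlY]

end Pool.Agent.H49.FR
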