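import Pool.Agent.H49.FR.CutU
import Pool.Agent.H49.FR.Pair
import Pool.Agent.H49.FR.ConcF

/-!
# Module ExpA: integrability and expectations

`μ = multivariateGaussian 0 S` is a probability measure. All functions are finite sums of indicators of measurable sets
(`measurableSet_Sd`, `measurableSet_Us`, `measurableSet_Fx`; `card = ∑_v 1_{v ∈ ..}`; `cut_Sd` for the cut), so integrable, and the integrals
are the sums of the measures. `exp_Sd`: `μ {ω | v ∈ Sd t ω} = μ {ω | -t < ω v} = γ (Ioi (-t))` by `law_eval`.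
-/

set_option autoImplicit false

open Finset MeasureTheory ProbabilityTheory

namespace Pool.Agent.H49.FR

variable {V : Type} [Fintype V] [DecidableEq V] (G : SimpleGraph V) [DecidableRel G.Adj]

omit [DecidableEq V] in
private lemma ea_coord (v : V) : Measurable fun ω : EuclideanSpace ℝ V => ω v :=
  (EuclideanSpace.proj v : EuclideanSpace ℝ V →L[ℝ] ℝ).continuous.measurable

private lemma ea_card (A : EuclideanSpace ℝ V → Finset V) :
    (fun ω : EuclideanSpace ℝ V => ((A ω).card : ℝ)) =
      fun ω => ∑ v, ({ω | v ∈ A ω} : Set (EuclideanSpace ℝ V)).indicator (fun _ => (1 : ℝ)) ω := by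
  funext ω
  simp [Set.indicator_apply]

private lemma ea_int_ind (S : Matrix V V ℝ) {E : Set (EuclideanSpace ℝ V)} (hE : MeasurableSet E) :
    Integrable (E.indicator (fun _ => (1 : ℝ))) (multivariateGaussian 0 S) :=
  (integrable_const (1 : ℝ)).indicator hE

private lemma ea_integral_ind (S : Matrix V V ℝ) {E : Set (EuclideanSpace ℝ V)}
    (hE : MeasurableSet E) :
    ∫ ω, E.indicator (fun _ => (1 : ℝ)) ω ∂(multivariateGaussian 0 S) =
      (multivariateGaussian 0 S).real E := by
  rw [integral_indicator hE]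
  simp

private lemma ea_card_int (S : Matrix V V ℝ) (A : EuclideanSpace ℝ V → Finset V)
    (hA : ∀ v, MeasurableSet {ω | v ∈ A ω}) :
    Integrable (fun ω : EuclideanSpace ℝ V => ((A ω).card : ℝ)) (multivariateGaussian 0 S) := by
  rw [ea_card A]
  exact integrable_finsetSum _ fun v _ => ea_int_ind S (hA v)

private lemma ea_card_exp (S : Matrix V V ℝ) (A : EuclideanSpace ℝ V → Finset V)
    (hA : ∀ v, MeasurableSet {ω | v ∈ A ω}) :
    ∫ ω, ((A ω).card : ℝ) ∂(multivariateGaussian 0 S) =
      ∑ v, (multivariateGaussian 0 S).real {ω | v ∈ A ω} := by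
  rw [ea_card A, integral_finsetSum _ fun v _ => ea_int_ind S (hA v)]
  exact Finset.sum_congr rfl fun v _ => ea_integral_ind S (hA v)

lemma integrable_card_Sd (S : Matrix V V ℝ) (t : ℝ) :
    Integrable (fun ω : EuclideanSpace ℝ V => ((Sd t ω).card : ℝ)) (multivariateGaussian 0 S) :=
  ea_card_int S _ fun v => measurableSet_Sd t v

lemma integrable_card_Us (S : Matrix V V ℝ) (t : ℝ) :
    Integrable (fun ω : EuclideanSpace ℝ V => ((Us G t ω).card : ℝ)) (multivariateGaussian 0 S) :=
  ea_card_int S _ fun v => measurableSet_Us G t v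

lemma integrable_card_Fx (S : Matrix V V ℝ) (t : ℝ) :
    Integrable (fun ω : EuclideanSpace ℝ V => ((Fx G t ω).card : ℝ)) (multivariateGaussian 0 S) :=
  ea_card_int S _ fun v => measurableSet_Fx G t v

private lemma ea_meas_edge (t : ℝ) (u v : V) :
    MeasurableSet {ω : EuclideanSpace ℝ V | -t < ω u ∧ ω v ≤ -t} :=
  (measurableSet_lt measurable_const (ea_coord u)).inter
    (measurableSet_le (ea_coord v) measurable_const)

private lemma ea_cut (t : ℝ) :
    (fun ω : EuclideanSpace ℝ V => (cut G (Sd t ω) : ℝ)) =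
      fun ω => ∑ u, ∑ v ∈ G.neighborFinset u,
        ({ω : EuclideanSpace ℝ V | -t < ω u ∧ ω v ≤ -t}).indicator (fun _ => (1 : ℝ)) ω := by
  funext ω
  have h1 : (cut G (Sd t ω) : ℝ) =
      ∑ u, ∑ v ∈ G.neighborFinset u, if (-t < ω u ∧ ω v ≤ -t) then (1 : ℝ) else 0 := by
    unfold cut Sd
    rw [Finset.sum_filter]
    push_cast
    refine Finset.sum_congr rfl fun u _ => ?_
    by_cases hu : -t < ω u
    · rw [if_pos hu]
      unfold nin
      have h2 : G.neighborFinset u ∩ (univ.filter fun v => -t < ω v)ᶜ =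
          (G.neighborFinset u).filter fun v => ω v ≤ -t := by
        ext v
        simp
      rw [h2, Finset.card_filter]
      push_cast
      refine Finset.sum_congr rfl fun v _ => ?_
      simp [hu]
    · rw [if_neg hu]
      symm
      refine Finset.sum_eq_zero fun v _ => ?_
      rw [if_neg]
      exact fun h => hu h.1
  rw [h1]
  refine Finset.sum_congr rfl fun u _ => Finset.sum_congr rfl fun v _ => ?_
  simp [Set.indicator_apply]

lemma integrable_cut_Sd (S : Matrix V V ℝ) (t : ℝ) :
    Integrable (fun ω : EuclideanSpace ℝ V => (cut G (Sd t ω) : ℝ)) (multivariateGaussian 0 S) := by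
  rw [ea_cut G t]
  exact integrable_finsetSum _ fun u _ => integrable_finsetSum _ fun v _ =>
    ea_int_ind S (ea_meas_edge t u v)

lemma prob_Sd {S : Matrix V V ℝ} (hS : S.PosSemidef) {v : V} (hd : S v v = 1) (t : ℝ) :
    (multivariateGaussian 0 S).real {ω | v ∈ Sd t ω} = (gaussianReal 0 1).real (Set.Ioi (-t)) := by
  rw [← law_eval hS hd, map_measureReal_apply (ea_coord v) measurableSet_Ioi]
  congr 1
  ext ω
  simp [Sd]

lemma exp_Sd {S : Matrix V V ℝ} (hS : S.PosSemidef) (hd : ∀ v, S v v = 1) (t : ℝ) :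
    ∫ ω, ((Sd t ω).card : ℝ) ∂(multivariateGaussian 0 S) =
      Fintype.card V * (gaussianReal 0 1).real (Set.Ioi (-t)) := by
  rw [ea_card_exp S _ fun v => measurableSet_Sd t v]
  rw [Finset.sum_congr rfl fun v _ => prob_Sd hS (hd v) t, Finset.sum_const, Finset.card_univ,
    nsmul_eq_mul]

lemma exp_Us (S : Matrix V V ℝ) (t : ℝ) :
    ∫ ω, ((Us G t ω).card : ℝ) ∂(multivariateGaussian 0 S) =
      ∑ v, (multivariateGaussian 0 S).real {ω : EuclideanSpace ℝ V | -t < ω v ∧
        3 ≤ ((G.neighborFinset v).filter fun u => ω u ≤ -t).card} := by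
  rw [ea_card_exp S _ fun v => measurableSet_Us G t v]
  refine Finset.sum_congr rfl fun v _ => ?_
  congr 1
  ext ω
  simp [Us]

lemma exp_Fx (S : Matrix V V ℝ) (t : ℝ) :
    ∫ ω, ((Fx G t ω).card : ℝ) ∂(multivariateGaussian 0 S) =
      ∑ v, (multivariateGaussian 0 S).real {ω | v ∈ Fx G t ω} :=
  ea_card_exp S _ fun v => measurableSet_Fx G t v

lemma exp_cut (S : Matrix V V ℝ) (t : ℝ) :
    ∫ ω, (cut G (Sd t ω) : ℝ) ∂(multivariateGaussian 0 S) =
      ∑ u, ∑ v ∈ G.neighborFinset u, (multivariateGaussian 0 S).real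
        {ω : EuclideanSpace ℝ V | -t < ω u ∧ ω v ≤ -t} := by
  rw [ea_cut G t, integral_finsetSum _ fun u _ => integrable_finsetSum _ fun v _ =>
    ea_int_ind S (ea_meas_edge t u v)]
  refine Finset.sum_congr rfl fun u _ => ?_
  rw [integral_finsetSum _ fun v _ => ea_int_ind S (ea_meas_edge t u v)]
  exact Finset.sum_congr rfl fun v _ => ea_integral_ind S (ea_meas_edge t u v)

end Pool.Agent.H49.FR
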