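import Pool.Agent.H49.FR.NumC

/-!
# Module NumV: the inequality at a vertex

`N` has five elements, `ρ u ∈ [0.7999, 1)`; `p` is the probability of a bad vertex.
If some `ρ u₀ ≥ 0.993`: `∑ arccos/(2π) ≤ 4 · 0.102444 + 0.0190 = 0.4288 ≤ 0.482` and `p ≥ 0`. Otherwise multiply `hp` by 2, replace the first `c₀`
by `0.05947` (`c0_lower`), the others by `0.059843` (`c0_upper`), and sum `num_mid` over `u ∈ N`: `≤ 5 · 0.0964 = 0.482`.
-/

set_option autoImplicit false

open Finset MeasureTheory ProbabilityTheory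

namespace Pool.Agent.H49.FR

variable {V : Type} [Fintype V] [DecidableEq V]

theorem vertex_two (N : Finset V) (hN : N.card = 5) (ρ : V → ℝ) (h0 : ∀ u ∈ N, 7999 / 10000 ≤ ρ u)
    (h1 : ∀ u ∈ N, ρ u < 1) {p : ℝ} (hp0 : 0 ≤ p)
    (hp : (gaussianReal 0 1).real (Set.Ioc (-(39 / 1000 : ℝ)) (15 / 100 - 39 / 1000)) / 2 -
        ∑ u ∈ N, (39 / 1000 * (1 - ρ u) *
          (gaussianReal 0 1).real (Set.Ioc (-(39 / 1000 : ℝ)) (15 / 100 - 39 / 1000)) +
          ρ u * ((15 / 100) ^ 2 / (2 * Real.sqrt (2 * Real.pi)))) /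
            (Real.sqrt (2 * Real.pi) * Real.sqrt (1 - ρ u ^ 2)) ≤ p) :
    ∑ u ∈ N, Real.arccos (ρ u) / (2 * Real.pi) - 2 * p ≤ 482 / 1000 := by
  by_cases hc : ∀ u ∈ N, ρ u ≤ 993 / 1000
  · have hc0 := c0_lower
    have hc1 := c0_upper
    set c := (gaussianReal 0 1).real (Set.Ioc (-(39 / 1000 : ℝ)) (15 / 100 - 39 / 1000)) with hcdef
    set e := (15 / 100 : ℝ) ^ 2 / (2 * Real.sqrt (2 * Real.pi)) with he
    have hB : ∀ u ∈ N, Real.arccos (ρ u) / (2 * Real.pi) - 5947 / 500000 +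
        2 * ((39 / 1000 * (1 - ρ u) * c + ρ u * e) /
          (Real.sqrt (2 * Real.pi) * Real.sqrt (1 - ρ u ^ 2))) ≤ 964 / 10000 := by
      intro u hu
      have h2 := num_mid (h0 u hu) (hc u hu)
      rw [← he] at h2
      have h3 : (39 / 1000 * (1 - ρ u) * c + ρ u * e) /
          (Real.sqrt (2 * Real.pi) * Real.sqrt (1 - ρ u ^ 2)) ≤
          (39 / 1000 * (1 - ρ u) * (59843 / 1000000) + ρ u * e) /
          (Real.sqrt (2 * Real.pi) * Real.sqrt (1 - ρ u ^ 2)) := by
        refine div_le_div_of_nonneg_right ?_ (by positivity)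
        have h4 : 0 ≤ 39 / 1000 * (1 - ρ u) := by
          have := h1 u hu
          nlinarith
        have h5 := mul_le_mul_of_nonneg_left hc1 h4
        linarith
      linarith
    have hS := Finset.sum_le_sum hB
    rw [Finset.sum_const, hN, Finset.sum_add_distrib, Finset.sum_sub_distrib, Finset.sum_const, hN,
      ← Finset.mul_sum] at hS
    simp only [nsmul_eq_mul] at hS
    push_cast at hS
    linarith
  · push Not at hc
    obtain ⟨u₀, hu₀, hlt⟩ := hc
    have hA : ∀ u ∈ N.erase u₀, Real.arccos (ρ u) / (2 * Real.pi) ≤ 102444 / 1000000 := fun u hu =>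
      arccos_a (h0 u (Finset.mem_of_mem_erase hu))
    have hS := Finset.sum_le_sum hA
    rw [Finset.sum_const, Finset.card_erase_of_mem hu₀, hN] at hS
    have h2 := arccos_b hlt.le
    rw [← Finset.add_sum_erase N _ hu₀]
    simp only [nsmul_eq_mul] at hS
    push_cast at hS
    norm_num at hS h2 ⊢
    linarith

end Pool.Agent.H49.FR
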