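import Pool.Agent.H49.FR.Defs

/-!
# Module GInt: two integrals

The density of `gaussianReal 0 1` is at most `1/√(2π)` (`gaussianPDFReal`, `exp ≤ 1`).
* `gauss_interval_le`: `γ [a, b] ≤ (b - a)/√(2π)`.
* `gauss_first`: `∫_{(-t, δ-t]} (x + t) dγ ≤ (1/√(2π)) ∫_{-t}^{δ-t} (x + t) dx = δ²/(2 √(2π))`.
-/

set_option autoImplicit false

open Finset MeasureTheory ProbabilityTheory

namespace Pool.Agent.H49.FR

private lemma gauss_le_vol :
    gaussianReal 0 1 ≤ ENNReal.ofReal (Real.sqrt (2 * Real.pi))⁻¹ • (volume : Measure ℝ) := by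
  rw [Measure.le_iff]
  intro s hs
  rw [gaussianReal_apply 0 (by norm_num) s, Measure.smul_apply, smul_eq_mul]
  calc ∫⁻ x in s, gaussianPDF 0 1 x
      ≤ ∫⁻ _ in s, ENNReal.ofReal (Real.sqrt (2 * Real.pi))⁻¹ := by
        refine lintegral_mono fun x => ?_
        unfold gaussianPDF
        refine ENNReal.ofReal_le_ofReal ?_
        unfold gaussianPDFReal
        have h1 : Real.exp (-(x - 0) ^ 2 / (2 * ((1 : NNReal) : ℝ))) ≤ 1 := by
          rw [Real.exp_le_one_iff]
          have := sq_nonneg (x - 0)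
          push_cast
          linarith
        have h2 : (0 : ℝ) ≤ (Real.sqrt (2 * Real.pi * ((1 : NNReal) : ℝ)))⁻¹ := by positivity
        calc (Real.sqrt (2 * Real.pi * ((1 : NNReal) : ℝ)))⁻¹ *
              Real.exp (-(x - 0) ^ 2 / (2 * ((1 : NNReal) : ℝ)))
            ≤ (Real.sqrt (2 * Real.pi * ((1 : NNReal) : ℝ)))⁻¹ * 1 :=
              mul_le_mul_of_nonneg_left h1 h2
          _ = (Real.sqrt (2 * Real.pi))⁻¹ := by simp
    _ = ENNReal.ofReal (Real.sqrt (2 * Real.pi))⁻¹ * volume s := by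
        rw [setLIntegral_const]

theorem gauss_interval_le {a b : ℝ} (hab : a ≤ b) :
    (gaussianReal 0 1).real (Set.Icc a b) ≤ (b - a) / Real.sqrt (2 * Real.pi) := by
  have h := Measure.le_iff'.1 gauss_le_vol (Set.Icc a b)
  rw [Measure.smul_apply, smul_eq_mul, Real.volume_Icc, ← ENNReal.ofReal_mul (by positivity)] at h
  have h0 : 0 ≤ (Real.sqrt (2 * Real.pi))⁻¹ * (b - a) :=
    mul_nonneg (by positivity) (by linarith)
  have h2 := ENNReal.toReal_mono ENNReal.ofReal_ne_top h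
  rw [ENNReal.toReal_ofReal h0] at h2
  unfold Measure.real
  refine h2.trans (le_of_eq ?_)
  ring

theorem gauss_first {t δ : ℝ} (hδ : 0 ≤ δ) :
    ∫ x in Set.Ioc (-t) (δ - t), (x + t) ∂(gaussianReal 0 1) ≤ δ ^ 2 / (2 * Real.sqrt (2 * Real.pi)) := by
  have h1 : (gaussianReal 0 1).restrict (Set.Ioc (-t) (δ - t)) ≤
      (ENNReal.ofReal (Real.sqrt (2 * Real.pi))⁻¹ • (volume : Measure ℝ)).restrict
        (Set.Ioc (-t) (δ - t)) := Measure.restrict_mono le_rfl gauss_le_vol
  have hint : IntegrableOn (fun x : ℝ => x + t) (Set.Ioc (-t) (δ - t)) volume := by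
    have : ContinuousOn (fun x : ℝ => x + t) (Set.Icc (-t) (δ - t)) := by fun_prop
    exact this.integrableOn_Icc.mono_set Set.Ioc_subset_Icc_self
  have hint2 : Integrable (fun x : ℝ => x + t)
      ((ENNReal.ofReal (Real.sqrt (2 * Real.pi))⁻¹ • (volume : Measure ℝ)).restrict
        (Set.Ioc (-t) (δ - t))) := by
    rw [Measure.restrict_smul]
    exact Integrable.smul_measure hint ENNReal.ofReal_ne_top
  have hnn : 0 ≤ᵐ[(ENNReal.ofReal (Real.sqrt (2 * Real.pi))⁻¹ • (volume : Measure ℝ)).restrict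
        (Set.Ioc (-t) (δ - t))] fun x : ℝ => x + t := by
    filter_upwards [ae_restrict_mem measurableSet_Ioc] with x hx
    have := hx.1
    show (0 : ℝ) ≤ x + t
    linarith
  refine (integral_mono_measure h1 hnn hint2).trans (le_of_eq ?_)
  rw [Measure.restrict_smul, integral_smul_measure,
    ENNReal.toReal_ofReal (by positivity : (0 : ℝ) ≤ (Real.sqrt (2 * Real.pi))⁻¹),
    ← intervalIntegral.integral_of_le (by linarith : -t ≤ δ - t), smul_eq_mul]
  have h2 : ∫ x in (-t)..(δ - t), (x + t) = δ ^ 2 / 2 := by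
    rw [intervalIntegral.integral_comp_add_right (fun x => x) t]
    rw [integral_id]
    ring
  rw [h2]
  ring

end Pool.Agent.H49.FR
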