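import Pool.Agent.H49.FR.SymHalf
import Pool.Agent.H49.FR.GInt

/-!
# Module Star: the lower bound for the probability of a bad vertex

`γ = gaussianReal 0 1`, `c₀ = γ I`, `I = (-t, δ - t]`, `E₁ = {ω v ∈ I, 3 ≤ #{u ∈ N : Y_u < 0}}`, `Y_u = ω u - S u v ω v = σ_u W_u`,
`σ_u = √(1 - ρ_u²) > 0`, `ρ_u = S u v ∈ [0, 1)`, `B_u = {ω v ∈ I, -h_u(ω v) ≤ Y_u ≤ 0}`, `h_u(x) = t (1 - ρ_u) + ρ_u (x + t) ≥ 0` for `x ∈ I`.
`ω u ≤ -t ⟺ Y_u ≤ -t - ρ_u ω v = -h_u(ω v)`. So `E₁ ⊆ E ∪ ⋃_u B_u`, `E` the event of the theorem.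
`μ E₁ = μ(ω v ∈ I) μ(3 ≤ #) ≥ c₀ / 2` (`indep_res`, `law_eval`, `sym_half`). By `law_pair` (law of `(ω v, W_u)` is `γ × γ`), `gauss_interval_le`
and `gauss_first`:
`μ B_u = ∫_I γ[-h_u(x)/σ_u, 0] dγ(x) ≤ ∫_I h_u(x) / (√(2π) σ_u) dγ(x) ≤ (t (1-ρ_u) c₀ + ρ_u δ²/(2√(2π))) / (√(2π) σ_u)`.
-/

set_option autoImplicit false

open Finset MeasureTheory ProbabilityTheory

namespace Pool.Agent.H49.FR

variable {V : Type} [Fintype V] [DecidableEq V]

omit [Fintype V] [DecidableEq V] in
private theorem cardEq (N : Finset V) (p : V → Prop) [DecidablePred p] :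
    (N.attach.filter fun u : N => p u).card = (N.filter p).card := by
  rw [Finset.filter_attach, Finset.card_map, Finset.card_attach]

omit [Fintype V] [DecidableEq V] in
private theorem measT (N : Finset V) :
    MeasurableSet {y : N → ℝ | 3 ≤ (N.attach.filter fun u => y u < 0).card} := by
  have h : Measurable fun y : N → ℝ => (N.attach.filter fun u => y u < 0).card := by
    simp only [Finset.card_filter]
    refine Finset.measurable_sum _ fun u _ => ?_
    exact Measurable.ite (measurableSet_lt (measurable_pi_apply u) measurable_const)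
      measurable_const measurable_const
  exact measurableSet_le measurable_const h

private theorem e1 {S : Matrix V V ℝ} (hS : S.PosSemidef) (hd : ∀ v, S v v = 1) (v : V) (N : Finset V)
    (hN : N.card = 5) (h1 : ∀ u ∈ N, |S u v| < 1) (I : Set ℝ) (hI : MeasurableSet I) :
    (gaussianReal 0 1).real I / 2 ≤ (multivariateGaussian 0 S).real
      {ω : EuclideanSpace ℝ V | ω v ∈ I ∧ 3 ≤ (N.filter fun u => ω u - S u v * ω v < 0).card} := by
  have hi := indep_res hS (hd v) N
  have key := hi.measure_inter_preimage_eq_mul I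
    {y : N → ℝ | 3 ≤ (N.attach.filter fun u => y u < 0).card} hI (measT N)
  have hs : {ω : EuclideanSpace ℝ V | ω v ∈ I ∧ 3 ≤ (N.filter fun u => ω u - S u v * ω v < 0).card} =
      ((fun ω : EuclideanSpace ℝ V => ω v) ⁻¹' I ∩
        (fun (ω : EuclideanSpace ℝ V) (u : N) => ω u - S u v * ω v) ⁻¹'
          {y : N → ℝ | 3 ≤ (N.attach.filter fun u => y u < 0).card}) := by
    ext ω
    simp only [Set.mem_ofPred_eq, Set.mem_inter_iff, Set.mem_preimage]
    rw [cardEq N (fun u => ω u - S u v * ω v < 0)]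
  have h2 : (fun (ω : EuclideanSpace ℝ V) (u : N) => ω u - S u v * ω v) ⁻¹'
          {y : N → ℝ | 3 ≤ (N.attach.filter fun u => y u < 0).card} =
      {ω : EuclideanSpace ℝ V | 3 ≤ (N.filter fun u => ω u - S u v * ω v < 0).card} := by
    ext ω
    simp only [Set.mem_ofPred_eq, Set.mem_preimage]
    rw [cardEq N (fun u => ω u - S u v * ω v < 0)]
  have h3 : (multivariateGaussian 0 S) ((fun ω : EuclideanSpace ℝ V => ω v) ⁻¹' I) =
      gaussianReal 0 1 I := by
    rw [← law_eval hS (hd v), Measure.map_apply (by fun_prop) hI]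
  have h6 : (multivariateGaussian 0 S).real ((fun ω : EuclideanSpace ℝ V => ω v) ⁻¹' I ∩
        (fun (ω : EuclideanSpace ℝ V) (u : N) => ω u - S u v * ω v) ⁻¹'
          {y : N → ℝ | 3 ≤ (N.attach.filter fun u => y u < 0).card}) = (gaussianReal 0 1).real I *
      (multivariateGaussian 0 S).real
        {ω : EuclideanSpace ℝ V | 3 ≤ (N.filter fun u => ω u - S u v * ω v < 0).card} := by
    rw [h3, h2] at key
    have := congrArg ENNReal.toReal key
    rw [ENNReal.toReal_mul] at this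
    rw [← h2]
    rw [← h2] at this
    exact this
  rw [hs, h6]
  have h4 := sym_half hS hd v N hN h1
  have h5 : 0 ≤ (gaussianReal 0 1).real I := measureReal_nonneg
  nlinarith

private theorem bu {S : Matrix V V ℝ} (hS : S.PosSemidef) (hd : ∀ v, S v v = 1) (u v : V)
    (h0 : 0 ≤ S u v) (h1 : S u v < 1) {t δ : ℝ} (ht : 0 ≤ t) (hδ : 0 ≤ δ) :
    (multivariateGaussian 0 S).real
      {ω : EuclideanSpace ℝ V | ω v ∈ Set.Ioc (-t) (δ - t) ∧
        -(t * (1 - S u v) + S u v * (ω v + t)) ≤ ω u - S u v * ω v ∧ ω u - S u v * ω v ≤ 0} ≤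
      (t * (1 - S u v) * (gaussianReal 0 1).real (Set.Ioc (-t) (δ - t)) +
          S u v * (δ ^ 2 / (2 * Real.sqrt (2 * Real.pi)))) /
            (Real.sqrt (2 * Real.pi) * Real.sqrt (1 - S u v ^ 2)) := by
  set ρ := S u v with hρ
  set σ := Real.sqrt (1 - ρ ^ 2) with hσ
  have hσ0 : 0 < σ := Real.sqrt_pos.2 (by nlinarith)
  have hp0 : 0 < Real.sqrt (2 * Real.pi) := Real.sqrt_pos.2 (by positivity)
  set I : Set ℝ := Set.Ioc (-t) (δ - t) with hIdef
  have hI : MeasurableSet I := measurableSet_Ioc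
  set f : ℝ → ℝ := fun x => (t * (1 - ρ) + ρ * (x + t)) / (Real.sqrt (2 * Real.pi) * σ) with hf
  set C : Set (ℝ × ℝ) := {p | p.1 ∈ I ∧ -(t * (1 - ρ) + ρ * (p.1 + t)) / σ ≤ p.2 ∧ p.2 ≤ 0} with hC
  have hCm : MeasurableSet C := by
    refine MeasurableSet.inter (measurable_fst hI) (MeasurableSet.inter ?_ ?_)
    · exact measurableSet_le (by fun_prop) measurable_snd
    · exact measurableSet_le measurable_snd measurable_const
  have habs : |S u v| < 1 := by rw [abs_of_nonneg h0]; exact h1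
  have hpair := law_pair hS (hd u) (hd v) habs
  have hset : {ω : EuclideanSpace ℝ V | ω v ∈ I ∧
        -(t * (1 - ρ) + ρ * (ω v + t)) ≤ ω u - ρ * ω v ∧ ω u - ρ * ω v ≤ 0} =
      (fun ω : EuclideanSpace ℝ V => (ω v, (ω u - S u v * ω v) / Real.sqrt (1 - S u v ^ 2))) ⁻¹' C := by
    ext ω
    simp only [hC, Set.mem_ofPred_eq, Set.mem_preimage]
    rw [← hρ, ← hσ, div_le_div_iff_of_pos_right hσ0, div_nonpos_iff]
    constructor
    · rintro ⟨a, b, c⟩
      exact ⟨a, b, Or.inr ⟨c, hσ0.le⟩⟩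
    · rintro ⟨a, b, c⟩
      refine ⟨a, b, ?_⟩
      rcases c with c | c
      · exact absurd hσ0 (not_lt.2 c.2)
      · exact c.1
  have hfnn : ∀ x ∈ I, 0 ≤ f x := by
    intro x hx
    have : 0 ≤ x + t := by have := hx.1; linarith
    simp only [hf]
    have : 0 ≤ 1 - ρ := by linarith
    positivity
  have hμ : (multivariateGaussian 0 S)
      ((fun ω : EuclideanSpace ℝ V => (ω v, (ω u - S u v * ω v) / Real.sqrt (1 - S u v ^ 2))) ⁻¹' C) ≤
      ∫⁻ x in I, ENNReal.ofReal (f x) ∂(gaussianReal 0 1) := by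
    rw [← Measure.map_apply (by fun_prop) hCm, hpair, Measure.prod_apply hCm,
      ← lintegral_indicator hI]
    refine lintegral_mono fun x => ?_
    by_cases hx : x ∈ I
    · rw [Set.indicator_of_mem hx]
      have h2 : Prod.mk x ⁻¹' C = Set.Icc (-(t * (1 - ρ) + ρ * (x + t)) / σ) 0 := by
        ext w
        simp [hC, hx]
      have hx0 : 0 ≤ (t * (1 - ρ) + ρ * (x + t)) / σ := by
        have : 0 ≤ x + t := by have := hx.1; linarith
        have : 0 ≤ 1 - ρ := by linarith
        positivity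
      have h3 := gauss_interval_le (a := -(t * (1 - ρ) + ρ * (x + t)) / σ) (b := 0)
        (by rw [neg_div]; linarith)
      rw [h2, ← ofReal_measureReal]
      refine ENNReal.ofReal_le_ofReal (h3.trans (le_of_eq ?_))
      simp only [hf]
      field_simp
      ring
    · rw [Set.indicator_of_notMem hx]
      have h2 : Prod.mk x ⁻¹' C = ∅ := by
        ext w
        simp [hC, hx]
      rw [h2, measure_empty]
  have hint : IntegrableOn (fun x : ℝ => x + t) I (gaussianReal 0 1) := by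
    rw [hIdef]
    exact Continuous.integrableOn_Ioc (by fun_prop)
  have hcint : IntegrableOn (fun _ : ℝ => t * (1 - ρ)) I (gaussianReal 0 1) := integrableOn_const (by finiteness)
  have hfint : IntegrableOn f I (gaussianReal 0 1) := by
    simp only [hf]
    exact (hcint.add (hint.const_mul ρ)).div_const _
  have hint2 : ∫⁻ x in I, ENNReal.ofReal (f x) ∂(gaussianReal 0 1) =
      ENNReal.ofReal (∫ x in I, f x ∂(gaussianReal 0 1)) := by
    rw [ofReal_integral_eq_lintegral_ofReal hfint]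
    exact (ae_restrict_iff' hI).2 (Filter.Eventually.of_forall hfnn)
  have hval : ∫ x in I, f x ∂(gaussianReal 0 1) =
      (t * (1 - ρ) * (gaussianReal 0 1).real I + ρ * ∫ x in I, (x + t) ∂(gaussianReal 0 1)) /
        (Real.sqrt (2 * Real.pi) * σ) := by
    simp only [hf]
    have hm : ∫ x in I, ρ * (x + t) ∂(gaussianReal 0 1) =
        ρ * ∫ x in I, (x + t) ∂(gaussianReal 0 1) := integral_const_mul _ _
    rw [integral_div, integral_add hcint (hint.const_mul ρ), hm, setIntegral_const, smul_eq_mul]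
    ring
  have hfirst := gauss_first (t := t) hδ
  have hle : ∫ x in I, f x ∂(gaussianReal 0 1) ≤
      (t * (1 - ρ) * (gaussianReal 0 1).real I + ρ * (δ ^ 2 / (2 * Real.sqrt (2 * Real.pi)))) /
        (Real.sqrt (2 * Real.pi) * σ) := by
    rw [hval]
    have : ρ * ∫ x in I, (x + t) ∂(gaussianReal 0 1) ≤ ρ * (δ ^ 2 / (2 * Real.sqrt (2 * Real.pi))) :=
      mul_le_mul_of_nonneg_left hfirst h0
    have h2 : 0 < Real.sqrt (2 * Real.pi) * σ := by positivity
    exact div_le_div_of_nonneg_right (by linarith) h2.le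
  rw [hset, Measure.real]
  refine ENNReal.toReal_le_of_le_ofReal ?_ ?_
  · have : 0 ≤ ∫ x in I, f x ∂(gaussianReal 0 1) := setIntegral_nonneg hI hfnn
    linarith
  · refine hμ.trans ?_
    rw [hint2]
    exact ENNReal.ofReal_le_ofReal hle

theorem star_prob {S : Matrix V V ℝ} (hS : S.PosSemidef) (hd : ∀ v, S v v = 1) (v : V) (N : Finset V)
    (hN : N.card = 5) (h0 : ∀ u ∈ N, 0 ≤ S u v) (h1 : ∀ u ∈ N, S u v < 1) {t δ : ℝ} (ht : 0 ≤ t)
    (hδ : 0 ≤ δ) :
    (gaussianReal 0 1).real (Set.Ioc (-t) (δ - t)) / 2 -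
        ∑ u ∈ N, (t * (1 - S u v) * (gaussianReal 0 1).real (Set.Ioc (-t) (δ - t)) +
          S u v * (δ ^ 2 / (2 * Real.sqrt (2 * Real.pi)))) /
            (Real.sqrt (2 * Real.pi) * Real.sqrt (1 - S u v ^ 2)) ≤
      (multivariateGaussian 0 S).real
        {ω : EuclideanSpace ℝ V | -t < ω v ∧ 3 ≤ (N.filter fun u => ω u ≤ -t).card} := by
  classical
  set I : Set ℝ := Set.Ioc (-t) (δ - t) with hIdef
  set E : Set (EuclideanSpace ℝ V) := {ω | -t < ω v ∧ 3 ≤ (N.filter fun u => ω u ≤ -t).card} with hE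
  set E₁ : Set (EuclideanSpace ℝ V) :=
    {ω | ω v ∈ I ∧ 3 ≤ (N.filter fun u => ω u - S u v * ω v < 0).card} with hE₁
  set B : V → Set (EuclideanSpace ℝ V) := fun u => {ω | ω v ∈ I ∧
        -(t * (1 - S u v) + S u v * (ω v + t)) ≤ ω u - S u v * ω v ∧ ω u - S u v * ω v ≤ 0} with hB
  have hsub : E₁ ⊆ E ∪ ⋃ u ∈ N, B u := by
    intro ω hω
    by_cases hb : ω ∈ ⋃ u ∈ N, B u
    · exact Or.inr hb
    · left
      refine ⟨hω.1.1, hω.2.trans (Finset.card_le_card ?_)⟩
      intro u hu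
      rw [Finset.mem_filter] at hu ⊢
      refine ⟨hu.1, ?_⟩
      have hnb : ω ∉ B u := fun h => hb (Set.mem_biUnion hu.1 h)
      by_contra hlt
      apply hnb
      refine ⟨hω.1, ?_, hu.2.le⟩
      push Not at hlt
      nlinarith
  have h2 : (multivariateGaussian 0 S).real E₁ ≤
      (multivariateGaussian 0 S).real E + ∑ u ∈ N, (multivariateGaussian 0 S).real (B u) :=
    (measureReal_mono hsub (by finiteness)).trans ((measureReal_union_le _ _).trans
      (add_le_add le_rfl (measureReal_biUnion_finset_le _ _)))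
  have h3 := e1 hS hd v N hN (fun u hu => by rw [abs_of_nonneg (h0 u hu)]; exact h1 u hu) I
    measurableSet_Ioc
  have h4 : ∑ u ∈ N, (multivariateGaussian 0 S).real (B u) ≤
      ∑ u ∈ N, (t * (1 - S u v) * (gaussianReal 0 1).real (Set.Ioc (-t) (δ - t)) +
          S u v * (δ ^ 2 / (2 * Real.sqrt (2 * Real.pi)))) /
            (Real.sqrt (2 * Real.pi) * Real.sqrt (1 - S u v ^ 2)) :=
    Finset.sum_le_sum fun u hu => bu hS hd u v (h0 u hu) (h1 u hu) ht hδ
  linarith

end Pool.Agent.H49.FR
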