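import Pool.Agent.H49.FR.ExpA
import Pool.Agent.H49.FR.Edge
import Pool.Agent.H49.FR.Star
import Pool.Agent.H49.FR.NumV

/-!
# Module ExpB: the bounds for the expectations

* `bnd_cut`: `exp_cut`, `edge_prob` for adjacent `u ≠ v`, `arccos` decreasing, `hS.adj`, `d` neighbours.
* `bnd_one`: `bnd_cut` with `exp(-t²/2) ≤ 1` and `arccos_a`: `5 · 0.102444 = 0.51222`.
* `bnd_two`: `exp_cut`, `exp_Us`, `edge_prob` with `exp ≤ 1`; for every `u` apply `vertex_two` with `N = neighborFinset u`, `ρ v = S v u` (`S` is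
  symmetric: `hS.psd.1`), `p = μ {u is bad}` and `star_prob` with `δ = 15/100`. Sum over `u`.
-/

set_option autoImplicit false

open Finset MeasureTheory ProbabilityTheory

namespace Pool.Agent.H49.FR

variable {V : Type} [Fintype V] [DecidableEq V] (G : SimpleGraph V) [DecidableRel G.Adj]

private lemma card_nb {d : ℕ} (hreg : G.IsRegularOfDegree d) (u : V) :
    (G.neighborFinset u).card = d := by
  rw [SimpleGraph.card_neighborFinset_eq_degree]
  exact hreg u

private lemma cv_symm {ρ : ℝ} {r : ℕ} {S : Matrix V V ℝ} (hS : Cv G ρ r S) (u v : V) :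
    S u v = S v u := by
  have h := hS.psd.1.apply v u
  simpa using h

private lemma exp_le_one' (t : ℝ) : Real.exp (-t ^ 2 / 2) ≤ 1 :=
  Real.exp_le_one_iff.2 (by nlinarith [sq_nonneg t])

theorem bnd_cut {d : ℕ} (hreg : G.IsRegularOfDegree d) {ρ : ℝ} {r : ℕ} {S : Matrix V V ℝ}
    (hS : Cv G ρ r S) (t : ℝ) :
    ∫ ω, (cut G (Sd t ω) : ℝ) ∂(multivariateGaussian 0 S) ≤
      d * (Real.arccos ρ / (2 * Real.pi) * Real.exp (-t ^ 2 / 2)) * Fintype.card V := by
  rw [exp_cut G S t]
  have h1 : ∀ u : V, ∑ v ∈ G.neighborFinset u, (multivariateGaussian 0 S).real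
      {ω : EuclideanSpace ℝ V | -t < ω u ∧ ω v ≤ -t} ≤
      d * (Real.arccos ρ / (2 * Real.pi) * Real.exp (-t ^ 2 / 2)) := by
    intro u
    have h2 : ∀ v ∈ G.neighborFinset u, (multivariateGaussian 0 S).real
        {ω : EuclideanSpace ℝ V | -t < ω u ∧ ω v ≤ -t} ≤
        Real.arccos ρ / (2 * Real.pi) * Real.exp (-t ^ 2 / 2) := by
      intro v hv
      have ha : G.Adj u v := (G.mem_neighborFinset u v).1 hv
      refine (edge_prob hS.psd (hS.diag u) (hS.diag v) (hS.lt u v (G.ne_of_adj ha)) t).trans ?_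
      refine mul_le_mul_of_nonneg_right ?_ (Real.exp_pos _).le
      exact div_le_div_of_nonneg_right (Real.antitone_arccos (hS.adj u v ha)) (by positivity)
    refine (Finset.sum_le_sum h2).trans ?_
    rw [Finset.sum_const, card_nb G hreg u, nsmul_eq_mul]
  refine (Finset.sum_le_sum fun u _ => h1 u).trans ?_
  rw [Finset.sum_const, Finset.card_univ, nsmul_eq_mul, mul_comm]

theorem bnd_one (hreg : G.IsRegularOfDegree 5) {r : ℕ} {S : Matrix V V ℝ}
    (hS : Cv G (7999 / 10000) r S) :
    ∫ ω, (cut G (Sd (39 / 1000) ω) : ℝ) ∂(multivariateGaussian 0 S) ≤ 51222 / 100000 * Fintype.card V := by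
  refine (bnd_cut G hreg hS (39 / 1000)).trans ?_
  refine mul_le_mul_of_nonneg_right ?_ (Nat.cast_nonneg _)
  have h1 := arccos_a (x := 7999 / 10000) le_rfl
  have h2 := exp_le_one' (39 / 1000)
  have h3 : 0 ≤ Real.arccos (7999 / 10000) / (2 * Real.pi) :=
    div_nonneg (Real.arccos_nonneg _) (by positivity)
  have h4 : Real.arccos (7999 / 10000) / (2 * Real.pi) * Real.exp (-(39 / 1000) ^ 2 / 2) ≤
      102444 / 1000000 := by
    refine le_trans (mul_le_of_le_one_right h3 h2) h1
  push_cast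
  linarith

theorem bnd_two (hreg : G.IsRegularOfDegree 5) {r : ℕ} {S : Matrix V V ℝ}
    (hS : Cv G (7999 / 10000) r S) :
    ∫ ω, (cut G (Sd (39 / 1000) ω) : ℝ) ∂(multivariateGaussian 0 S) -
        2 * ∫ ω, ((Us G (39 / 1000) ω).card : ℝ) ∂(multivariateGaussian 0 S) ≤
      482 / 1000 * Fintype.card V := by
  rw [exp_cut G S, exp_Us G S, Finset.mul_sum, ← Finset.sum_sub_distrib]
  have key : ∀ u : V, (∑ v ∈ G.neighborFinset u, (multivariateGaussian 0 S).real
      {ω : EuclideanSpace ℝ V | -(39 / 1000) < ω u ∧ ω v ≤ -(39 / 1000)}) -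
      2 * (multivariateGaussian 0 S).real {ω : EuclideanSpace ℝ V | -(39 / 1000) < ω u ∧
        3 ≤ ((G.neighborFinset u).filter fun w => ω w ≤ -(39 / 1000)).card} ≤ 482 / 1000 := by
    intro u
    have hadj : ∀ v ∈ G.neighborFinset u, 7999 / 10000 ≤ S v u := by
      intro v hv
      rw [← cv_symm G hS u v]
      exact hS.adj u v ((G.mem_neighborFinset u v).1 hv)
    have hlt : ∀ v ∈ G.neighborFinset u, S v u < 1 := by
      intro v hv
      have ha : G.Adj u v := (G.mem_neighborFinset u v).1 hv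
      exact (abs_lt.1 (hS.lt v u (G.ne_of_adj ha).symm)).2
    have h0 : ∀ v ∈ G.neighborFinset u, 0 ≤ S v u := fun v hv => by
      have := hadj v hv
      linarith
    have hs := star_prob hS.psd hS.diag u (G.neighborFinset u) (card_nb G hreg u) h0 hlt
      (t := 39 / 1000) (δ := 15 / 100) (by norm_num) (by norm_num)
    have hv := vertex_two (G.neighborFinset u) (card_nb G hreg u) (fun v => S v u) hadj hlt
      (p := (multivariateGaussian 0 S).real {ω : EuclideanSpace ℝ V | -(39 / 1000) < ω u ∧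
        3 ≤ ((G.neighborFinset u).filter fun w => ω w ≤ -(39 / 1000)).card})
      measureReal_nonneg hs
    have h2 : ∀ v ∈ G.neighborFinset u, (multivariateGaussian 0 S).real
        {ω : EuclideanSpace ℝ V | -(39 / 1000) < ω u ∧ ω v ≤ -(39 / 1000)} ≤
        Real.arccos (S v u) / (2 * Real.pi) := by
      intro v hv
      have ha : G.Adj u v := (G.mem_neighborFinset u v).1 hv
      refine (edge_prob hS.psd (hS.diag u) (hS.diag v) (hS.lt u v (G.ne_of_adj ha)) _).trans ?_
      rw [cv_symm G hS u v]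
      exact mul_le_of_le_one_right (div_nonneg (Real.arccos_nonneg _) (by positivity))
        (exp_le_one' _)
    have h3 := Finset.sum_le_sum h2
    linarith
  refine (Finset.sum_le_sum fun u _ => key u).trans ?_
  rw [Finset.sum_const, Finset.card_univ, nsmul_eq_mul, mul_comm]

end Pool.Agent.H49.FR
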