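import Mathlib

/-!
# Module NumG: values of the Gaussian measure

Density `φ(x) = (√(2π))⁻¹ exp(-x²/2)`, `0.39894 ≤ (√(2π))⁻¹ ≤ 0.39895` (from `Real.pi_gt_d6`, `Real.pi_lt_d6`: `2.50662 < √(2π) < 2.50663`),
`1 - x²/2 ≤ exp(-x²/2) ≤ 1`.
* `c0`: `γ(-0.039, 0.111] ` is between `0.15 · 0.39894 · (1 - 0.111²/2) ≥ 0.05947` and `0.15 · 0.39895 ≤ 0.059843` (length 0.15, `|x| ≤ 0.111`).
* `half`: `γ(Ioi (-t)) = 1/2 + γ(Ioc (-t) 0)`, `t = 0.039`, (symmetry, no atoms), and `γ(Ioc (-t) 0)` is between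
  `0.039 · 0.39894 · (1 - 0.039²/2) ≥ 0.015546` and `0.039 · 0.39895 ≤ 0.01556`.
* `gauss_half`: symmetry and no atoms. `gauss_tail`: `γ(Ioi (2/3)) = 1/2 - γ(Ioc 0 (2/3))` and
  `1 - x²/2 ≤ exp(-x²/2) ≤ 1 - x²/2 + x⁴/8`: `γ(Ioc 0 (2/3))` is between `0.39894 (2/3 - 4/81)` `= 0.2462` and `0.39895 (2/3 - 4/81 + 4/1215)`
  `= 0.2476`.
-/

set_option autoImplicit false

open MeasureTheory ProbabilityTheory

namespace Pool.Agent.H49.FR

lemma sqrt_two_pi : (250662 / 100000 : ℝ) < Real.sqrt (2 * Real.pi) ∧ Real.sqrt (2 * Real.pi) < 250663 / 100000 := by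
  have h1 := Real.pi_gt_d6
  have h2 := Real.pi_lt_d6
  refine ⟨?_, ?_⟩
  · apply Real.lt_sqrt_of_sq_lt
    norm_num at h1 ⊢
    linarith
  · rw [Real.sqrt_lt' (by norm_num)]
    norm_num at h2 ⊢
    linarith

private lemma inv_bd : (39894 / 100000 : ℝ) ≤ (Real.sqrt (2 * Real.pi))⁻¹ ∧
    (Real.sqrt (2 * Real.pi))⁻¹ ≤ 39895 / 100000 := by
  obtain ⟨h1, h2⟩ := sqrt_two_pi
  have h0 : (0 : ℝ) < Real.sqrt (2 * Real.pi) := by linarith
  refine ⟨?_, ?_⟩
  · rw [le_inv_comm₀ (by norm_num) h0]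
    refine h2.le.trans ?_
    norm_num
  · rw [inv_le_comm₀ h0 (by norm_num)]
    refine le_trans ?_ h1.le
    norm_num

private lemma ioc_eq (a b : ℝ) (h : a ≤ b) : (gaussianReal 0 1).real (Set.Ioc a b) =
    (Real.sqrt (2 * Real.pi))⁻¹ * ∫ x in a..b, Real.exp (-(x ^ 2 / 2)) := by
  rw [Measure.real, gaussianReal_apply_eq_integral 0 (by norm_num), ENNReal.toReal_ofReal]
  · rw [← intervalIntegral.integral_of_le h, ← intervalIntegral.integral_const_mul]
    apply intervalIntegral.integral_congr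
    intro x _
    simp only [gaussianPDFReal, NNReal.coe_one, mul_one, sub_zero]
    congr 2
    ring
  · exact integral_nonneg fun x => gaussianPDFReal_nonneg _ _ _

private lemma int_lower (a b : ℝ) (h : a ≤ b) :
    (b - a) - (b ^ 3 - a ^ 3) / 6 ≤ ∫ x in a..b, Real.exp (-(x ^ 2 / 2)) := by
  have h1 : ∫ x in a..b, (1 - x ^ 2 / 2 : ℝ) = (b - a) - (b ^ 3 - a ^ 3) / 6 := by
    rw [intervalIntegral.integral_sub (by simp) (by
      apply Continuous.intervalIntegrable; fun_prop)]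
    simp only [intervalIntegral.integral_const, smul_eq_mul, mul_one,
      intervalIntegral.integral_div, integral_pow]
    norm_num
    ring
  rw [← h1]
  apply intervalIntegral.integral_mono_on h
  · apply Continuous.intervalIntegrable; fun_prop
  · apply Continuous.intervalIntegrable; fun_prop
  · intro x _
    have := Real.add_one_le_exp (-(x ^ 2 / 2))
    linarith

private lemma exp_neg_le (y : ℝ) (hy : 0 ≤ y) : Real.exp (-y) ≤ 1 - y + y ^ 2 / 2 := by
  have h1 := Real.quadratic_le_exp_of_nonneg hy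
  have h2 : 0 < 1 + y + y ^ 2 / 2 := by positivity
  rw [Real.exp_neg]
  refine (inv_anti₀ h2 h1).trans ?_
  rw [inv_le_iff_one_le_mul₀ h2]
  nlinarith [sq_nonneg (y ^ 2)]

private lemma int_upper (a b : ℝ) (h : a ≤ b) :
    ∫ x in a..b, Real.exp (-(x ^ 2 / 2)) ≤ (b - a) - (b ^ 3 - a ^ 3) / 6 + (b ^ 5 - a ^ 5) / 40 := by
  have h1 : ∫ x in a..b, ((1 - x ^ 2 / 2) + x ^ 4 / 8 : ℝ) =
      (b - a) - (b ^ 3 - a ^ 3) / 6 + (b ^ 5 - a ^ 5) / 40 := by
    rw [intervalIntegral.integral_add (by apply Continuous.intervalIntegrable; fun_prop)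
      (by apply Continuous.intervalIntegrable; fun_prop),
      intervalIntegral.integral_sub (by simp) (by
      apply Continuous.intervalIntegrable; fun_prop)]
    simp only [intervalIntegral.integral_const, smul_eq_mul, mul_one,
      intervalIntegral.integral_div, integral_pow]
    norm_num
    ring
  rw [← h1]
  apply intervalIntegral.integral_mono_on h
  · apply Continuous.intervalIntegrable; fun_prop
  · apply Continuous.intervalIntegrable; fun_prop
  · intro x _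
    have := exp_neg_le (x ^ 2 / 2) (by positivity)
    have e : (x ^ 2 / 2) ^ 2 / 2 = x ^ 4 / 8 := by ring
    linarith

private lemma int_upper' (a b : ℝ) (h : a ≤ b) :
    ∫ x in a..b, Real.exp (-(x ^ 2 / 2)) ≤ b - a := by
  have h1 : ∫ x in a..b, (1 : ℝ) = b - a := by simp
  rw [← h1]
  apply intervalIntegral.integral_mono_on h
  · apply Continuous.intervalIntegrable; fun_prop
  · apply Continuous.intervalIntegrable; fun_prop
  · intro x _
    apply Real.exp_le_one_iff.2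
    have : 0 ≤ x ^ 2 := sq_nonneg x
    linarith

lemma c0_lower : (5947 / 100000 : ℝ) ≤ (gaussianReal 0 1).real (Set.Ioc (-(39 / 1000 : ℝ)) (15 / 100 - 39 / 1000)) := by
  rw [ioc_eq _ _ (by norm_num)]
  obtain ⟨h1, h2⟩ := inv_bd
  have h3 := int_lower (-(39 / 1000 : ℝ)) (15 / 100 - 39 / 1000) (by norm_num)
  refine le_trans ?_ (mul_le_mul h1 h3 (by norm_num) (by linarith))
  norm_num

lemma c0_upper : (gaussianReal 0 1).real (Set.Ioc (-(39 / 1000 : ℝ)) (15 / 100 - 39 / 1000)) ≤ (59843 / 1000000 : ℝ) := by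
  rw [ioc_eq _ _ (by norm_num)]
  obtain ⟨h1, h2⟩ := inv_bd
  have h3 := int_upper' (-(39 / 1000 : ℝ)) (15 / 100 - 39 / 1000) (by norm_num)
  have h4 := int_lower (-(39 / 1000 : ℝ)) (15 / 100 - 39 / 1000) (by norm_num)
  refine le_trans (mul_le_mul h2 h3 (by norm_num at h4 ⊢; linarith) (by norm_num)) ?_
  norm_num

lemma gauss_half : (gaussianReal 0 1).real (Set.Ioi (0 : ℝ)) = 1 / 2 := by
  have hv : (1 : NNReal) ≠ 0 := by norm_num
  have : NullSingletonClass (gaussianReal 0 1) := nullSingletonClass_gaussianReal hv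
  have h1 : (gaussianReal 0 1).real (Set.Iio (0 : ℝ)) = (gaussianReal 0 1).real (Set.Ioi (0 : ℝ)) := by
    have e : (gaussianReal 0 1).map (fun x => -x) = gaussianReal 0 1 := by
      rw [gaussianReal_map_neg]; simp
    conv_rhs => rw [← e]
    rw [Measure.real, Measure.real, Measure.map_apply measurable_neg measurableSet_Ioi]
    congr 2
    ext x; simp
  have h2 : (gaussianReal 0 1).real (Set.Iic (0 : ℝ)) = (gaussianReal 0 1).real (Set.Iio (0 : ℝ)) := by
    rw [Measure.real, Measure.real, measure_congr Iio_ae_eq_Iic]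
  have h3 := probReal_compl_eq_one_sub (μ := gaussianReal 0 1) (s := Set.Iic (0 : ℝ)) measurableSet_Iic
  rw [Set.compl_Iic] at h3
  linarith

private lemma ioi_split (a b : ℝ) (h : a ≤ b) : (gaussianReal 0 1).real (Set.Ioi a) =
    (gaussianReal 0 1).real (Set.Ioc a b) + (gaussianReal 0 1).real (Set.Ioi b) := by
  rw [← measureReal_union (by
    rw [Set.disjoint_left]
    intro x hx hx2
    exact absurd hx.2 (not_le.2 hx2)) measurableSet_Ioi, Set.Ioc_union_Ioi_eq_Ioi h]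

lemma half_lower : (515546 / 1000000 : ℝ) ≤ (gaussianReal 0 1).real (Set.Ioi (-(39 / 1000 : ℝ))) := by
  rw [ioi_split _ 0 (by norm_num), gauss_half, ioc_eq _ _ (by norm_num)]
  obtain ⟨h1, h2⟩ := inv_bd
  have h3 := int_lower (-(39 / 1000 : ℝ)) 0 (by norm_num)
  have h4 := mul_le_mul h1 h3 (by norm_num) (by linarith)
  norm_num at h4 ⊢
  linarith

lemma half_upper : (gaussianReal 0 1).real (Set.Ioi (-(39 / 1000 : ℝ))) ≤ (51556 / 100000 : ℝ) := by
  rw [ioi_split _ 0 (by norm_num), gauss_half, ioc_eq _ _ (by norm_num)]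
  obtain ⟨h1, h2⟩ := inv_bd
  have h3 := int_upper' (-(39 / 1000 : ℝ)) 0 (by norm_num)
  have h5 := int_lower (-(39 / 1000 : ℝ)) 0 (by norm_num)
  have h4 := mul_le_mul h2 h3 (by norm_num at h5 ⊢; linarith) (by norm_num)
  norm_num at h4 ⊢
  linarith

/-- true value 0.252492 -/
lemma gauss_tail : (25 / 100 : ℝ) ≤ (gaussianReal 0 1).real (Set.Ioi (2 / 3 : ℝ)) ∧
    (gaussianReal 0 1).real (Set.Ioi (2 / 3 : ℝ)) ≤ 26 / 100 := by
  have h0 := ioi_split 0 (2 / 3) (by norm_num)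
  rw [gauss_half, ioc_eq _ _ (by norm_num)] at h0
  obtain ⟨h1, h2⟩ := inv_bd
  have h3 := int_upper 0 (2 / 3 : ℝ) (by norm_num)
  have h5 := int_lower 0 (2 / 3 : ℝ) (by norm_num)
  have h6 := mul_le_mul h1 h5 (by norm_num) (by linarith)
  have h4 := mul_le_mul h2 h3 (by norm_num at h5 ⊢; linarith) (by norm_num)
  have e6 : (24 / 100 : ℝ) ≤ 39894 / 100000 * (2 / 3 - 0 - ((2 / 3) ^ 3 - 0 ^ 3) / 6) := by norm_num
  have e4 : (39895 / 100000 * (2 / 3 - 0 - ((2 / 3) ^ 3 - 0 ^ 3) / 6 + ((2 / 3) ^ 5 - 0 ^ 5) / 40) : ℝ) ≤ 25 / 100 := by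
    norm_num
  constructor <;> linarith

end Pool.Agent.H49.FR
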