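import Pool.Agent.H49.FR.Trig
import Pool.Agent.H49.FR.NumG

/-!
# Module NumW: the numerical conditions for degree six and seven

* `six`: `ρ = 0.745 < 2 √5 / 6 = 0.74536`, `arccos 0.745 ≤ 0.7303`, `6 · 0.7303/(2π) = 0.6974 < 1 = min (2 · 1/2) (2 · 1/2)`, `t = 0`.
* `seven`: `ρ = 0.699 < 2 √6 / 7 = 0.69985`, `arccos 0.699 ≤ 0.7969`, `t = -2/3`, `exp(-2/9) ≤ 0.8009` (`exp(2/9) ≥ 1 + 2/9 + 2/81`):
  `7 · 0.7969/(2π) · 0.8009 = 0.7111 < min (3 · 0.25) (1 - 0.26) = 0.74` (`gauss_tail`).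
The casts are those produced by `wave` with `d = 6, 7`.
-/

set_option autoImplicit false

open Finset MeasureTheory ProbabilityTheory

namespace Pool.Agent.H49.FR

theorem six_rho : (745 / 1000 : ℝ) < 2 * Real.sqrt (((6 : ℕ) : ℝ) - 1) / ((6 : ℕ) : ℝ) := by
  have h : (2235 / 1000 : ℝ) < Real.sqrt (((6 : ℕ) : ℝ) - 1) := by
    apply Real.lt_sqrt_of_sq_lt
    norm_num
  push_cast at h ⊢
  linarith

theorem six_num : ((6 : ℕ) : ℝ) * (Real.arccos (745 / 1000) / (2 * Real.pi) * Real.exp (-(0 : ℝ) ^ 2 / 2)) <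
    min (((2 : ℕ) : ℝ) * (gaussianReal 0 1).real (Set.Ioi (-0)))
      (((2 : ℕ) : ℝ) * (1 - (gaussianReal 0 1).real (Set.Ioi (-0)))) := by
  have h1 : Real.arccos (745 / 1000) ≤ 7303 / 10000 := by
    apply arccos_le_of (by norm_num) (by norm_num)
    norm_num
  have h0 : 0 ≤ Real.arccos (745 / 1000) := Real.arccos_nonneg _
  have hpi := Real.pi_gt_three
  have h2 : (-(0:ℝ)) = 0 := neg_zero
  have h3 : -(0 : ℝ) ^ 2 / 2 = 0 := by norm_num
  rw [h3, Real.exp_zero, h2, gauss_half]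
  have h4 : Real.arccos (745 / 1000) / (2 * Real.pi) < 1 / 6 := by
    rw [div_lt_iff₀ (by positivity)]
    linarith
  rw [lt_min_iff]
  push_cast
  constructor <;> linarith

theorem seven_rho : (699 / 1000 : ℝ) < 2 * Real.sqrt (((7 : ℕ) : ℝ) - 1) / ((7 : ℕ) : ℝ) := by
  have h : (24465 / 10000 : ℝ) < Real.sqrt (((7 : ℕ) : ℝ) - 1) := by
    apply Real.lt_sqrt_of_sq_lt
    norm_num
  push_cast at h ⊢
  linarith

theorem seven_num : ((7 : ℕ) : ℝ) *
      (Real.arccos (699 / 1000) / (2 * Real.pi) * Real.exp (-(-(2 / 3) : ℝ) ^ 2 / 2)) <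
    min (((3 : ℕ) : ℝ) * (gaussianReal 0 1).real (Set.Ioi (-(-(2 / 3)))))
      (((1 : ℕ) : ℝ) * (1 - (gaussianReal 0 1).real (Set.Ioi (-(-(2 / 3)))))) := by
  have h1 : Real.arccos (699 / 1000) ≤ 7969 / 10000 := by
    apply arccos_le_of (by norm_num) (by norm_num)
    norm_num
  have h0 : 0 ≤ Real.arccos (699 / 1000) := Real.arccos_nonneg _
  have hpi : (3.14 : ℝ) < Real.pi := Real.pi_gt_d2
  have h2 : (-(-(2 / 3)) : ℝ) = 2 / 3 := by norm_num
  have h3 : -(-(2 / 3) : ℝ) ^ 2 / 2 = -(2 / 9) := by norm_num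
  have h4 : Real.exp (-(2 / 9)) ≤ 802 / 1000 := by
    have h5 : (1:ℝ) + 2 / 9 + (2 / 9) ^ 2 / 2 ≤ Real.exp (2 / 9) :=
      Real.quadratic_le_exp_of_nonneg (by norm_num)
    rw [Real.exp_neg, inv_le_comm₀ (Real.exp_pos _) (by norm_num)]
    refine le_trans ?_ h5
    norm_num
  have h5 : 0 < Real.exp (-(2 / 9)) := Real.exp_pos _
  obtain ⟨g1, g2⟩ := gauss_tail
  rw [h3, h2]
  have h6 : Real.arccos (699 / 1000) / (2 * Real.pi) ≤ 127 / 1000 := by
    rw [div_le_iff₀ (by positivity)]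
    linarith
  have h7 : 0 ≤ Real.arccos (699 / 1000) / (2 * Real.pi) := by positivity
  have h8 : Real.arccos (699 / 1000) / (2 * Real.pi) * Real.exp (-(2 / 9)) ≤
      127 / 1000 * (802 / 1000) :=
    mul_le_mul h6 h4 (le_of_lt h5) (by norm_num)
  rw [lt_min_iff]
  push_cast
  constructor <;> linarith

end Pool.Agent.H49.FR
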