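import Pool.Agent.H49.FR.Main5
import Pool.Agent.H49.FR.Wave
import Pool.Agent.H49.FR.NumW

/-!
# Module Fin: the final statement
-/

set_option autoImplicit false

open Finset

namespace Pool.Agent.H49.FR

theorem final : ∃ c : ℝ, 0 < c ∧ ∃ n₀ : ℕ, ∀ d a b : ℕ,
      (d = 5 ∧ a = 3 ∧ b = 3) ∨ (d = 6 ∧ a = 3 ∧ b = 3) ∨ (d = 7 ∧ a = 3 ∧ b = 4) →
      ∀ (V : Type) [Fintype V] [DecidableEq V] (G : SimpleGraph V) [DecidableRel G.Adj],
      G.IsRegularOfDegree d → n₀ < Fintype.card V →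
      ∃ A : Finset V, c * Fintype.card V < A.card ∧ c * Fintype.card V < (Aᶜ).card ∧
        ∀ v : V, (v ∈ A → a ≤ (G.neighborFinset v ∩ A).card) ∧
          (v ∉ A → b ≤ (G.neighborFinset v ∩ Aᶜ).card) := by
  obtain ⟨n5, h5⟩ := main5
  obtain ⟨c6, hc6, n6, h6⟩ := wave (d := 6) (a := 3) (b := 3) (p := 2) (q := 2) (by norm_num)
    (by norm_num) (by norm_num) (by norm_num) (by norm_num) six_rho six_num
  obtain ⟨c7, hc7, n7, h7⟩ := wave (d := 7) (a := 3) (b := 4) (p := 3) (q := 1) (by norm_num)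
    (by norm_num) (by norm_num) (by norm_num) (by norm_num) seven_rho seven_num
  set c : ℝ := min (1 / 2000) (min c6 c7) with hc
  have hc0 : 0 < c := lt_min (by norm_num) (lt_min hc6 hc7)
  refine ⟨c, hc0, max n5 (max n6 n7), ?_⟩
  intro d a b hd V _ _ G _ hreg hn
  have hn0 : (0 : ℝ) ≤ Fintype.card V := Nat.cast_nonneg _
  have e5 : c ≤ 1 / 2000 := min_le_left _ _
  have e6 : c ≤ c6 := (min_le_right _ _).trans (min_le_left _ _)
  have e7 : c ≤ c7 := (min_le_right _ _).trans (min_le_right _ _)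
  have m5 : n5 < Fintype.card V := lt_of_le_of_lt (le_max_left _ _) hn
  have m6 : n6 < Fintype.card V :=
    lt_of_le_of_lt ((le_max_left _ _).trans (le_max_right _ _)) hn
  have m7 : n7 < Fintype.card V :=
    lt_of_le_of_lt ((le_max_right _ _).trans (le_max_right _ _)) hn
  rcases hd with ⟨rfl, rfl, rfl⟩ | ⟨rfl, rfl, rfl⟩ | ⟨rfl, rfl, rfl⟩
  · obtain ⟨A, hA1, hA2, hA⟩ := h5 V G hreg m5
    exact ⟨A, lt_of_le_of_lt (mul_le_mul_of_nonneg_right e5 hn0) hA1,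
      lt_of_le_of_lt (mul_le_mul_of_nonneg_right e5 hn0) hA2, fun v => hA v⟩
  · obtain ⟨A, hA1, hA2, hA⟩ := h6 V G hreg m6
    exact ⟨A, lt_of_le_of_lt (mul_le_mul_of_nonneg_right e6 hn0) hA1,
      lt_of_le_of_lt (mul_le_mul_of_nonneg_right e6 hn0) hA2, fun v => hA v⟩
  · obtain ⟨A, hA1, hA2, hA⟩ := h7 V G hreg m7
    exact ⟨A, lt_of_le_of_lt (mul_le_mul_of_nonneg_right e7 hn0) hA1,
      lt_of_le_of_lt (mul_le_mul_of_nonneg_right e7 hn0) hA2, fun v => hA v⟩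

end Pool.Agent.H49.FR
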