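import Pool.Agent.H49.FR.Trig
import Pool.Agent.H49.FR.NumG

/-!
# Module NumO: the numerical conditions for degree seven and nine

* `seven_o`: `arccos 0.699 ≤ 0.7969`, `7 · 0.7969/(2π) ≤ 0.8879 < 3 (1/2 - 1/5) = 0.9`.
* `nine_rho`: `2 √8 / 9 = 0.62854`. `nine_o`: `arccos 0.628 ≤ 0.8919` (true 0.891809), `9 · 0.8919/(2π) ≤ 1.2776 < 3 (1/2 - 1/14) = 1.2857`.
-/

set_option autoImplicit false

open Finset MeasureTheory ProbabilityTheory

namespace Pool.Agent.H49.FR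

theorem seven_o : ((7 : ℕ) : ℝ) * (Real.arccos (699 / 1000) / (2 * Real.pi)) < 3 * (1 / 2 - 1 / 5) := by
  have h1 : Real.arccos (699 / 1000) ≤ 7969 / 10000 :=
    arccos_le_of (by norm_num) (by norm_num) (by norm_num)
  have hpi := Real.pi_gt_d6
  have h2 : 0 < 2 * Real.pi := by linarith
  rw [← mul_div_assoc, div_lt_iff₀ h2]
  push_cast
  norm_num at hpi h1 ⊢
  linarith

theorem nine_rho : (628 / 1000 : ℝ) < 2 * Real.sqrt (((9 : ℕ) : ℝ) - 1) / ((9 : ℕ) : ℝ) := by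
  have h1 : (28275 / 10000 : ℝ) < Real.sqrt (((9 : ℕ) : ℝ) - 1) := by
    apply Real.lt_sqrt_of_sq_lt
    norm_num
  have h2 : (0 : ℝ) < ((9 : ℕ) : ℝ) := by norm_num
  rw [lt_div_iff₀ h2]
  have h3 : ((9 : ℕ) : ℝ) = 9 := by norm_num
  rw [h3] at h1 ⊢
  linarith

theorem nine_o : ((9 : ℕ) : ℝ) * (Real.arccos (628 / 1000) / (2 * Real.pi)) < 3 * (1 / 2 - 1 / 14) := by
  have h1 : Real.arccos (628 / 1000) ≤ 8919 / 10000 :=
    arccos_le_of (by norm_num) (by norm_num) (by norm_num)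
  have hpi := Real.pi_gt_d6
  have h2 : 0 < 2 * Real.pi := by linarith
  rw [← mul_div_assoc, div_lt_iff₀ h2]
  push_cast
  norm_num at hpi h1 ⊢
  linarith

end Pool.Agent.H49.FR
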