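import Pool.Agent.H49.FR.WaveO
import Pool.Agent.H49.FR.NumO
import Pool.Agent.H49.FR.NumW

/-!
# Module FinO: degree seven and nine
-/

set_option autoImplicit false

open Finset

namespace Pool.Agent.H49.FR

theorem final_odd : ∃ n₀ : ℕ, ∀ (d a : ℕ) (c : ℝ),
      (d = 7 ∧ a = 3 ∧ c = 1 / 5) ∨ (d = 9 ∧ a = 4 ∧ c = 1 / 14) →
      ∀ (V : Type) [Fintype V] [DecidableEq V] (G : SimpleGraph V) [DecidableRel G.Adj],
      G.IsRegularOfDegree d → n₀ < Fintype.card V →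
      ∃ A : Finset V, c * Fintype.card V ≤ A.card ∧ c * Fintype.card V ≤ (Aᶜ).card ∧
        ∀ v : V, (v ∈ A → a ≤ (G.neighborFinset v ∩ A).card) ∧
          (v ∉ A → a + 1 ≤ (G.neighborFinset v ∩ Aᶜ).card) := by
  obtain ⟨n7, h7⟩ := wave_odd (d := 7) (a := 3) (by norm_num) (by norm_num) seven_rho seven_o
  obtain ⟨n9, h9⟩ := wave_odd (d := 9) (a := 4) (by norm_num) (by norm_num) nine_rho nine_o
  refine ⟨max n7 n9, ?_⟩
  intro d a c hd V _ _ G _ hreg hn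
  rcases hd with ⟨rfl, rfl, rfl⟩ | ⟨rfl, rfl, rfl⟩
  · exact h7 V G hreg (lt_of_le_of_lt (le_max_left _ _) hn)
  · exact h9 V G hreg (lt_of_le_of_lt (le_max_right _ _) hn)

end Pool.Agent.H49.FR
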