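import Pool.Agent.H49.FR.Pot
import Pool.Agent.H49.FR.Cov
import Pool.Agent.H49.FR.ExpB

/-!
# Module Main5: every large 5-regular graph has an internal partition with both parts of linear size
-/

set_option autoImplicit false

open Finset MeasureTheory ProbabilityTheory

namespace Pool.Agent.H49.FR

lemma card_Sd_eq {V : Type} [Fintype V] [DecidableEq V] (G : SimpleGraph V) [DecidableRel G.Adj]
    (t : ℝ) (ω : EuclideanSpace ℝ V) :
    ((Fx G t ω).card : ℝ) = (Sd t ω).card - (Us G t ω).card := by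
  have h := card_Fx G t ω
  have h2 : ((Fx G t ω).card : ℝ) + (Us G t ω).card = (Sd t ω).card := by exact_mod_cast h
  linarith

theorem main5 : ∃ n₀ : ℕ, ∀ (V : Type) [Fintype V] [DecidableEq V] (G : SimpleGraph V)
    [DecidableRel G.Adj], G.IsRegularOfDegree 5 → n₀ < Fintype.card V →
    ∃ A : Finset V, (1 / 2000 : ℝ) * Fintype.card V < A.card ∧
      (1 / 2000 : ℝ) * Fintype.card V < (Aᶜ).card ∧ Part G 3 3 A := by
  have hsq : Real.sqrt (((5 : ℕ) : ℝ) - 1) = 2 := by
    rw [show (((5 : ℕ) : ℝ) - 1) = 2 ^ 2 by norm_num]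
    exact Real.sqrt_sq (by norm_num)
  obtain ⟨r, hr⟩ := exists_cov (d := 5) (by norm_num) (ρ := 7999 / 10000) (by
    rw [hsq]; norm_num)
  refine ⟨4000000 * 6 ^ (2 * r + 2), ?_⟩
  intro V _ _ G _ hreg hn
  obtain ⟨S, hS⟩ := hr V G hreg
  by_contra hcon
  set n : ℝ := (Fintype.card V : ℝ) with hn'
  set μ := multivariateGaussian (0 : EuclideanSpace ℝ V) S with hμ
  set t : ℝ := 39 / 1000 with ht
  set m : ℝ := ∑ v, μ.real {ω | v ∈ Fx G t ω} with hm
  set Φ : ℝ := (gaussianReal 0 1).real (Set.Ioi (-t)) with hΦ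
  have hΦ1 : 515546 / 1000000 ≤ Φ := half_lower
  have hΦ2 : Φ ≤ 51556 / 100000 := half_upper
  have hn0 : 0 < n := by
    have h1 : 0 < Fintype.card V := lt_of_le_of_lt (Nat.zero_le _) hn
    rw [hn']
    exact_mod_cast h1
  have key : ∀ ω : EuclideanSpace ℝ V,
      (9999 / 10000 : ℝ) * (min m (n - m) - |((Fx G t ω).card : ℝ) - m|) - 1 / 2000 * n ≤
        (cut G (Sd t ω) : ℝ) - (Us G t ω).card := by
    intro ω
    have h1 : (9999 / 10000 : ℝ) * min ((Fx G t ω).card : ℝ) (n - (Fx G t ω).card) - 1 / 2000 * n ≤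
        (cut G (Fx G t ω) : ℝ) := by
      by_contra h
      have h' := lt_of_not_ge h
      obtain ⟨A, hA1, hA2, hA3⟩ := exists_part G (d := 5) (a := 3) (b := 3) (p := 1) (q := 1) hreg
        (by norm_num) (by norm_num) (by norm_num) (by norm_num)
        (lam := 9999 / 10000) (gam := 1 / 2000) (by norm_num) (by norm_num) (by norm_num) (Fx G t ω)
        (by simpa using h')
      exact hcon ⟨A, by simpa using hA1, by simpa using hA2, hA3⟩
    have h2 : (cut G (Fx G t ω) : ℝ) + (Us G t ω).card ≤ cut G (Sd t ω) := by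
      exact_mod_cast cut_fix G hreg t ω
    have h3 : min m (n - m) - |((Fx G t ω).card : ℝ) - m| ≤
        min ((Fx G t ω).card : ℝ) (n - (Fx G t ω).card) := by
      have ha := abs_le.1 (le_refl |((Fx G t ω).card : ℝ) - m|)
      refine le_min ?_ ?_
      · have := min_le_left m (n - m)
        linarith [ha.1]
      · have := min_le_right m (n - m)
        linarith [ha.2]
    linarith
  have iF := integrable_card_Fx G S t
  have iS := integrable_card_Sd S t
  have iU := integrable_card_Us G S t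
  have iC := integrable_cut_Sd G S t
  have iA : Integrable (fun ω : EuclideanSpace ℝ V => |((Fx G t ω).card : ℝ) - m|) μ :=
    (iF.sub (integrable_const m)).abs
  have hint := integral_mono (μ := μ)
    ((((integrable_const (min m (n - m))).sub iA).const_mul (9999 / 10000 : ℝ)).sub
      (integrable_const (1 / 2000 * n))) (iC.sub iU) key
  have e1 : ∫ ω, ((9999 / 10000 : ℝ) * (min m (n - m) - |((Fx G t ω).card : ℝ) - m|) -
      1 / 2000 * n) ∂μ = (9999 / 10000 : ℝ) * (min m (n - m) -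
        ∫ ω, |((Fx G t ω).card : ℝ) - m| ∂μ) - 1 / 2000 * n := by
    have iB : Integrable (fun ω : EuclideanSpace ℝ V =>
        (9999 / 10000 : ℝ) * (min m (n - m) - |((Fx G t ω).card : ℝ) - m|)) μ :=
      ((integrable_const (min m (n - m))).sub iA).const_mul (9999 / 10000 : ℝ)
    rw [integral_sub iB (integrable_const (1 / 2000 * n)), integral_const_mul,
      integral_sub (integrable_const (min m (n - m))) iA]
    simp
  have e2 : ∫ ω, ((cut G (Sd t ω) : ℝ) - (Us G t ω).card) ∂μ =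
      (∫ ω, (cut G (Sd t ω) : ℝ) ∂μ) - ∫ ω, ((Us G t ω).card : ℝ) ∂μ := integral_sub iC iU
  have hint2 : (9999 / 10000 : ℝ) * (min m (n - m) -
        ∫ ω, |((Fx G t ω).card : ℝ) - m| ∂μ) - 1 / 2000 * n ≤
      (∫ ω, (cut G (Sd t ω) : ℝ) ∂μ) - ∫ ω, ((Us G t ω).card : ℝ) ∂μ := by
    rw [← e1, ← e2]
    exact hint
  set C := ∫ ω, (cut G (Sd t ω) : ℝ) ∂μ with hC
  set U := ∫ ω, ((Us G t ω).card : ℝ) ∂μ with hU
  have b1 : C ≤ 51222 / 100000 * n := bnd_one G hreg hS
  have b2 : C - 2 * U ≤ 482 / 1000 * n := bnd_two G hreg hS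
  have hU0 : 0 ≤ U := integral_nonneg fun ω => Nat.cast_nonneg _
  have hUn : U ≤ n := by
    have h1 : U ≤ ∫ _ω : EuclideanSpace ℝ V, n ∂μ := by
      refine integral_mono iU (integrable_const _) fun ω => ?_
      change ((Us G t ω).card : ℝ) ≤ n
      rw [hn']
      exact_mod_cast Finset.card_le_univ _
    simpa using h1
  have hmU : m = n * Φ - U := by
    have h1 : ∫ ω, ((Fx G t ω).card : ℝ) ∂μ = m := exp_Fx G S t
    have h2 : ∫ ω, ((Sd t ω).card : ℝ) ∂μ = n * Φ := exp_Sd hS.psd hS.diag t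
    have h3 : ∫ ω, ((Fx G t ω).card : ℝ) ∂μ = (∫ ω, ((Sd t ω).card : ℝ) ∂μ) - U := by
      rw [hU, ← integral_sub iS iU]
      exact integral_congr_ae (Filter.Eventually.of_forall fun ω => card_Sd_eq G t ω)
    linarith
  have hD : ∫ ω, |((Fx G t ω).card : ℝ) - m| ∂μ ≤ 1 / 2000 * n := by
    refine (conc_Fx G hreg hS t).trans ?_
    rw [← hn']
    have h6 : (((5 : ℕ) : ℝ) + 1) = 6 := by norm_num
    rw [h6]
    have h1 : (6 : ℝ) ^ (2 * r + 2) * 4000000 ≤ n := by
      have h2 : (((4000000 * 6 ^ (2 * r + 2) : ℕ)) : ℝ) ≤ n := by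
        rw [hn']
        exact_mod_cast hn.le
      push_cast at h2
      linarith
    rw [show (1 / 2000 : ℝ) * n = Real.sqrt ((1 / 2000 * n) ^ 2) from
      (Real.sqrt_sq (by positivity)).symm]
    refine Real.sqrt_le_sqrt ?_
    nlinarith
  have hfin : (9999 / 10000 : ℝ) * min m (n - m) ≤ C - U + 1 / 1000 * n := by
    have := mul_le_mul_of_nonneg_left hD (show (0 : ℝ) ≤ 9999 / 10000 by norm_num)
    linarith
  rcases min_choice m (n - m) with h | h
  · rw [h, hmU] at hfin
    nlinarith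
  · rw [h, hmU] at hfin
    nlinarith

end Pool.Agent.H49.FR
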