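import Pool.Agent.H49.FR.WaveG
import Pool.Agent.H49.FR.Main5
import Pool.Agent.H49.FR.FinO

/-!
# Module FinX: all four cases with explicit sizes of the parts

`six_num_g`: `6 arccos(0.745)/(2π) ≤ 6 · 0.7303/(2π) = 0.6974 < 1 - 3/10`, so the parts have more than `(3/20) n` vertices.
-/

set_option autoImplicit false

open Finset MeasureTheory ProbabilityTheory

namespace Pool.Agent.H49.FR

theorem six_num_g :
    ((6 : ℕ) : ℝ) * (Real.arccos (745 / 1000) / (2 * Real.pi) * Real.exp (-(0 : ℝ) ^ 2 / 2)) <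
    min (((2 : ℕ) : ℝ) * (gaussianReal 0 1).real (Set.Ioi (-0)))
      (((2 : ℕ) : ℝ) * (1 - (gaussianReal 0 1).real (Set.Ioi (-0)))) - 3 / 10 := by
  have h1 : Real.arccos (745 / 1000) ≤ 7303 / 10000 := by
    apply arccos_le_of (by norm_num) (by norm_num)
    norm_num
  have hpi := Real.pi_gt_d6
  have h2 : (-(0:ℝ)) = 0 := neg_zero
  have h3 : -(0 : ℝ) ^ 2 / 2 = 0 := by norm_num
  rw [h3, Real.exp_zero, h2, gauss_half]
  have h4 : Real.arccos (745 / 1000) / (2 * Real.pi) < 7 / 60 := by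
    rw [div_lt_iff₀ (by positivity)]
    norm_num at hpi ⊢
    linarith
  rw [lt_sub_iff_add_lt, lt_min_iff]
  push_cast
  constructor <;> linarith

theorem final_x : ∃ n₀ : ℕ, ∀ (d a b : ℕ) (c : ℝ),
      (d = 5 ∧ a = 3 ∧ b = 3 ∧ c = 1 / 2000) ∨ (d = 6 ∧ a = 3 ∧ b = 3 ∧ c = 3 / 20) ∨
        (d = 7 ∧ a = 3 ∧ b = 4 ∧ c = 1 / 5) ∨ (d = 9 ∧ a = 4 ∧ b = 5 ∧ c = 1 / 14) →
      ∀ (V : Type) [Fintype V] [DecidableEq V] (G : SimpleGraph V) [DecidableRel G.Adj],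
      G.IsRegularOfDegree d → n₀ < Fintype.card V →
      ∃ A : Finset V, c * Fintype.card V ≤ A.card ∧ c * Fintype.card V ≤ (Aᶜ).card ∧
        ∀ v : V, (v ∈ A → a ≤ (G.neighborFinset v ∩ A).card) ∧
          (v ∉ A → b ≤ (G.neighborFinset v ∩ Aᶜ).card) := by
  obtain ⟨n5, h5⟩ := main5
  obtain ⟨n6, h6⟩ := wave_g (d := 6) (a := 3) (b := 3) (p := 2) (q := 2) (by norm_num)
    (by norm_num) (by norm_num) (by norm_num) (by norm_num) (by norm_num) six_rho six_num_g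
  obtain ⟨n7, h7⟩ := final_odd
  refine ⟨max n5 (max n6 n7), ?_⟩
  intro d a b c hd V _ _ G _ hreg hn
  have m5 : n5 < Fintype.card V := lt_of_le_of_lt (le_max_left _ _) hn
  have m6 : n6 < Fintype.card V :=
    lt_of_le_of_lt ((le_max_left _ _).trans (le_max_right _ _)) hn
  have m7 : n7 < Fintype.card V :=
    lt_of_le_of_lt ((le_max_right _ _).trans (le_max_right _ _)) hn
  rcases hd with ⟨rfl, rfl, rfl, rfl⟩ | ⟨rfl, rfl, rfl, rfl⟩ | ⟨rfl, rfl, rfl, rfl⟩ |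
    ⟨rfl, rfl, rfl, rfl⟩
  · obtain ⟨A, hA1, hA2, hA⟩ := h5 V G hreg m5
    exact ⟨A, hA1.le, hA2.le, fun v => hA v⟩
  · obtain ⟨A, hA1, hA2, hA⟩ := h6 V G hreg m6
    refine ⟨A, ?_, ?_, fun v => hA v⟩
    · push_cast at hA1
      linarith
    · push_cast at hA2
      linarith
  · exact h7 7 3 (1 / 5) (Or.inl ⟨rfl, rfl, rfl⟩) V G hreg m7
  · exact h7 9 4 (1 / 14) (Or.inr ⟨rfl, rfl, rfl⟩) V G hreg m7

end Pool.Agent.H49.FR
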