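import Pool.Agent.H49.FR.Ball

/-!
# Module NW: non-backtracking walks

* `nw_split`: for adjacent `u, v`: `nw (k+1) v w = nb (k+1) u v w + nw-part through u = nb (k+1) u v w... ` precisely
  `nw k v w = ∑_{x ~ v} nb k v x w = nb k v u w + ∑_{x ~ v, x ≠ u} nb k v x w = nb k v u w + nb (k+1) u v w`.
* `nb_sum`: induction on `k`: for adjacent `u, v` the vertex `u` has `d - 1` neighbours other than `v`: `∑_w nb k v u w = (d-1)^k`.
* `nw_sum`: `∑_w nw k v w = d (d-1)^k`.
* `nb_ball`: `nb k v u w ≠ 0 → w ∈ ball u k` (use `ball_trans`, `ball_nbr`), `nw_ball`: `nw k v w ≠ 0 → w ∈ ball v (k+1)`.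
-/

set_option autoImplicit false

open Finset

namespace Pool.Agent.H49.FR

variable {V : Type} [Fintype V] [DecidableEq V] (G : SimpleGraph V) [DecidableRel G.Adj]

theorem nw_split {u v : V} (h : G.Adj u v) (k : ℕ) (w : V) :
    nw G k v w = nb G (k + 1) u v w + nb G k v u w := by
  have hu : u ∈ G.neighborFinset v := by
    rw [SimpleGraph.mem_neighborFinset]
    exact h.symm
  show ∑ x ∈ G.neighborFinset v, nb G k v x w = ∑ x ∈ (G.neighborFinset v).erase u, nb G k v x w + nb G k v u w
  exact (Finset.sum_erase_add _ _ hu).symm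

theorem nb_sum {d : ℕ} (hreg : G.IsRegularOfDegree d) {u v : V} (h : G.Adj u v) (k : ℕ) :
    ∑ w, nb G k v u w = (d - 1) ^ k := by
  induction k generalizing u v with
  | zero =>
    show ∑ w, (if w = u then 1 else 0) = _
    rw [Finset.sum_ite_eq' Finset.univ u, if_pos (Finset.mem_univ _), pow_zero]
  | succ k ih =>
    show ∑ w, ∑ x ∈ (G.neighborFinset u).erase v, nb G k u x w = _
    rw [Finset.sum_comm]
    have h1 : ∀ x ∈ (G.neighborFinset u).erase v, ∑ w, nb G k u x w = (d - 1) ^ k := by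
      intro x hx
      have hx2 := (Finset.mem_erase.1 hx).2
      rw [SimpleGraph.mem_neighborFinset] at hx2
      exact ih hx2.symm
    rw [Finset.sum_congr rfl h1, Finset.sum_const, Finset.card_erase_of_mem (by
      rw [SimpleGraph.mem_neighborFinset]
      exact h), SimpleGraph.card_neighborFinset_eq_degree, hreg.degree_eq, smul_eq_mul, pow_succ, mul_comm]

theorem nw_sum {d : ℕ} (hreg : G.IsRegularOfDegree d) (v : V) (k : ℕ) :
    ∑ w, nw G k v w = d * (d - 1) ^ k := by
  show ∑ w, ∑ u ∈ G.neighborFinset v, nb G k v u w = _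
  rw [Finset.sum_comm]
  have h1 : ∀ x ∈ G.neighborFinset v, ∑ w, nb G k v x w = (d - 1) ^ k := by
    intro x hx
    rw [SimpleGraph.mem_neighborFinset] at hx
    exact nb_sum G hreg hx.symm k
  rw [Finset.sum_congr rfl h1, Finset.sum_const, SimpleGraph.card_neighborFinset_eq_degree, hreg.degree_eq,
    smul_eq_mul]

theorem nb_ball {k : ℕ} {v u w : V} (h : nb G k v u w ≠ 0) : w ∈ ball G u k := by
  induction k generalizing v u with
  | zero =>
    have h1 : w = u := by
      by_contra hne
      exact h (if_neg hne)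
    rw [h1]
    exact self_mem_ball G u 0
  | succ k ih =>
    have h1 : ∑ x ∈ (G.neighborFinset u).erase v, nb G k u x w ≠ 0 := h
    obtain ⟨x, hx, hx0⟩ := Finset.exists_ne_zero_of_sum_ne_zero h1
    have hx2 := (Finset.mem_erase.1 hx).2
    rw [SimpleGraph.mem_neighborFinset] at hx2
    have h2 := ball_trans G (ball_nbr G (self_mem_ball G u 0) hx2) (ih hx0)
    rw [zero_add, add_comm 1 k] at h2
    exact h2

theorem nw_ball {k : ℕ} {v w : V} (h : nw G k v w ≠ 0) : w ∈ ball G v (k + 1) := by
  have h1 : ∑ x ∈ G.neighborFinset v, nb G k v x w ≠ 0 := h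
  obtain ⟨x, hx, hx0⟩ := Finset.exists_ne_zero_of_sum_ne_zero h1
  rw [SimpleGraph.mem_neighborFinset] at hx
  have h2 := ball_trans G (ball_nbr G (self_mem_ball G v 0) hx) (nb_ball G hx0)
  rw [zero_add, add_comm 1 k] at h2
  exact h2

end Pool.Agent.H49.FR
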