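import Pool.Agent.H49.FR.Trig
import Pool.Agent.H49.FR.NumG

/-!
# Module NumC: the inequality in one variable

`t = 0.039`, `c = 0.059843`, `e = 0.15²/(2√(2π)) ≤ 0.0044883`, `gg x = 2 (t (1-x) c + x e)/(√(2π) √(1-x²))`.
CLAIM for `x ∈ [0.7999, 0.993]`: `arccos x / (2π) - 0.05947/5 + gg x ≤ 0.0964`.
On an interval `[a, b]`: `arccos x ≤ arccos a` and `gg x ≤ 2 (t (1-a) c + b e)/(√(2π) √(1-b²))`:
[.7999,.82]: .102443 - .011894 + .005783 = .09634; [.82,.86]: .09696 - .01189 + .00660 = .0917; [.86,.92]: .0825; [.92,.98]: .0707;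
[.98,.993]: .0503. `arccos` bounds from `Trig` (`arccos_le_of`), `π > 3.141592`, `sqrt_two_pi`.
`arccos_a`: `arccos x / (2π) ≤ 0.102444` for `x ≥ 0.7999` (`arccos .7999 = 0.643668`), `arccos_b`: `arccos x/(2π) ≤ 0.0190` for `x ≥ 0.993`
(`arccos .993 = 0.118390`).
-/

set_option autoImplicit false

open Finset MeasureTheory ProbabilityTheory

namespace Pool.Agent.H49.FR

private lemma arc_div {x a β : ℝ} (ha : a ≤ x) (hβ0 : 0 ≤ β) (hβ3 : β ≤ 3)
    (hβ : 1 - β ^ 2 / 2 + β ^ 4 / 24 - β ^ 6 / 720 + β ^ 8 / 40320 ≤ a) :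
    Real.arccos x / (2 * Real.pi) ≤ β / (2 * (3141592 / 1000000)) := by
  have h1 : Real.arccos x ≤ β := arccos_le_of hβ0 hβ3 (hβ.trans ha)
  have h2 := Real.pi_gt_d6
  have h3 : (3141592 / 1000000 : ℝ) ≤ Real.pi := by
    norm_num at h2 ⊢
    linarith
  apply div_le_div₀ hβ0 h1 (by norm_num)
  linarith

private lemma step {x a b β r : ℝ} (ha : a ≤ x) (hb : x ≤ b) (h0 : 0 ≤ a) (hb1 : b ≤ 1) (hβ0 : 0 ≤ β)
    (hβ3 : β ≤ 3) (hβ : 1 - β ^ 2 / 2 + β ^ 4 / 24 - β ^ 6 / 720 + β ^ 8 / 40320 ≤ a)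
    (hr : 0 < r) (hr2 : r ^ 2 ≤ 1 - b ^ 2)
    (hfin : β / (2 * (3141592 / 1000000)) - 5947 / 500000 +
      2 * ((39 / 1000 * (1 - a) * (59843 / 1000000) + b * ((15 / 100) ^ 2 / (2 * (250662 / 100000)))) /
        ((250662 / 100000) * r)) ≤ 964 / 10000) :
    Real.arccos x / (2 * Real.pi) - 5947 / 500000 +
      2 * ((39 / 1000 * (1 - x) * (59843 / 1000000) + x * ((15 / 100) ^ 2 / (2 * Real.sqrt (2 * Real.pi)))) /
        (Real.sqrt (2 * Real.pi) * Real.sqrt (1 - x ^ 2))) ≤ 964 / 10000 := by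
  have h1 := arc_div ha hβ0 hβ3 hβ
  obtain ⟨h2, -⟩ := sqrt_two_pi
  set s := Real.sqrt (2 * Real.pi) with hs
  have hx0 : 0 ≤ x := h0.trans ha
  have hb0 : 0 ≤ b := hx0.trans hb
  have hrx : r ≤ Real.sqrt (1 - x ^ 2) := by
    apply Real.le_sqrt_of_sq_le
    have : x ^ 2 ≤ b ^ 2 := by gcongr
    linarith
  have hnum : 39 / 1000 * (1 - x) * (59843 / 1000000) + x * ((15 / 100) ^ 2 / (2 * s)) ≤
      39 / 1000 * (1 - a) * (59843 / 1000000) + b * ((15 / 100) ^ 2 / (2 * (250662 / 100000))) := by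
    have e1 : ((15 / 100) ^ 2 / (2 * s) : ℝ) ≤ (15 / 100) ^ 2 / (2 * (250662 / 100000)) := by
      apply div_le_div_of_nonneg_left (by norm_num) (by norm_num)
      linarith
    have e2 : x * ((15 / 100) ^ 2 / (2 * s)) ≤ b * ((15 / 100) ^ 2 / (2 * (250662 / 100000))) := by
      apply mul_le_mul hb e1 _ hb0
      positivity
    linarith
  have hden : (250662 / 100000) * r ≤ s * Real.sqrt (1 - x ^ 2) := by
    apply mul_le_mul h2.le hrx hr.le
    linarith
  have hq : (39 / 1000 * (1 - x) * (59843 / 1000000) + x * ((15 / 100) ^ 2 / (2 * s))) /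
        (s * Real.sqrt (1 - x ^ 2)) ≤
      (39 / 1000 * (1 - a) * (59843 / 1000000) + b * ((15 / 100) ^ 2 / (2 * (250662 / 100000)))) /
        ((250662 / 100000) * r) := by
    apply div_le_div₀ _ hnum (by positivity) hden
    have : 0 ≤ 1 - a := by linarith
    positivity
  linarith

theorem num_mid {x : ℝ} (h1 : 7999 / 10000 ≤ x) (h2 : x ≤ 993 / 1000) :
    Real.arccos x / (2 * Real.pi) - 5947 / 500000 +
      2 * ((39 / 1000 * (1 - x) * (59843 / 1000000) + x * ((15 / 100) ^ 2 / (2 * Real.sqrt (2 * Real.pi)))) /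
        (Real.sqrt (2 * Real.pi) * Real.sqrt (1 - x ^ 2))) ≤ 964 / 10000 := by
  rcases le_total x (82 / 100) with h | h
  · exact step (β := 643671 / 1000000) (r := 5723 / 10000) h1 h (by norm_num) (by norm_num) (by norm_num) (by norm_num)
      (by norm_num) (by norm_num) (by norm_num) (by norm_num)
  rcases le_total x (86 / 100) with h' | h'
  · exact step (β := 609389 / 1000000) (r := 5102 / 10000) h h' (by norm_num) (by norm_num) (by norm_num) (by norm_num)
      (by norm_num) (by norm_num) (by norm_num) (by norm_num)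
  rcases le_total x (92 / 100) with h'' | h''
  · exact step (β := 535530 / 1000000) (r := 3919 / 10000) h' h'' (by norm_num) (by norm_num) (by norm_num) (by norm_num)
      (by norm_num) (by norm_num) (by norm_num) (by norm_num)
  rcases le_total x (98 / 100) with h3 | h3
  · exact step (β := 402719 / 1000000) (r := 1989 / 10000) h'' h3 (by norm_num) (by norm_num) (by norm_num) (by norm_num)
      (by norm_num) (by norm_num) (by norm_num) (by norm_num)
  · exact step (β := 200338 / 1000000) (r := 1181 / 10000) h3 h2 (by norm_num) (by norm_num) (by norm_num) (by norm_num)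
      (by norm_num) (by norm_num) (by norm_num) (by norm_num)

theorem arccos_a {x : ℝ} (h1 : 7999 / 10000 ≤ x) : Real.arccos x / (2 * Real.pi) ≤ 102444 / 1000000 := by
  refine (arc_div (β := 643671 / 1000000) h1 (by norm_num) (by norm_num) (by norm_num)).trans ?_
  norm_num

theorem arccos_b {x : ℝ} (h1 : 993 / 1000 ≤ x) : Real.arccos x / (2 * Real.pi) ≤ 190 / 10000 := by
  refine (arc_div (β := 1190 / 10000) h1 (by norm_num) (by norm_num) (by norm_num)).trans ?_
  norm_num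

end Pool.Agent.H49.FR
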