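import Pool.Agent.H49.FR.Defs

/-!
# Module Pot: the potential

`nin G v A = ∑ w ∈ A, if G.Adj v w then 1 else 0`. `cut_erase`, `cut_insert`: expand `cut A = ∑_{u ∈ A} ∑_{w ∈ Aᶜ} [u ~ w]`.
`exists_part`: `F A = cut A - lam * min (p |A|) (q (n - |A|))`; take a minimiser `A` of `F` over all subsets (`Finset.exists_min_image` on
`univ : Finset (Finset V)`). `F A ≤ F A₀ < - gam n` and `cut A ≥ 0`, `lam ≤ 1`, so `gam n < lam min ≤ min`.
Let `v ∈ A` with `nin v A < a`. The degree is `d = 2a + p - 2`, so `nin v A + p ≤ nin v Aᶜ`, `cut (A.erase v) ≤ cut A - p`, and `min` drops by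
at most `p`, so `F (A.erase v) ≤ F A - p + lam p < F A`, contradiction. For `v ∉ A` with `nin v Aᶜ < b` use `insert v A` in the same way, with `q`.
-/

set_option autoImplicit false

open Finset

namespace Pool.Agent.H49.FR

variable {V : Type} [Fintype V] [DecidableEq V] (G : SimpleGraph V) [DecidableRel G.Adj]

lemma nin_add (v : V) (A : Finset V) : nin G v A + nin G v Aᶜ = G.degree v := by
  unfold nin
  rw [← Finset.card_union_of_disjoint, ← Finset.inter_union_distrib_left, Finset.union_compl,
    Finset.inter_univ, SimpleGraph.card_neighborFinset_eq_degree]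
  rw [Finset.disjoint_left]
  intro x h1 h2
  exact (Finset.mem_compl.1 (Finset.mem_inter.1 h2).2) (Finset.mem_inter.1 h1).2

private lemma nin_eq_sum (v : V) (A : Finset V) : nin G v A = ∑ w ∈ A, if G.Adj v w then 1 else 0 := by
  unfold nin
  rw [Finset.sum_ite, Finset.sum_const_zero, add_zero, Finset.sum_const, smul_eq_mul, mul_one]
  congr 1
  ext w
  simp [and_comm]

private lemma nin_insert {u v : V} {B : Finset V} (hv : v ∉ B) :
    nin G u (insert v B) = nin G u B + if G.Adj u v then 1 else 0 := by
  rw [nin_eq_sum, nin_eq_sum, Finset.sum_insert hv, add_comm]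

private lemma nin_erase_self (v : V) (A : Finset V) : nin G v (A.erase v) = nin G v A := by
  unfold nin
  congr 1
  ext w
  simp only [Finset.mem_inter, Finset.mem_erase, SimpleGraph.mem_neighborFinset]
  constructor
  · rintro ⟨h1, -, h2⟩
    exact ⟨h1, h2⟩
  · rintro ⟨h1, h2⟩
    exact ⟨h1, h1.ne', h2⟩

lemma cut_erase (A : Finset V) {v : V} (hv : v ∈ A) :
    cut G (A.erase v) + nin G v Aᶜ = cut G A + nin G v A := by
  have h1 : (A.erase v)ᶜ = insert v Aᶜ := Finset.compl_erase
  have hvc : v ∉ Aᶜ := by simpa using hv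
  have h2 : cut G (A.erase v) = ∑ u ∈ A.erase v, nin G u Aᶜ + nin G v (A.erase v) := by
    unfold cut
    rw [h1, nin_eq_sum G v (A.erase v), ← Finset.sum_add_distrib]
    refine Finset.sum_congr rfl fun u _ => ?_
    rw [nin_insert G hvc]
    simp only [G.adj_comm u v]
  have h3 : cut G A = nin G v Aᶜ + ∑ u ∈ A.erase v, nin G u Aᶜ := by
    unfold cut
    exact (Finset.add_sum_erase A (fun u => nin G u Aᶜ) hv).symm
  rw [nin_erase_self] at h2
  omega

lemma cut_insert (A : Finset V) {v : V} (hv : v ∉ A) :
    cut G (insert v A) + nin G v A = cut G A + nin G v Aᶜ := by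
  have h := cut_erase G (insert v A) (Finset.mem_insert_self v A)
  rw [Finset.erase_insert hv] at h
  have h1 : (insert v A)ᶜ = Aᶜ.erase v := by
    rw [Finset.compl_insert]
  rw [h1, nin_erase_self] at h
  have h2 : nin G v (insert v A) = nin G v A := by
    rw [nin_insert G hv]
    simp
  rw [h2] at h
  omega

theorem exists_part {d a b p q : ℕ} (hreg : G.IsRegularOfDegree d) (hp : 2 * a + p = d + 2)
    (hq : 2 * b + q = d + 2) (hp0 : 0 < p) (hq0 : 0 < q) {lam gam : ℝ} (hl : 0 ≤ lam) (hl1 : lam < 1)
    (hg : 0 ≤ gam) (A₀ : Finset V)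
    (h : (cut G A₀ : ℝ) < lam * min (p * (A₀.card : ℝ)) (q * ((Fintype.card V : ℝ) - A₀.card)) -
      gam * Fintype.card V) :
    ∃ A : Finset V, gam * Fintype.card V < p * (A.card : ℝ) ∧
      gam * Fintype.card V < q * ((Aᶜ).card : ℝ) ∧ Part G a b A := by
  obtain ⟨A, -, hA⟩ := Finset.exists_min_image (Finset.univ : Finset (Finset V))
    (fun A => (cut G A : ℝ) - lam * min (p * (A.card : ℝ)) (q * ((Fintype.card V : ℝ) - A.card)))
    ⟨A₀, Finset.mem_univ _⟩
  have hpr : (0 : ℝ) < p := by exact_mod_cast hp0
  have hqr : (0 : ℝ) < q := by exact_mod_cast hq0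
  have hcard : ((Aᶜ).card : ℝ) = (Fintype.card V : ℝ) - A.card := by
    rw [Finset.card_compl, Nat.cast_sub (Finset.card_le_univ A)]
  have hle : (A.card : ℝ) ≤ Fintype.card V := by exact_mod_cast Finset.card_le_univ A
  have h0 := hA A₀ (Finset.mem_univ _)
  have hmin0 : 0 ≤ min (p * (A.card : ℝ)) (q * ((Fintype.card V : ℝ) - A.card)) := by
    refine le_min (by positivity) (mul_nonneg hqr.le (by linarith))
  have hmin : gam * Fintype.card V < min (p * (A.card : ℝ)) (q * ((Fintype.card V : ℝ) - A.card)) := by
    have hc : (0 : ℝ) ≤ cut G A := Nat.cast_nonneg _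
    have h1 : lam * min (p * (A.card : ℝ)) (q * ((Fintype.card V : ℝ) - A.card))
        ≤ 1 * min (p * (A.card : ℝ)) (q * ((Fintype.card V : ℝ) - A.card)) :=
      mul_le_mul_of_nonneg_right hl1.le hmin0
    linarith
  refine ⟨A, lt_of_lt_of_le hmin (min_le_left _ _), ?_, ?_⟩
  · rw [hcard]
    exact lt_of_lt_of_le hmin (min_le_right _ _)
  · intro v
    have hdeg : nin G v A + nin G v Aᶜ = d := by
      rw [nin_add, hreg v]
    constructor
    · intro hv
      by_contra hc
      push Not at hc
      have h1 := cut_erase G A hv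
      have h2 : cut G (A.erase v) + p ≤ cut G A := by omega
      have h2' : (cut G (A.erase v) : ℝ) + p ≤ cut G A := by exact_mod_cast h2
      have h3 := hA (A.erase v) (Finset.mem_univ _)
      have h4 : ((A.erase v).card : ℝ) = A.card - 1 := by
        have h5 := Finset.card_erase_add_one hv
        have h6 : ((A.erase v).card : ℝ) + 1 = A.card := by exact_mod_cast h5
        linarith
      have h5 : min (p * (A.card : ℝ)) (q * ((Fintype.card V : ℝ) - A.card)) - p
          ≤ min (p * ((A.erase v).card : ℝ)) (q * ((Fintype.card V : ℝ) - (A.erase v).card)) := by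
        rw [h4]
        refine le_min ?_ ?_
        · have := min_le_left (p * (A.card : ℝ)) (q * ((Fintype.card V : ℝ) - A.card))
          linarith
        · have := min_le_right (p * (A.card : ℝ)) (q * ((Fintype.card V : ℝ) - A.card))
          linarith
      have h6 := mul_le_mul_of_nonneg_left h5 hl
      have h7 : lam * p < p := by
        calc lam * p < 1 * p := mul_lt_mul_of_pos_right hl1 hpr
          _ = p := one_mul _
      rw [mul_sub] at h6
      linarith
    · intro hv
      by_contra hc
      push Not at hc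
      have h1 := cut_insert G A hv
      have h2 : cut G (insert v A) + q ≤ cut G A := by omega
      have h2' : (cut G (insert v A) : ℝ) + q ≤ cut G A := by exact_mod_cast h2
      have h3 := hA (insert v A) (Finset.mem_univ _)
      have h4 : ((insert v A).card : ℝ) = A.card + 1 := by
        rw [Finset.card_insert_of_notMem hv]
        push_cast
        ring
      have h5 : min (p * (A.card : ℝ)) (q * ((Fintype.card V : ℝ) - A.card)) - q
          ≤ min (p * ((insert v A).card : ℝ)) (q * ((Fintype.card V : ℝ) - (insert v A).card)) := by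
        rw [h4]
        refine le_min ?_ ?_
        · have := min_le_left (p * (A.card : ℝ)) (q * ((Fintype.card V : ℝ) - A.card))
          linarith
        · have := min_le_right (p * (A.card : ℝ)) (q * ((Fintype.card V : ℝ) - A.card))
          linarith
      have h6 := mul_le_mul_of_nonneg_left h5 hl
      have h7 : lam * q < q := by
        calc lam * q < 1 * q := mul_lt_mul_of_pos_right hl1 hqr
          _ = q := one_mul _
      rw [mul_sub] at h6
      linarith

end Pool.Agent.H49.FR
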