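import Pool.Agent.H49.FR.Pot

/-!
# Module PotO: the potential for odd degree (idea of helper45)

Degree `d = 2a + 1`. `F A = cut A - 3 lam min |A| (n + 1 - |A|)`; take a minimiser `A` of `F` over all subsets, `k = |A|`, `μ k = min k (n + 1 - k)`.
The degree is odd and `n` is even (`G.sum_degrees_eq_twice_card_edges`, or `card_odd_degree`), so `2 k ≠ n + 1`.
* Case `2 k ≤ n`: `μ k = k`, `μ (k-1) = k - 1`, `μ (k+1) ≥ μ k` (`= k + 1` if `2k < n`, `= k = n + 1 - (k+1)` if `2 k = n`). If `v ∈ A` has
  `nin v A ≤ a - 1` then `nin v Aᶜ ≥ a + 2`, `cut (A.erase v) ≤ cut A - 3` (`cut_erase`), `F` changes by at most `-3 + 3 lam < 0`. If `v ∉ A` has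
  `nin v Aᶜ ≤ a` then `nin v A ≥ a + 1`, `cut (insert v A) ≤ cut A - 1`, `F` changes by at most `-1 < 0`. So `Part G a (a+1) A`.
* Case `2 k ≥ n + 2`: `μ k = n + 1 - k`, `μ (k-1) ≥ μ k`, `μ (k+1) = μ k - 1`. In the same way every `v ∈ A` has `nin v A ≥ a + 1` and every `v ∉ A`
  has `nin v Aᶜ ≥ a`, so `Part G a (a+1) Aᶜ` (`compl_compl`).
In both cases `F A ≤ F A₀`, `cut A ≥ 0`: `3 lam μ k ≥ 3 lam μ |A₀| - cut A₀ ≥ 3 lam min |A₀| (n - |A₀|) - cut A₀`, and `μ k ≤ |A| + 1`,
`μ k ≤ |Aᶜ| + 1`.
-/

set_option autoImplicit false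

open Finset

namespace Pool.Agent.H49.FR

variable {V : Type} [Fintype V] [DecidableEq V] (G : SimpleGraph V) [DecidableRel G.Adj]

theorem exists_odd {d a : ℕ} (hreg : G.IsRegularOfDegree d) (hd : d = 2 * a + 1) {lam : ℝ}
    (hl : 0 < lam) (hl1 : lam < 1) (A₀ : Finset V) :
    ∃ A : Finset V, Part G a (a + 1) A ∧
      3 * lam * min (A₀.card : ℝ) ((Fintype.card V : ℝ) - A₀.card) - cut G A₀ ≤
        3 * lam * ((A.card : ℝ) + 1) ∧
      3 * lam * min (A₀.card : ℝ) ((Fintype.card V : ℝ) - A₀.card) - cut G A₀ ≤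
        3 * lam * (((Aᶜ).card : ℝ) + 1) := by
  obtain ⟨A, -, hA⟩ := Finset.exists_min_image (Finset.univ : Finset (Finset V))
    (fun A => (cut G A : ℝ) - 3 * lam * min (A.card : ℝ) ((Fintype.card V : ℝ) + 1 - A.card))
    ⟨A₀, Finset.mem_univ _⟩
  have hev : Even (Fintype.card V) := by
    have h1 := G.sum_degrees_eq_twice_card_edges
    have h2 : ∑ v : V, G.degree v = Fintype.card V * d := by
      rw [Finset.sum_congr rfl fun v _ => hreg v, Finset.sum_const, Finset.card_univ, smul_eq_mul]
    rw [h2, hd] at h1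
    by_contra h3
    rw [Nat.not_even_iff_odd] at h3
    have h4 : Odd (Fintype.card V * (2 * a + 1)) := h3.mul ⟨a, rfl⟩
    rw [h1] at h4
    exact (Nat.not_even_iff_odd.2 h4) (even_two_mul _)
  have hkn : A.card ≤ Fintype.card V := Finset.card_le_univ A
  have hcard : ((Aᶜ).card : ℝ) = (Fintype.card V : ℝ) - A.card := by
    rw [Finset.card_compl, Nat.cast_sub hkn]
  have h3l : 0 < 3 * lam := by linarith
  have hbd : 3 * lam * min (A₀.card : ℝ) ((Fintype.card V : ℝ) - A₀.card) - cut G A₀ ≤
      3 * lam * min (A.card : ℝ) ((Fintype.card V : ℝ) + 1 - A.card) := by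
    have h1 := hA A₀ (Finset.mem_univ _)
    have hc : (0 : ℝ) ≤ cut G A := Nat.cast_nonneg _
    have h2 : min (A₀.card : ℝ) ((Fintype.card V : ℝ) - A₀.card) ≤
        min (A₀.card : ℝ) ((Fintype.card V : ℝ) + 1 - A₀.card) := min_le_min le_rfl (by linarith)
    have h4 := mul_le_mul_of_nonneg_left h2 h3l.le
    linarith
  have hb1 : 3 * lam * min (A₀.card : ℝ) ((Fintype.card V : ℝ) - A₀.card) - cut G A₀ ≤
      3 * lam * ((A.card : ℝ) + 1) :=
    hbd.trans (mul_le_mul_of_nonneg_left ((min_le_left _ _).trans (by linarith)) h3l.le)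
  have hb2 : 3 * lam * min (A₀.card : ℝ) ((Fintype.card V : ℝ) - A₀.card) - cut G A₀ ≤
      3 * lam * (((Aᶜ).card : ℝ) + 1) := by
    rw [hcard]
    exact hbd.trans (mul_le_mul_of_nonneg_left ((min_le_right _ _).trans (by linarith)) h3l.le)
  have hdeg : ∀ v, nin G v A + nin G v Aᶜ = 2 * a + 1 := fun v => by
    rw [nin_add, hreg v, hd]
  have hers : ∀ v ∈ A, ((A.erase v).card : ℝ) = A.card - 1 := by
    intro v hv
    have h5 := Finset.card_erase_add_one hv
    have h6 : ((A.erase v).card : ℝ) + 1 = A.card := by exact_mod_cast h5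
    linarith
  have hins : ∀ v, v ∉ A → ((insert v A).card : ℝ) = A.card + 1 := by
    intro v hv
    rw [Finset.card_insert_of_notMem hv]
    push_cast
    ring
  -- a move which loses `x` edges and lowers the minimum by at most `y`
  have hno : ∀ (B : Finset V) (x : ℕ) (y : ℝ), cut G B + x ≤ cut G A →
      min (A.card : ℝ) ((Fintype.card V : ℝ) + 1 - A.card) - y ≤
        min (B.card : ℝ) ((Fintype.card V : ℝ) + 1 - B.card) → 3 * lam * y < x → False := by
    intro B x y h1 h2 h4
    have h5 := hA B (Finset.mem_univ _)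
    have h6 : (cut G B : ℝ) + x ≤ cut G A := by exact_mod_cast h1
    have h7 := mul_le_mul_of_nonneg_left h2 h3l.le
    rw [mul_sub] at h7
    linarith
  rcases Nat.lt_or_ge (Fintype.card V) (2 * A.card) with hk | hk
  · have hk2 : Fintype.card V + 2 ≤ 2 * A.card := by
      obtain ⟨t, ht⟩ := hev
      omega
    have hk3 : (Fintype.card V : ℝ) + 2 ≤ 2 * A.card := by exact_mod_cast hk2
    refine ⟨Aᶜ, ?_, hb2, by rw [compl_compl]; exact hb1⟩
    intro v
    constructor
    · intro hv
      have hv' : v ∉ A := Finset.mem_compl.1 hv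
      by_contra hc
      push Not at hc
      have h1 := cut_insert G A hv'
      have h2 := hdeg v
      refine hno (insert v A) 3 1 (by omega) ?_ (by push_cast; linarith)
      rw [hins v hv']
      refine le_min ?_ ?_
      · have := min_le_left (A.card : ℝ) ((Fintype.card V : ℝ) + 1 - A.card)
        linarith
      · have := min_le_right (A.card : ℝ) ((Fintype.card V : ℝ) + 1 - A.card)
        linarith
    · intro hv
      have hv' : v ∈ A := by
        by_contra h
        exact hv (Finset.mem_compl.2 h)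
      rw [compl_compl]
      by_contra hc
      push Not at hc
      have h1 := cut_erase G A hv'
      have h2 := hdeg v
      refine hno (A.erase v) 1 0 (by omega) ?_ (by push_cast; linarith)
      rw [hers v hv']
      refine le_min ?_ ?_
      · have := min_le_right (A.card : ℝ) ((Fintype.card V : ℝ) + 1 - A.card)
        linarith
      · have := min_le_right (A.card : ℝ) ((Fintype.card V : ℝ) + 1 - A.card)
        linarith
  · have hk3 : 2 * (A.card : ℝ) ≤ Fintype.card V := by exact_mod_cast hk
    refine ⟨A, ?_, hb1, hb2⟩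
    intro v
    constructor
    · intro hv
      by_contra hc
      push Not at hc
      have h1 := cut_erase G A hv
      have h2 := hdeg v
      refine hno (A.erase v) 3 1 (by omega) ?_ (by push_cast; linarith)
      rw [hers v hv]
      refine le_min ?_ ?_
      · have := min_le_left (A.card : ℝ) ((Fintype.card V : ℝ) + 1 - A.card)
        linarith
      · have := min_le_right (A.card : ℝ) ((Fintype.card V : ℝ) + 1 - A.card)
        linarith
    · intro hv
      by_contra hc
      push Not at hc
      have h1 := cut_insert G A hv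
      have h2 := hdeg v
      refine hno (insert v A) 1 0 (by omega) ?_ (by push_cast; linarith)
      rw [hins v hv]
      refine le_min ?_ ?_
      · have := min_le_left (A.card : ℝ) ((Fintype.card V : ℝ) + 1 - A.card)
        linarith
      · have := min_le_left (A.card : ℝ) ((Fintype.card V : ℝ) + 1 - A.card)
        linarith

end Pool.Agent.H49.FR
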