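import Pool.Agent.H49.FR.Pair
import Pool.Agent.H49.FR.Blocks

/-!
# Module SymHalf: three of five residuals are negative with probability at least one half

`Y_u = ω u - S u v ω v`, `u ∈ N`, `|N| = 5`. `Y_u ≠ 0` almost surely: `Y_u / √(1 - S u v ^ 2)` has the law `gaussianReal 0 1` by `law_pair` (second
marginal), which has no atoms (`noAtoms_gaussianReal`). So almost surely `#{Y_u < 0} + #{Y_u > 0} = 5` and one of the two is `≥ 3`.
The events `3 ≤ #{Y_u < 0}` and `3 ≤ #{Y_u > 0}` have the same probability by `map_neg_gauss`. So each has probability `≥ 1/2`.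
-/

set_option autoImplicit false

open Finset MeasureTheory ProbabilityTheory

namespace Pool.Agent.H49.FR

variable {V : Type} [Fintype V] [DecidableEq V]

private theorem sh_cont (S : Matrix V V ℝ) (u v : V) :
    Continuous fun ω : EuclideanSpace ℝ V => ω u - S u v * ω v := by fun_prop

private theorem sh_meas (S : Matrix V V ℝ) (v : V) (N : Finset V) :
    MeasurableSet {ω : EuclideanSpace ℝ V | 3 ≤ (N.filter fun u => ω u - S u v * ω v < 0).card} := by
  have h : Measurable fun ω : EuclideanSpace ℝ V => (N.filter fun u => ω u - S u v * ω v < 0).card := by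
    have h2 : (fun ω : EuclideanSpace ℝ V => (N.filter fun u => ω u - S u v * ω v < 0).card) =
        fun ω : EuclideanSpace ℝ V => ∑ u ∈ N, if ω u - S u v * ω v < 0 then 1 else 0 := by
      funext ω
      rw [Finset.card_filter]
    rw [h2]
    refine Finset.measurable_sum N fun u _ => ?_
    exact Measurable.ite (measurableSet_lt (sh_cont S u v).measurable measurable_const) measurable_const measurable_const
  exact measurableSet_le measurable_const h

private theorem sh_ne {S : Matrix V V ℝ} (hS : S.PosSemidef) (hd : ∀ v, S v v = 1) (u v : V) (h1 : |S u v| < 1) :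
    ∀ᵐ ω ∂(multivariateGaussian 0 S), (ω : EuclideanSpace ℝ V) u - S u v * ω v ≠ 0 := by
  have hp := law_pair hS (hd u) (hd v) h1
  have hm : Measurable fun ω : EuclideanSpace ℝ V =>
      (ω v, (ω u - S u v * ω v) / Real.sqrt (1 - S u v ^ 2)) := by
    have : Continuous fun ω : EuclideanSpace ℝ V =>
      (ω v, (ω u - S u v * ω v) / Real.sqrt (1 - S u v ^ 2)) := by fun_prop
    exact this.measurable
  have h2 : ((multivariateGaussian 0 S).map (fun ω : EuclideanSpace ℝ V =>
      (ω v, (ω u - S u v * ω v) / Real.sqrt (1 - S u v ^ 2)))) (Prod.snd ⁻¹' {(0 : ℝ)}) = 0 := by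
    rw [hp, ← Measure.map_apply measurable_snd (measurableSet_singleton _), Measure.map_snd_prod, measure_univ, one_smul]
    have := nullSingletonClass_gaussianReal (μ := 0) (v := 1) one_ne_zero
    exact measure_singleton _
  rw [Measure.map_apply hm (measurable_snd (measurableSet_singleton _))] at h2
  rw [ae_iff]
  refine measure_mono_null ?_ h2
  intro ω hω
  simp only [ne_eq, not_not, Set.mem_ofPred_eq] at hω
  show (ω u - S u v * ω v) / Real.sqrt (1 - S u v ^ 2) ∈ ({0} : Set ℝ)
  rw [hω, zero_div]
  rfl

theorem sym_half {S : Matrix V V ℝ} (hS : S.PosSemidef) (hd : ∀ v, S v v = 1) (v : V) (N : Finset V)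
    (hN : N.card = 5) (h1 : ∀ u ∈ N, |S u v| < 1) :
    1 / 2 ≤ (multivariateGaussian 0 S).real
      {ω : EuclideanSpace ℝ V | 3 ≤ (N.filter fun u => ω u - S u v * ω v < 0).card} := by
  set μ := multivariateGaussian 0 S with hμ
  set E1 : Set (EuclideanSpace ℝ V) := {ω | 3 ≤ (N.filter fun u => ω u - S u v * ω v < 0).card} with hE1
  set E2 : Set (EuclideanSpace ℝ V) := {ω | 3 ≤ (N.filter fun u => 0 < ω u - S u v * ω v).card} with hE2
  have hm1 : MeasurableSet E1 := sh_meas S v N
  have hpre : (fun ω : EuclideanSpace ℝ V => -ω) ⁻¹' E1 = E2 := by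
    ext ω
    show 3 ≤ (N.filter fun u => (-ω) u - S u v * (-ω) v < 0).card ↔ 3 ≤ (N.filter fun u => 0 < ω u - S u v * ω v).card
    have h : (N.filter fun u => (-ω) u - S u v * (-ω) v < 0) = N.filter fun u => 0 < ω u - S u v * ω v := by
      refine Finset.filter_congr fun u _ => ?_
      have h2 : (-ω) u = -(ω u) := rfl
      have h3 : (-ω) v = -(ω v) := rfl
      rw [h2, h3]
      constructor
      · intro h; linarith
      · intro h; linarith
    rw [h]
  have heq : μ.real E2 = μ.real E1 := by
    have h : (μ.map fun ω : EuclideanSpace ℝ V => -ω) E1 = μ E1 := by rw [hμ, map_neg_gauss S hS]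
    rw [Measure.map_apply continuous_neg.measurable hm1, hpre] at h
    rw [measureReal_def, measureReal_def, h]
  have hae : ∀ᵐ ω ∂μ, ω ∈ E1 ∪ E2 := by
    have h2 : ∀ᵐ ω ∂μ, ∀ u ∈ N, ω u - S u v * ω v ≠ 0 := by
      rw [Filter.eventually_all_finset]
      intro u hu
      exact sh_ne hS hd u v (h1 u hu)
    filter_upwards [h2] with ω hω
    have h3 : (N.filter fun u => ω u - S u v * ω v < 0).card + (N.filter fun u => ¬ (ω u - S u v * ω v < 0)).card = 5 := by
      rw [Finset.card_filter_add_card_filter_not, hN]
    have h4 : (N.filter fun u => ¬ (ω u - S u v * ω v < 0)) = N.filter fun u => 0 < ω u - S u v * ω v := by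
      refine Finset.filter_congr fun u hu => ?_
      constructor
      · intro h
        exact lt_of_le_of_ne (not_lt.1 h) (Ne.symm (hω u hu))
      · intro h
        exact not_lt.2 h.le
    rw [h4] at h3
    by_cases h5 : 3 ≤ (N.filter fun u => ω u - S u v * ω v < 0).card
    · exact Or.inl h5
    · right
      show 3 ≤ (N.filter fun u => 0 < ω u - S u v * ω v).card
      omega
  have huniv : μ.real (E1 ∪ E2) = 1 := by
    have h : μ (E1 ∪ E2) = 1 := by
      have h6 : (E1 ∪ E2 : Set (EuclideanSpace ℝ V)) =ᵐ[μ] Set.univ := by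
        filter_upwards [hae] with ω hω
        exact propext ⟨fun _ => trivial, fun _ => hω⟩
      rw [measure_congr h6, measure_univ]
    rw [measureReal_def, h, ENNReal.toReal_one]
  have hle := measureReal_union_le (μ := μ) E1 E2
  rw [huniv, heq] at hle
  linarith

end Pool.Agent.H49.FR
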