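import Mathlib

/-!
# Module Trig: upper bounds for `arccos`

* `cos_le_poly`: `cos x ≤ 1 - x²/2 + x⁴/24 - x⁶/720 + x⁸/40320` for all `x` (even function; for `x ≥ 0` integrate `cos ≤ 1` repeatedly: eight
  monotonicity steps, alternately for `cos` and `sin`).
* `arccos_le_of`: for `0 ≤ β ≤ 3 < π`: `cos β ≤ x` gives `arccos x ≤ arccos (cos β) = β`.
* table (true values) used later: arccos 0.7999 = 0.643668, arccos 0.82 = 0.609194, arccos 0.86 = 0.535527, arccos 0.92 = 0.402716,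
  arccos 0.98 = 0.200335, arccos 0.993 = 0.118390, arccos 0.745 = 0.730267.
-/

set_option autoImplicit false

namespace Pool.Agent.H49.FR

private lemma trig_mono {f f' : ℝ → ℝ} (hf : ∀ x, HasDerivAt f (f' x) x) (h0 : f 0 = 0)
    (h : ∀ x, 0 ≤ x → 0 ≤ f' x) : ∀ x, 0 ≤ x → 0 ≤ f x := by
  intro x hx
  have hm : MonotoneOn f (Set.Ici 0) := by
    refine monotoneOn_of_deriv_nonneg (convex_Ici 0) ?_ ?_ ?_
    · exact fun y _ => (hf y).continuousAt.continuousWithinAt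
    · exact fun y _ => (hf y).differentiableAt.differentiableWithinAt
    · intro y hy
      rw [interior_Ici] at hy
      rw [(hf y).deriv]
      exact h y hy.le
  have := hm (Set.mem_Ici.2 le_rfl) (Set.mem_Ici.2 hx) hx
  rwa [h0] at this

private lemma trig_s3 : ∀ x : ℝ, 0 ≤ x → 0 ≤ Real.sin x - (x - x ^ 3 / 6) := by
  refine trig_mono (f' := fun x => Real.cos x - (1 - x ^ 2 / 2)) (fun x => ?_) (by simp) (fun x _ => ?_)
  · have h := (Real.hasDerivAt_sin x).sub ((hasDerivAt_id' x).sub ((hasDerivAt_pow 3 x).div_const 6))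
    refine h.congr_deriv ?_
    ring
  · have := Real.one_sub_sq_div_two_le_cos (x := x)
    linarith

private lemma trig_c4 : ∀ x : ℝ, 0 ≤ x → 0 ≤ 1 - x ^ 2 / 2 + x ^ 4 / 24 - Real.cos x := by
  refine trig_mono (f' := fun x => Real.sin x - (x - x ^ 3 / 6)) (fun x => ?_) (by simp) trig_s3
  have h := ((((hasDerivAt_pow 2 x).div_const 2).const_sub 1).add ((hasDerivAt_pow 4 x).div_const 24)).sub
    (Real.hasDerivAt_cos x)
  refine h.congr_deriv ?_
  ring

private lemma trig_s5 : ∀ x : ℝ, 0 ≤ x → 0 ≤ x - x ^ 3 / 6 + x ^ 5 / 120 - Real.sin x := by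
  refine trig_mono (f' := fun x => 1 - x ^ 2 / 2 + x ^ 4 / 24 - Real.cos x) (fun x => ?_) (by simp) trig_c4
  have h := (((hasDerivAt_id' x).sub ((hasDerivAt_pow 3 x).div_const 6)).add
    ((hasDerivAt_pow 5 x).div_const 120)).sub (Real.hasDerivAt_sin x)
  refine h.congr_deriv ?_
  ring

private lemma trig_c6 : ∀ x : ℝ, 0 ≤ x → 0 ≤ Real.cos x - (1 - x ^ 2 / 2 + x ^ 4 / 24 - x ^ 6 / 720) := by
  refine trig_mono (f' := fun x => x - x ^ 3 / 6 + x ^ 5 / 120 - Real.sin x) (fun x => ?_) (by simp) trig_s5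
  have h := (Real.hasDerivAt_cos x).sub (((((hasDerivAt_pow 2 x).div_const 2).const_sub 1).add
    ((hasDerivAt_pow 4 x).div_const 24)).sub ((hasDerivAt_pow 6 x).div_const 720))
  refine h.congr_deriv ?_
  ring

private lemma trig_s7 : ∀ x : ℝ, 0 ≤ x → 0 ≤ Real.sin x - (x - x ^ 3 / 6 + x ^ 5 / 120 - x ^ 7 / 5040) := by
  refine trig_mono (f' := fun x => Real.cos x - (1 - x ^ 2 / 2 + x ^ 4 / 24 - x ^ 6 / 720)) (fun x => ?_)
    (by simp) trig_c6
  have h := (Real.hasDerivAt_sin x).sub ((((hasDerivAt_id' x).sub ((hasDerivAt_pow 3 x).div_const 6)).add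
    ((hasDerivAt_pow 5 x).div_const 120)).sub ((hasDerivAt_pow 7 x).div_const 5040))
  refine h.congr_deriv ?_
  ring

private lemma trig_c8 : ∀ x : ℝ, 0 ≤ x →
    0 ≤ 1 - x ^ 2 / 2 + x ^ 4 / 24 - x ^ 6 / 720 + x ^ 8 / 40320 - Real.cos x := by
  refine trig_mono (f' := fun x => Real.sin x - (x - x ^ 3 / 6 + x ^ 5 / 120 - x ^ 7 / 5040)) (fun x => ?_)
    (by simp) trig_s7
  have h := ((((((hasDerivAt_pow 2 x).div_const 2).const_sub 1).add ((hasDerivAt_pow 4 x).div_const 24)).sub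
    ((hasDerivAt_pow 6 x).div_const 720)).add ((hasDerivAt_pow 8 x).div_const 40320)).sub (Real.hasDerivAt_cos x)
  refine h.congr_deriv ?_
  ring

lemma cos_le_poly (x : ℝ) :
    Real.cos x ≤ 1 - x ^ 2 / 2 + x ^ 4 / 24 - x ^ 6 / 720 + x ^ 8 / 40320 := by
  rcases le_total 0 x with h | h
  · have := trig_c8 x h
    linarith
  · have := trig_c8 (-x) (by linarith)
    rw [Real.cos_neg] at this
    have e2 : (-x) ^ 2 = x ^ 2 := by ring
    have e4 : (-x) ^ 4 = x ^ 4 := by ring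
    have e6 : (-x) ^ 6 = x ^ 6 := by ring
    have e8 : (-x) ^ 8 = x ^ 8 := by ring
    rw [e2, e4, e6, e8] at this
    linarith

lemma arccos_le_of {x β : ℝ} (h0 : 0 ≤ β) (h3 : β ≤ 3)
    (h : 1 - β ^ 2 / 2 + β ^ 4 / 24 - β ^ 6 / 720 + β ^ 8 / 40320 ≤ x) :
    Real.arccos x ≤ β := by
  have h1 : Real.cos β ≤ x := (cos_le_poly β).trans h
  have h2 : Real.arccos x ≤ Real.arccos (Real.cos β) := Real.antitone_arccos h1
  rwa [Real.arccos_cos h0 (by linarith [Real.pi_gt_three])] at h2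

end Pool.Agent.H49.FR
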