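import Pool.Agent.H49.FR.Pot
import Pool.Agent.H49.FR.Cov
import Pool.Agent.H49.FR.ExpB

/-!
# Module WaveG: the Gaussian wave with an explicit size of the parts

As `Wave`, with a given `gam`: if `e = d (arccos ρ/(2π) exp(-t²/2)) < min (p P) (q (1-P)) - gam`, `P = γ(Ioi (-t))`, then every large `d`-regular graph has
an `(a,b)`-internal partition with `gam n < p |A|` and `gam n < q |Aᶜ|`. `M = min (p P) (q (1-P))`, `g = (M - gam - e)/4`, `lam M ≥ M - g`. If there is no such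
partition: `lam (M n - K √(D n)) - gam n ≤ e n`, so `(M - g) n - g n - gam n ≤ e n`, a contradiction with `M - gam - e = 4 g`.
-/

set_option autoImplicit false

open Finset MeasureTheory ProbabilityTheory

namespace Pool.Agent.H49.FR

theorem wave_g {d a b p q : ℕ} (hd : 2 ≤ d) (hp : 2 * a + p = d + 2) (hq : 2 * b + q = d + 2)
    (hp0 : 0 < p) (hq0 : 0 < q) {ρ t gam : ℝ} (hgam : 0 ≤ gam) (hρ : ρ < 2 * Real.sqrt ((d : ℝ) - 1) / d)
    (h : d * (Real.arccos ρ / (2 * Real.pi) * Real.exp (-t ^ 2 / 2)) <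
      min (p * (gaussianReal 0 1).real (Set.Ioi (-t))) (q * (1 - (gaussianReal 0 1).real (Set.Ioi (-t)))) -
        gam) :
    ∃ n₀ : ℕ, ∀ (V : Type) [Fintype V] [DecidableEq V] (G : SimpleGraph V)
      [DecidableRel G.Adj], G.IsRegularOfDegree d → n₀ < Fintype.card V →
      ∃ A : Finset V, gam * Fintype.card V < p * (A.card : ℝ) ∧
        gam * Fintype.card V < q * ((Aᶜ).card : ℝ) ∧ Part G a b A := by
  obtain ⟨r, hr⟩ := exists_cov hd hρ
  obtain ⟨Φ, hΦ⟩ : ∃ x, x = (gaussianReal 0 1).real (Set.Ioi (-t)) := ⟨_, rfl⟩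
  rw [← hΦ] at h
  obtain ⟨e, he⟩ : ∃ x : ℝ, x = d * (Real.arccos ρ / (2 * Real.pi) * Real.exp (-t ^ 2 / 2)) := ⟨_, rfl⟩
  rw [← he] at h
  have he0 : 0 ≤ e := by
    rw [he]
    have h1 := Real.arccos_nonneg ρ
    have h2 := Real.pi_pos
    positivity
  obtain ⟨M, hM⟩ : ∃ x : ℝ, x = min (p * Φ) (q * (1 - Φ)) := ⟨_, rfl⟩
  rw [← hM] at h
  have hMp : M ≤ p * Φ := by rw [hM]; exact min_le_left _ _
  have hMq : M ≤ q * (1 - Φ) := by rw [hM]; exact min_le_right _ _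
  have hM0 : 0 < M := by linarith
  obtain ⟨g, hg⟩ : ∃ x : ℝ, x = (M - gam - e) / 4 := ⟨_, rfl⟩
  have hg0 : 0 < g := by rw [hg]; linarith
  have hg4 : M - gam - e = 4 * g := by rw [hg]; ring
  obtain ⟨lam, hlam⟩ : ∃ x : ℝ, x = 1 - g / (M + 1) := ⟨_, rfl⟩
  have hq1 : 0 < g / (M + 1) := by positivity
  have hq2 : g / (M + 1) ≤ 1 := by
    rw [div_le_one (by linarith)]
    linarith
  have hl0 : 0 ≤ lam := by rw [hlam]; linarith
  have hl1 : lam < 1 := by rw [hlam]; linarith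
  have hlM : M - g ≤ lam * M := by
    have h1 : g / (M + 1) * M ≤ g := by
      rw [div_mul_eq_mul_div, div_le_iff₀ (by linarith)]
      nlinarith
    rw [hlam]
    linarith
  have hp1 : (0 : ℝ) < p := by exact_mod_cast hp0
  have hq3 : (0 : ℝ) < q := by exact_mod_cast hq0
  obtain ⟨K, hK⟩ : ∃ x : ℝ, x = p + q := ⟨_, rfl⟩
  have hK0 : 0 < K := by rw [hK]; linarith
  obtain ⟨D, hD⟩ : ∃ x : ℝ, x = ((d : ℝ) + 1) ^ (2 * r) := ⟨_, rfl⟩
  have hD0 : 0 < D := by rw [hD]; positivity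
  refine ⟨⌈K ^ 2 * D / g ^ 2⌉₊, ?_⟩
  intro V _ _ G _ hreg hn
  obtain ⟨S, hS⟩ := hr V G hreg
  by_contra hcon
  obtain ⟨n, hn'⟩ : ∃ x : ℝ, x = (Fintype.card V : ℝ) := ⟨_, rfl⟩
  obtain ⟨μ, hμ⟩ : ∃ x, x = multivariateGaussian (0 : EuclideanSpace ℝ V) S := ⟨_, rfl⟩
  have hn0 : 0 < n := by
    have h1 : 0 < Fintype.card V := lt_of_le_of_lt (Nat.zero_le _) hn
    rw [hn']
    exact_mod_cast h1
  have hnD : K ^ 2 * D / g ^ 2 ≤ n := by
    have h1 : K ^ 2 * D / g ^ 2 ≤ (⌈K ^ 2 * D / g ^ 2⌉₊ : ℝ) := Nat.le_ceil _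
    have h2 : ((⌈K ^ 2 * D / g ^ 2⌉₊ : ℕ) : ℝ) ≤ Fintype.card V := by exact_mod_cast hn.le
    rw [hn']
    exact h1.trans h2
  have hKs : K * Real.sqrt (D * n) ≤ g * n := by
    rw [div_le_iff₀ (by positivity)] at hnD
    have h1 : K * Real.sqrt (D * n) = Real.sqrt (K ^ 2 * (D * n)) := by
      rw [Real.sqrt_mul (x := K ^ 2) (by positivity) (D * n), Real.sqrt_sq hK0.le]
    rw [h1, show g * n = Real.sqrt ((g * n) ^ 2) from (Real.sqrt_sq (by positivity)).symm]
    refine Real.sqrt_le_sqrt ?_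
    nlinarith [mul_le_mul_of_nonneg_right hnD hn0.le]
  have key : ∀ ω : EuclideanSpace ℝ V,
      lam * (M * n - K * |((Sd t ω).card : ℝ) - n * Φ|) - gam * n ≤ (cut G (Sd t ω) : ℝ) := by
    intro ω
    have h1 : lam * min (p * ((Sd t ω).card : ℝ)) (q * ((Fintype.card V : ℝ) - (Sd t ω).card)) -
        gam * Fintype.card V ≤ (cut G (Sd t ω) : ℝ) := by
      by_contra h'
      obtain ⟨A, hA1, hA2, hA3⟩ := exists_part G hreg hp hq hp0 hq0 hl0 hl1 hgam (Sd t ω) (lt_of_not_ge h')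
      exact hcon ⟨A, hA1, hA2, hA3⟩
    rw [← hn'] at h1
    have ha := abs_le.1 (le_refl |((Sd t ω).card : ℝ) - n * Φ|)
    obtain ⟨z, hz⟩ : ∃ z, z = |((Sd t ω).card : ℝ) - n * Φ| := ⟨_, rfl⟩
    have hz0 : 0 ≤ z := by rw [hz]; exact abs_nonneg _
    rw [← hz] at ha ⊢
    have h3 : M * n - K * z ≤ min (p * ((Sd t ω).card : ℝ)) (q * (n - (Sd t ω).card)) := by
      refine le_min ?_ ?_
      · have e1 := mul_le_mul_of_nonneg_right hMp hn0.le
        have e2 := mul_le_mul_of_nonneg_left ha.1 hp1.le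
        have e3 := mul_nonneg hq3.le hz0
        rw [hK]
        linarith
      · have e1 := mul_le_mul_of_nonneg_right hMq hn0.le
        have e2 := mul_le_mul_of_nonneg_left ha.2 hq3.le
        have e3 := mul_nonneg hp1.le hz0
        rw [hK]
        linarith
    have h4 := mul_le_mul_of_nonneg_left h3 hl0
    linarith
  have iS := integrable_card_Sd (V := V) S t
  have iC := integrable_cut_Sd G S t
  rw [← hμ] at iS iC
  have hprob : IsProbabilityMeasure μ := by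
    rw [hμ]
    infer_instance
  have iA : Integrable (fun ω : EuclideanSpace ℝ V => |((Sd t ω).card : ℝ) - n * Φ|) μ :=
    (iS.sub (integrable_const (n * Φ))).abs
  have iB : Integrable (fun ω : EuclideanSpace ℝ V => M * n - K * |((Sd t ω).card : ℝ) - n * Φ|) μ :=
    (integrable_const (M * n)).sub (iA.const_mul K)
  have hint := integral_mono (μ := μ) ((iB.const_mul lam).sub (integrable_const (gam * n))) iC key
  have e1 : ∫ ω, (lam * (M * n - K * |((Sd t ω).card : ℝ) - n * Φ|) - gam * n) ∂μ =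
      lam * (M * n - K * ∫ ω, |((Sd t ω).card : ℝ) - n * Φ| ∂μ) - gam * n := by
    rw [integral_sub (iB.const_mul lam) (integrable_const (gam * n)), integral_const_mul,
      integral_sub (integrable_const (M * n)) (iA.const_mul K)]
    simp [integral_const_mul]
  have hint2 : lam * (M * n - K * ∫ ω, |((Sd t ω).card : ℝ) - n * Φ| ∂μ) - gam * n ≤
      ∫ ω, (cut G (Sd t ω) : ℝ) ∂μ := by
    rw [← e1]
    exact hint
  have b1 : ∫ ω, (cut G (Sd t ω) : ℝ) ∂μ ≤ e * n := by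
    have h1 := bnd_cut G hreg hS t
    rw [← hμ, ← hn', ← he] at h1
    exact h1
  have b2 : ∫ ω, |((Sd t ω).card : ℝ) - n * Φ| ∂μ ≤ Real.sqrt (D * n) := by
    have h1 := conc_Sd G hreg hS t
    have h2 : ∑ v, (multivariateGaussian 0 S).real {ω | v ∈ Sd t ω} = n * Φ := by
      rw [Finset.sum_congr rfl fun v _ => prob_Sd hS.psd (hS.diag v) t, Finset.sum_const,
        Finset.card_univ, nsmul_eq_mul, ← hn', ← hΦ]
    rw [h2, ← hμ, ← hn', ← hD] at h1
    exact h1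
  have b3 : K * ∫ ω, |((Sd t ω).card : ℝ) - n * Φ| ∂μ ≤ g * n :=
    (mul_le_mul_of_nonneg_left b2 hK0.le).trans hKs
  have b4 : lam * (K * ∫ ω, |((Sd t ω).card : ℝ) - n * Φ| ∂μ) ≤ g * n := by
    have h1 := mul_le_mul_of_nonneg_left b3 hl0
    have h2 : lam * (g * n) ≤ 1 * (g * n) := mul_le_mul_of_nonneg_right hl1.le (by positivity)
    linarith
  have b5 := mul_le_mul_of_nonneg_right hlM hn0.le
  have b6 : (M - g) * n - g * n - gam * n ≤ e * n := by
    have h1 : lam * (M * n - K * ∫ ω, |((Sd t ω).card : ℝ) - n * Φ| ∂μ) =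
        lam * M * n - lam * (K * ∫ ω, |((Sd t ω).card : ℝ) - n * Φ| ∂μ) := by ring
    rw [h1] at hint2
    linarith
  have b7 : g * n ≤ 0 := by
    have h1 : (M - gam - e) * n = 4 * g * n := by rw [hg4]
    linarith
  have b8 : 0 < g * n := by positivity
  linarith

end Pool.Agent.H49.FR
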