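import Pool.Agent.H49.FR.PotO
import Pool.Agent.H49.FR.Cov
import Pool.Agent.H49.FR.ExpB
import Pool.Agent.H49.FR.NumG

/-!
# Module WaveO: the Gaussian wave for odd degree

Copy the structure of `Wave` (or `Main5`), with `t = 0`. `e = d arccos ρ/(2π) ≥ 0`. `h` says `c < 1/2 - e/3`; put `g = (1/2 - e/3 - c)/4 > 0` and choose
`lam < 1`, `lam ≥ 1/2` with `e/(3 lam) ≤ e/3 + g` (e.g. `lam = 1/(1 + 3g/(e+1))` and `≥ 1/2` or simply `lam` close to one). `exists_odd` for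
`A₀ = Sd 0 ω`, for every `ω`, would give (if no good partition exists) `min |A₀| (n-|A₀|) - cut A₀/(3 lam) < c n + 1`. Integrate with
`E min ≥ n/2 - E ||A₀| - n/2|`, `conc_Sd` (`prob_Sd`, `gauss_half`: `∑_v μ {v ∈ Sd 0} = n/2`), `bnd_cut` (`exp (-0²/2) = 1`):
`n/2 - √(D n) - (e/3 + g) n ≤ c n + 1`, i.e. `3 g n ≤ √(D n) + 1`, which is false for large `n`.
-/

set_option autoImplicit false

open Finset MeasureTheory ProbabilityTheory

namespace Pool.Agent.H49.FR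

theorem wave_odd {d a : ℕ} (hd : d = 2 * a + 1) (ha : 1 ≤ a) {ρ c : ℝ}
    (hρ : ρ < 2 * Real.sqrt ((d : ℝ) - 1) / d)
    (h : d * (Real.arccos ρ / (2 * Real.pi)) < 3 * (1 / 2 - c)) :
    ∃ n₀ : ℕ, ∀ (V : Type) [Fintype V] [DecidableEq V] (G : SimpleGraph V)
      [DecidableRel G.Adj], G.IsRegularOfDegree d → n₀ < Fintype.card V →
      ∃ A : Finset V, c * Fintype.card V ≤ A.card ∧ c * Fintype.card V ≤ (Aᶜ).card ∧
        Part G a (a + 1) A := by
  have hd2 : 2 ≤ d := by omega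
  obtain ⟨r, hr⟩ := exists_cov hd2 hρ
  obtain ⟨e, he⟩ : ∃ x : ℝ, x = d * (Real.arccos ρ / (2 * Real.pi)) := ⟨_, rfl⟩
  rw [← he] at h
  have he0 : 0 ≤ e := by
    rw [he]
    have h1 := Real.arccos_nonneg ρ
    have h2 := Real.pi_pos
    positivity
  obtain ⟨M, hM⟩ : ∃ x : ℝ, x = 3 * (1 / 2 - c) := ⟨_, rfl⟩
  rw [← hM] at h
  have hM0 : 0 < M := lt_of_le_of_lt he0 h
  obtain ⟨g, hg⟩ : ∃ x : ℝ, x = (M - e) / 4 := ⟨_, rfl⟩
  have hg0 : 0 < g := by rw [hg]; linarith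
  have hg4 : M - e = 4 * g := by rw [hg]; ring
  obtain ⟨lam, hlam⟩ : ∃ x : ℝ, x = 1 - g / (M + 1) := ⟨_, rfl⟩
  have hq1 : 0 < g / (M + 1) := by positivity
  have hq2 : g / (M + 1) < 1 := by
    rw [div_lt_one (by linarith)]
    linarith
  have hl0 : 0 < lam := by rw [hlam]; linarith
  have hl1 : lam < 1 := by rw [hlam]; linarith
  have hlM : M - g ≤ lam * M := by
    have h1 : g / (M + 1) * M ≤ g := by
      rw [div_mul_eq_mul_div, div_le_iff₀ (by linarith)]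
      nlinarith
    rw [hlam]
    linarith
  obtain ⟨D, hD⟩ : ∃ x : ℝ, x = ((d : ℝ) + 1) ^ (2 * r) := ⟨_, rfl⟩
  have hD0 : 0 < D := by rw [hD]; positivity
  refine ⟨⌈3 ^ 2 * D / g ^ 2 + 3 / g⌉₊, ?_⟩
  intro V _ _ G _ hreg hn
  obtain ⟨S, hS⟩ := hr V G hreg
  by_contra hcon
  obtain ⟨n, hn'⟩ : ∃ x : ℝ, x = (Fintype.card V : ℝ) := ⟨_, rfl⟩
  obtain ⟨μ, hμ⟩ : ∃ x, x = multivariateGaussian (0 : EuclideanSpace ℝ V) S := ⟨_, rfl⟩
  have hn0 : 0 < n := by
    have h1 : 0 < Fintype.card V := lt_of_le_of_lt (Nat.zero_le _) hn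
    rw [hn']
    exact_mod_cast h1
  have hnD' : 3 ^ 2 * D / g ^ 2 + 3 / g ≤ n := by
    have h1 : 3 ^ 2 * D / g ^ 2 + 3 / g ≤ (⌈3 ^ 2 * D / g ^ 2 + 3 / g⌉₊ : ℝ) := Nat.le_ceil _
    have h2 : ((⌈3 ^ 2 * D / g ^ 2 + 3 / g⌉₊ : ℕ) : ℝ) ≤ Fintype.card V := by exact_mod_cast hn.le
    rw [hn']
    exact h1.trans h2
  have hnD : 3 ^ 2 * D / g ^ 2 ≤ n := by
    have : 0 < 3 / g := by positivity
    linarith
  have hng : 3 ≤ g * n := by
    have h1 : 0 < 3 ^ 2 * D / g ^ 2 := by positivity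
    have h2 : 3 / g ≤ n := by linarith
    rw [div_le_iff₀ hg0] at h2
    linarith
  have hKs : 3 * Real.sqrt (D * n) ≤ g * n := by
    rw [div_le_iff₀ (by positivity)] at hnD
    have h1 : 3 * Real.sqrt (D * n) = Real.sqrt (3 ^ 2 * (D * n)) := by
      rw [Real.sqrt_mul (x := 3 ^ 2) (by positivity) (D * n), Real.sqrt_sq (by norm_num)]
    rw [h1, show g * n = Real.sqrt ((g * n) ^ 2) from (Real.sqrt_sq (by positivity)).symm]
    refine Real.sqrt_le_sqrt ?_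
    nlinarith [mul_le_mul_of_nonneg_right hnD hn0.le]
  have key : ∀ ω : EuclideanSpace ℝ V,
      3 * lam * (n / 2 - |((Sd 0 ω).card : ℝ) - n * (1 / 2)|) - 3 * lam * (c * n + 1) ≤
        (cut G (Sd 0 ω) : ℝ) := by
    intro ω
    obtain ⟨A, hA1, hA2, hA3⟩ := exists_odd G hreg hd hl0 hl1 (Sd 0 ω)
    have h3l : 0 < 3 * lam := by linarith
    rw [← hn'] at hA2 hA3
    have h1 : 3 * lam * min (((Sd 0 ω).card : ℝ)) (n - (Sd 0 ω).card) - cut G (Sd 0 ω) ≤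
        3 * lam * (c * n + 1) := by
      by_cases hc1 : c * n ≤ A.card
      · by_cases hc2 : c * n ≤ (Aᶜ).card
        · rw [hn'] at hc1 hc2
          exact absurd ⟨A, hc1, hc2, hA1⟩ hcon
        · push Not at hc2
          refine hA3.trans (mul_le_mul_of_nonneg_left (by linarith) h3l.le)
      · push Not at hc1
        refine hA2.trans (mul_le_mul_of_nonneg_left (by linarith) h3l.le)
    have ha := abs_le.1 (le_refl |((Sd 0 ω).card : ℝ) - n * (1 / 2)|)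
    obtain ⟨z, hz⟩ : ∃ z, z = |((Sd 0 ω).card : ℝ) - n * (1 / 2)| := ⟨_, rfl⟩
    rw [← hz] at ha ⊢
    have h3 : n / 2 - z ≤ min (((Sd 0 ω).card : ℝ)) (n - (Sd 0 ω).card) := by
      refine le_min ?_ ?_
      · linarith [ha.1]
      · linarith [ha.2]
    have h4 := mul_le_mul_of_nonneg_left h3 h3l.le
    linarith
  have iS := integrable_card_Sd (V := V) S 0
  have iC := integrable_cut_Sd G S 0
  rw [← hμ] at iS iC
  have hprob : IsProbabilityMeasure μ := by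
    rw [hμ]
    infer_instance
  have iA : Integrable (fun ω : EuclideanSpace ℝ V => |((Sd 0 ω).card : ℝ) - n * (1 / 2)|) μ :=
    (iS.sub (integrable_const (n * (1 / 2)))).abs
  have iB : Integrable (fun ω : EuclideanSpace ℝ V => n / 2 - |((Sd 0 ω).card : ℝ) - n * (1 / 2)|) μ :=
    (integrable_const (n / 2)).sub iA
  have hint := integral_mono (μ := μ) ((iB.const_mul (3 * lam)).sub
    (integrable_const (3 * lam * (c * n + 1)))) iC key
  have e1 : ∫ ω, (3 * lam * (n / 2 - |((Sd 0 ω).card : ℝ) - n * (1 / 2)|) - 3 * lam * (c * n + 1)) ∂μ =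
      3 * lam * (n / 2 - ∫ ω, |((Sd 0 ω).card : ℝ) - n * (1 / 2)| ∂μ) - 3 * lam * (c * n + 1) := by
    rw [integral_sub (iB.const_mul (3 * lam)) (integrable_const (3 * lam * (c * n + 1))),
      integral_const_mul, integral_sub (integrable_const (n / 2)) iA]
    simp
  have hint2 : 3 * lam * (n / 2 - ∫ ω, |((Sd 0 ω).card : ℝ) - n * (1 / 2)| ∂μ) -
      3 * lam * (c * n + 1) ≤ ∫ ω, (cut G (Sd 0 ω) : ℝ) ∂μ := by
    rw [← e1]
    exact hint
  have b1 : ∫ ω, (cut G (Sd 0 ω) : ℝ) ∂μ ≤ e * n := by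
    have h1 := bnd_cut G hreg hS 0
    have h2 : Real.exp (-(0 : ℝ) ^ 2 / 2) = 1 := by norm_num
    rw [h2, mul_one, ← hμ, ← hn', ← he] at h1
    exact h1
  have b2 : ∫ ω, |((Sd 0 ω).card : ℝ) - n * (1 / 2)| ∂μ ≤ Real.sqrt (D * n) := by
    have h1 := conc_Sd G hreg hS 0
    have h2 : ∑ v, (multivariateGaussian 0 S).real {ω | v ∈ Sd 0 ω} = n * (1 / 2) := by
      rw [Finset.sum_congr rfl fun v _ => prob_Sd hS.psd (hS.diag v) 0, Finset.sum_const,
        Finset.card_univ, nsmul_eq_mul, ← hn', neg_zero, gauss_half]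
    rw [h2, ← hμ, ← hn', ← hD] at h1
    exact h1
  obtain ⟨I, hI⟩ : ∃ x : ℝ, x = ∫ ω, |((Sd 0 ω).card : ℝ) - n * (1 / 2)| ∂μ := ⟨_, rfl⟩
  rw [← hI] at hint2 b2
  have b3 : 3 * I ≤ g * n := by linarith
  have b4 : lam * (3 * I) ≤ g * n := by
    have h1 := mul_le_mul_of_nonneg_left b3 hl0.le
    have h2 : lam * (g * n) ≤ 1 * (g * n) := mul_le_mul_of_nonneg_right hl1.le (by positivity)
    linarith
  have b5 := mul_le_mul_of_nonneg_right hlM hn0.le
  have b6 : (M - g) * n - g * n - 3 ≤ e * n := by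
    have h1 : 3 * lam * (n / 2 - I) - 3 * lam * (c * n + 1) =
        lam * M * n - lam * (3 * I) - 3 * lam := by
      rw [hM]
      ring
    rw [h1] at hint2
    linarith
  have b7 : (M - e) * n = 4 * g * n := by rw [hg4]
  have b8 : 0 < g * n := by positivity
  linarith

end Pool.Agent.H49.FR
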